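import Mathlib
import Pool.Agent.Y419.LC.LCP
import Pool.Agent.Y419.LC.SIG

/-!
# Leopoldt's conjecture and the injectivity of the logarithms on `ℂ_p ⊗ 𝓞_H^×`
-/

set_option autoImplicit false

namespace Pool.Agent.U332.LC

open NumberField Module TensorProduct Pool.Agent.W289.SL Filter Topology
open Pool.Agent.Y419.LC.LcpP Pool.Agent.Y419.LC.SigP
open Pool.Agent.H637R2.Leo (Leopoldt)

variable {p : ℕ} [hp : Fact p.Prime]

/-- the logarithms are injective on `ℂ_p ⊗ 𝓞_H^×` -/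
def Inj {L : ℂ_[p] → ℂ_[p]} (hL : IsIwasawaLog p L) (H : Type) [Field H] [NumberField H] : Prop :=
  ∀ x : UM p H, (∀ σ : H →+* ℂ_[p], logLin hL σ x = 0) → x = 0

variable {L : ℂ_[p] → ℂ_[p]} (hL : IsIwasawaLog p L)

include hL in
theorem inj_of_leopoldt {H : Type} [Field H] [NumberField H] (h : Leopoldt H p) : Inj hL H :=
  Pool.Agent.Y419.LC.lcp p H h L hL

omit hp in
lemma exists_emb (p : ℕ) [Fact p.Prime] (H : Type) [Field H] [NumberField H] :
    Nonempty (H →+* ℂ_[p]) := by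
  have : Algebra.IsAlgebraic ℚ H := inferInstance
  exact ⟨(IsAlgClosed.lift (R := ℚ) (S := H) (M := ℂ_[p])).toRingHom⟩

lemma norm_p_le : ‖((p : ℕ) : ℂ_[p])‖ ≤ 2⁻¹ := by
  rw [norm_p]
  apply inv_anti₀ (by norm_num)
  exact_mod_cast hp.out.two_le

include hL in
/-- the logarithm of an element near `1` is small -/
lemma log_le {z : ℂ_[p]} (hz : ‖z‖ ≤ 1 / 8) : ‖L (1 + z)‖ ≤ 2 * ‖z‖ := by
  have h1 := hL.approx hz
  have h2 : ‖L (1 + z)‖ ≤ ‖L (1 + z) - z‖ + ‖z‖ := by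
    have h3 : L (1 + z) = (L (1 + z) - z) + z := by ring
    calc ‖L (1 + z)‖ = ‖(L (1 + z) - z) + z‖ := by rw [← h3]
      _ ≤ _ := norm_add_le _ _
  nlinarith [norm_nonneg z]

theorem leopoldt_of_inj {H : Type} [Field H] [NumberField H] (h : Inj hL H) : Leopoldt H p := by
  intro n ε hε hind a m hm hlim
  -- the element
  set x : UM p H := ∑ i, algebraMap ℚ_[p] ℂ_[p] (a i : ℚ_[p]) • ((1 : ℂ_[p]) ⊗ₜ[ℤ]
    Additive.ofMul (ε i)) with hx
  have hx0 : x = 0 := by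
    apply h
    intro σ
    have h1 : logLin hL σ x = ∑ i, algebraMap ℚ_[p] ℂ_[p] (a i : ℚ_[p]) *
        L (σ ((ε i : 𝓞 H) : H)) := by
      rw [hx, map_sum]
      refine Finset.sum_congr rfl fun i _ => ?_
      rw [map_smul, logLin_tmul, one_mul, smul_eq_mul]
      rfl
    rw [h1]
    set u : ℕ → (𝓞 H)ˣ := fun k => ∏ i, ε i ^ m k i with hu
    -- the logarithms of `u k`
    have h2 : ∀ k, L (σ ((u k : 𝓞 H) : H)) = ∑ i, algebraMap ℚ_[p] ℂ_[p]
        (((m k i : ℤ) : PadicInt p) : ℚ_[p]) * L (σ ((ε i : 𝓞 H) : H)) := by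
      intro k
      have h2 : logHom hL σ (Additive.ofMul (u k)) = ∑ i, (m k i) • logHom hL σ
          (Additive.ofMul (ε i)) := by
        rw [hu, ofMul_prod, map_sum]
        refine Finset.sum_congr rfl fun i _ => ?_
        rw [ofMul_zpow, map_zsmul]
      have h3 : L (σ ((u k : 𝓞 H) : H)) = logHom hL σ (Additive.ofMul (u k)) := rfl
      rw [h3, h2]
      refine Finset.sum_congr rfl fun i _ => ?_
      rw [zsmul_eq_mul]
      congr 1
      simp
    have h3 : Tendsto (fun k => L (σ ((u k : 𝓞 H) : H))) atTop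
        (𝓝 (∑ i, algebraMap ℚ_[p] ℂ_[p] (a i : ℚ_[p]) * L (σ ((ε i : 𝓞 H) : H)))) := by
      simp only [h2]
      have hj : Continuous (fun x : PadicInt p => algebraMap ℚ_[p] ℂ_[p] (x : ℚ_[p])) :=
        (continuous_algebraMap ℚ_[p] ℂ_[p]).comp continuous_subtype_val
      refine tendsto_finsetSum _ fun i _ => ?_
      exact ((hj.tendsto (a i)).comp (hm i)).mul_const _
    have h4 : Tendsto (fun k => L (σ ((u k : 𝓞 H) : H))) atTop (𝓝 0) := by
      have hemb : Tendsto (fun k => σ (((u k : 𝓞 H) - 1 : 𝓞 H) : H)) atTop (𝓝 0) := by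
        rw [Metric.tendsto_nhds]
        intro e he
        obtain ⟨N, hN⟩ := exists_pow_lt_of_lt_one he (show ((2 : ℝ)⁻¹) < 1 by norm_num)
        filter_upwards [hlim N] with k hk
        obtain ⟨v, hv⟩ := hk
        rw [dist_zero_right]
        change ‖σ (((u k : 𝓞 H) - 1 : 𝓞 H) : H)‖ < e
        have h5 : ((u k : 𝓞 H) - 1 : 𝓞 H) = ((p : ℕ) : 𝓞 H) ^ N * v := hv
        rw [h5]
        have h6 : σ ((((p : ℕ) : 𝓞 H) ^ N * v : 𝓞 H) : H) = ((p : ℕ) : ℂ_[p]) ^ N * σ (v : H) := by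
          simp only [map_mul, map_pow, map_natCast]
        rw [h6, norm_mul, norm_pow]
        calc ‖((p : ℕ) : ℂ_[p])‖ ^ N * ‖σ (v : H)‖ ≤ (2⁻¹) ^ N * 1 := by
              have h8 := norm_emb_le σ v
              have h7 : ‖((p : ℕ) : ℂ_[p])‖ ^ N ≤ (2⁻¹) ^ N :=
                pow_le_pow_left₀ (norm_nonneg _) norm_p_le N
              exact mul_le_mul h7 h8 (norm_nonneg _) (by positivity)
          _ < e := by rw [mul_one]; exact hN
      have hn := hemb.norm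
      rw [norm_zero] at hn
      have hn2 := hn.const_mul 2
      rw [mul_zero] at hn2
      refine squeeze_zero_norm' ?_ hn2
      filter_upwards [hn.eventually (gt_mem_nhds (show (0 : ℝ) < 1 / 8 by norm_num))] with k hk
      have h5 := log_le hL (le_of_lt hk)
      have h4 : 1 + σ (((u k : 𝓞 H) - 1 : 𝓞 H) : H) = σ ((u k : 𝓞 H) : H) := by
        have h5 : σ (((u k : 𝓞 H) - 1 : 𝓞 H) : H) = σ ((u k : 𝓞 H) : H) - 1 := by
          simp only [map_sub, map_one]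
        rw [h5]
        ring
      rw [h4] at h5
      exact h5
    exact tendsto_nhds_unique h3 h4
  -- independence
  have hli : LinearIndependent ℤ (fun i => Additive.ofMul (ε i)) := by
    rw [Fintype.linearIndependent_iff]
    intro g hg i
    have h1 : ∏ i, ε i ^ g i = 1 := by
      apply Additive.ofMul.injective
      rw [ofMul_prod, ofMul_one, ← hg]
      rfl
    exact congrFun (hind g h1) i
  have hfl : Module.Flat ℤ ℂ_[p] := inferInstance
  have hli2 := Module.Flat.linearIndependent_one_tmul (S := ℂ_[p]) hli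
  rw [Fintype.linearIndependent_iff] at hli2
  funext i
  have h5 := hli2 (fun i => algebraMap ℚ_[p] ℂ_[p] (a i : ℚ_[p])) hx0 i
  have h6 : (a i : ℚ_[p]) = 0 := (map_eq_zero _).1 h5
  exact Subtype.ext h6

include hL in
/-- a unit with vanishing logarithms is torsion -/
theorem torsion_of_log {H : Type} [Field H] [NumberField H] (v : Additive (𝓞 H)ˣ)
    (hv : ∀ σ : H →+* ℂ_[p], L (σ ((Additive.toMul v : (𝓞 H)ˣ) : 𝓞 H)) = 0) :
    ∃ n : ℕ, n ≠ 0 ∧ n • v = 0 := by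
  obtain ⟨n, hn, hnU⟩ := exists_pow_U4 H p
  refine ⟨n, hn, ?_⟩
  obtain ⟨σ⟩ := exists_emb p H
  set w : (𝓞 H)ˣ := Additive.toMul v ^ n with hw
  have hw4 : w ∈ U4 H p := hnU _
  obtain ⟨y, hy⟩ := (mem_U4 w).1 hw4
  have h0 : L (σ ((w : 𝓞 H) : H)) = 0 := by
    have h1 : logHom hL σ (n • v) = n • logHom hL σ v := map_nsmul _ _ _
    have h2 : logHom hL σ v = 0 := hv σ
    rw [h2, smul_zero] at h1
    exact h1
  have h2 : ‖σ (((w : 𝓞 H) - 1 : 𝓞 H) : H)‖ ≤ 1 / 8 := by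
    rw [hy]
    have h3 : σ ((((p : ℕ) : 𝓞 H) ^ 4 * y : 𝓞 H) : H) = ((p : ℕ) : ℂ_[p]) ^ 4 * σ (y : H) := by
      simp only [map_mul, map_pow, map_natCast]
    rw [h3, norm_mul, norm_pow]
    have h4 := norm_emb_le σ y
    have h6 : ‖((p : ℕ) : ℂ_[p])‖ ^ 4 ≤ (2⁻¹) ^ 4 := pow_le_pow_left₀ (norm_nonneg _) norm_p_le 4
    calc ‖((p : ℕ) : ℂ_[p])‖ ^ 4 * ‖σ (y : H)‖ ≤ (2⁻¹) ^ 4 * 1 :=
          mul_le_mul h6 h4 (norm_nonneg _) (by positivity)
      _ ≤ 1 / 8 := by norm_num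
  have h3 := dist_le hL h2
  have h4 : 1 + σ (((w : 𝓞 H) - 1 : 𝓞 H) : H) = σ ((w : 𝓞 H) : H) := by
    have h5 : σ (((w : 𝓞 H) - 1 : 𝓞 H) : H) = σ ((w : 𝓞 H) : H) - 1 := by
      simp only [map_sub, map_one]
    rw [h5]
    ring
  rw [h4, h0, norm_zero, mul_zero] at h3
  have h5 : σ (((w : 𝓞 H) - 1 : 𝓞 H) : H) = 0 := norm_le_zero_iff.1 h3
  have h6 : (((w : 𝓞 H) - 1 : 𝓞 H) : H) = 0 := (map_eq_zero σ).1 h5
  have h7 : (w : 𝓞 H) - 1 = 0 := by
    apply RingOfIntegers.ext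
    rw [h6]
    simp
  have h8 : w = 1 := Units.ext (sub_eq_zero.1 h7)
  apply Additive.toMul.injective
  rw [toMul_nsmul, ← hw, h8]
  rfl

end Pool.Agent.U332.LC
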