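import Mathlib
import Pool.Agent.U332.LC.A

/-!
# Norms and relations between the logarithms of units
-/

set_option autoImplicit false

namespace Pool.Agent.U332.LC

open NumberField Module TensorProduct Pool.Agent.W289.SL Filter Topology
open Pool.Agent.Y419.LC.LcpP Pool.Agent.Y419.LC.SigP
open Pool.Agent.H637R2.Leo (Leopoldt)

variable {p : ℕ} [hp : Fact p.Prime]
variable {L : ℂ_[p] → ℂ_[p]} (hL : IsIwasawaLog p L)

/-- extension of scalars of an endomorphism of the unit group -/
noncomputable def ext (p : ℕ) [Fact p.Prime] {H : Type} [Field H] [NumberField H]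
    (f : Additive (𝓞 H)ˣ →+ Additive (𝓞 H)ˣ) : UM p H →ₗ[ℂ_[p]] UM p H :=
  f.toIntLinearMap.baseChange ℂ_[p]

lemma ext_tmul {H : Type} [Field H] [NumberField H] (f : Additive (𝓞 H)ˣ →+ Additive (𝓞 H)ˣ)
    (c : ℂ_[p]) (u : Additive (𝓞 H)ˣ) : ext p f (c ⊗ₜ u) = c ⊗ₜ f u := rfl

include hL in
/-- relations in the image of an endomorphism of rank at most one -/
theorem rank_one {H : Type} [Field H] [NumberField H] (f : Additive (𝓞 H)ˣ →+ Additive (𝓞 H)ˣ)
    (hdep : ∀ u v, ∃ m n : ℤ, (m ≠ 0 ∨ n ≠ 0) ∧ m • f u + n • f v = 0) (y : UM p H)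
    (hy : ∀ σ : H →+* ℂ_[p], logLin hL σ (ext p f y) = 0) : ext p f y = 0 := by
  by_cases hT : ∀ u, ∃ n : ℕ, n ≠ 0 ∧ n • f u = 0
  · clear hy
    induction y using TensorProduct.induction_on with
    | zero => exact map_zero _
    | add x y hx hy => rw [map_add, hx, hy, add_zero]
    | tmul c u =>
      obtain ⟨n, hn, h⟩ := hT u
      rw [ext_tmul]
      exact Pool.Agent.Y419.LC.LcpP.tmul_torsion c (f u) n hn h
  · push Not at hT
    obtain ⟨u₀, hu₀⟩ := hT
    have key : ∀ y : UM p H, ∃ c : ℂ_[p], ext p f y = c ⊗ₜ[ℤ] f u₀ := by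
      intro y
      induction y using TensorProduct.induction_on with
      | zero => exact ⟨0, by rw [map_zero, TensorProduct.zero_tmul]⟩
      | add x y hx hy =>
        obtain ⟨a, ha⟩ := hx
        obtain ⟨b, hb⟩ := hy
        exact ⟨a + b, by rw [map_add, ha, hb, TensorProduct.add_tmul]⟩
      | tmul c u =>
        obtain ⟨m, n, hmn, h⟩ := hdep u u₀
        have hm : m ≠ 0 := by
          rintro rfl
          have hn : n ≠ 0 := by simpa using hmn
          rw [zero_smul, zero_add] at h
          refine hu₀ n.natAbs (Int.natAbs_ne_zero.2 hn) ?_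
          rcases Int.natAbs_eq n with h1 | h1
          · rw [h1, natCast_zsmul] at h
            exact h
          · rw [h1, neg_smul, natCast_zsmul, neg_eq_zero] at h
            exact h
        have hm' : (m : ℂ_[p]) ≠ 0 := by exact_mod_cast hm
        refine ⟨c * ((-n : ℤ) : ℂ_[p]) / m, ?_⟩
        rw [ext_tmul]
        have h1 : (c ⊗ₜ[ℤ] f u : UM p H) = (c / m) ⊗ₜ[ℤ] (m • f u) := by
          rw [tmul_zsmul, div_mul_cancel₀ _ hm']
        have h2 : m • f u = (-n) • f u₀ := by
          rw [neg_smul]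
          exact eq_neg_of_add_eq_zero_left h
        rw [h1, h2, tmul_zsmul]
        congr 1
        ring
    obtain ⟨c, hc⟩ := key y
    by_cases hc0 : c = 0
    · rw [hc, hc0, TensorProduct.zero_tmul]
    · exfalso
      obtain ⟨n, hn, h⟩ := torsion_of_log hL (f u₀) (fun σ => by
        have h1 := hy σ
        rw [hc, logLin_tmul] at h1
        exact (mul_eq_zero.1 h1).resolve_left hc0)
      exact hu₀ n hn h

section norm

variable {K H : Type} [Field K] [NumberField K] [Field H] [NumberField H]

/-- relations -/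
def IsRel (x : UM p H) : Prop := ∀ σ : H →+* ℂ_[p], logLin hL σ x = 0

lemma IsRel.act {x : UM p H} (hx : IsRel hL x) (f : H →+* H) : IsRel hL (actLin p f x) := by
  intro σ
  rw [logLin_act]
  exact hx _

lemma IsRel.sum {ι : Type} (s : Finset ι) (f : ι → UM p H)
    (hf : ∀ i ∈ s, IsRel hL (f i)) : IsRel hL (∑ i ∈ s, f i) := by
  intro σ
  rw [map_sum]
  exact Finset.sum_eq_zero fun i hi => hf i hi σ

lemma act_comp (f g : H →+* H) (x : UM p H) :
    actLin p f (actLin p g x) = actLin p (f.comp g) x := by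
  induction x using TensorProduct.induction_on with
  | zero => simp
  | add x y hx hy => rw [map_add, map_add, map_add, hx, hy]
  | tmul c u => rw [actLin_tmul, actLin_tmul, actLin_tmul, unitHom_comp]

/-- the action of the Galois group -/
noncomputable abbrev act (g : H ≃ₐ[ℚ] H) : UM p H →ₗ[ℂ_[p]] UM p H := actLin p (g : H →+* H)

lemma act_mul (g h : H ≃ₐ[ℚ] H) (x : UM p H) : act (g * h) x = act g (act h x) := by
  unfold act
  rw [act_comp]
  rfl

lemma act_one (x : UM p H) : act (1 : H ≃ₐ[ℚ] H) x = x := by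
  induction x using TensorProduct.induction_on with
  | zero => simp
  | add x y hx hy => rw [map_add, hx, hy]
  | tmul c u =>
    unfold act
    rw [actLin_tmul]
    exact congrArg (fun v => c ⊗ₜ[ℤ] v) (unitHom_id u)

/-- the norm on units -/
noncomputable def normU (K H : Type) [Field K] [Field H] [Algebra K H] :
    Additive (𝓞 H)ˣ →+ Additive (𝓞 K)ˣ :=
  MonoidHom.toAdditive (Units.map (RingOfIntegers.norm K))

open Classical in
lemma sum_unitHom [IsGalois ℚ H] [Algebra K H] (u : Additive (𝓞 H)ˣ) :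
    ∑ g ∈ (Finset.univ : Finset (H ≃ₐ[ℚ] H)).filter
      (fun g => ∀ k : K, g (algebraMap K H k) = algebraMap K H k), unitHom (g : H →+* H) u =
      unitInc K H (normU K H u) := by
  have : IsScalarTower ℚ K H := IsScalarTower.of_algebraMap_eq' (Subsingleton.elim _ _)
  have : IsGalois K H := IsGalois.tower_top_of_isGalois ℚ K H
  have : FiniteDimensional K H := FiniteDimensional.right ℚ K H
  apply Additive.toMul.injective
  apply Units.ext
  apply RingOfIntegers.ext
  rw [unitInc_apply]
  have h1 : (((Additive.toMul (normU K H u) : (𝓞 K)ˣ) : 𝓞 K) : K) =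
      Algebra.norm K (((Additive.toMul u : (𝓞 H)ˣ) : 𝓞 H) : H) := rfl
  rw [h1, Algebra.norm_eq_prod_automorphisms, toMul_sum, Units.coe_prod,
    RingOfIntegers.coe_eq_algebraMap, map_prod]
  refine Finset.prod_bij' (fun g hg => AlgEquiv.ofRingEquiv (f := g.toRingEquiv)
      (by simpa using hg)) (fun g _ => g.restrictScalars ℚ) ?_ ?_ ?_ ?_ ?_
  · intro g hg
    exact Finset.mem_univ _
  · intro g hg
    rw [Finset.mem_filter]
    refine ⟨Finset.mem_univ _, fun k => ?_⟩
    exact g.commutes k
  · intro g hg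
    ext x
    rfl
  · intro g hg
    ext x
    rfl
  · intro g hg
    rfl

open Classical in
include hL in
/-- the norm of a relation to a field with injective logarithms is zero -/
theorem norm_zero [IsGalois ℚ H] (j : K →+* H) (hK : Inj hL K) {x : UM p H} (hx : IsRel hL x) :
    ∑ g ∈ (Finset.univ : Finset (H ≃ₐ[ℚ] H)).filter (fun g => ∀ k : K, g (j k) = j k),
      act g x = 0 := by
  let _ := j.toAlgebra
  set N : UM p H →ₗ[ℂ_[p]] UM p K := (normU K H).toIntLinearMap.baseChange ℂ_[p] with hN
  have key : ∀ y : UM p H, ∑ g ∈ (Finset.univ : Finset (H ≃ₐ[ℚ] H)).filter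
      (fun g => ∀ k : K, g (j k) = j k), act g y = incLin p K H (N y) := by
    intro y
    induction y using TensorProduct.induction_on with
    | zero => simp
    | add y z hy hz => simp only [map_add, Finset.sum_add_distrib, hy, hz]
    | tmul c u =>
      have h1 : N (c ⊗ₜ u) = c ⊗ₜ normU K H u := rfl
      rw [h1, incLin_tmul, ← sum_unitHom (K := K) u, TensorProduct.tmul_sum]
      rfl
  rw [key]
  have h0 : N x = 0 := by
    apply hK
    intro σ
    obtain ⟨τ, hτ⟩ := exists_ext (H := H) σ
    rw [← hτ, ← logLin_inc, ← key, map_sum]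
    refine Finset.sum_eq_zero fun g _ => ?_
    exact hx.act hL _ τ
  rw [h0, map_zero]

end norm

end Pool.Agent.U332.LC
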