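import Mathlib
import Pool.Agent.U332.LC.B

/-!
# Sums over subgroups of the Galois group
-/

set_option autoImplicit false

namespace Pool.Agent.U332.LC

open NumberField Module TensorProduct Pool.Agent.W289.SL Filter Topology
open Pool.Agent.Y419.LC.LcpP Pool.Agent.Y419.LC.SigP
open Pool.Agent.H637R2.Leo (Leopoldt)

variable {p : ℕ} [hp : Fact p.Prime]
variable {L : ℂ_[p] → ℂ_[p]} (hL : IsIwasawaLog p L)

include hL in
/-- fields with units of rank at most one -/
theorem inj_of_rank {K : Type} [Field K] [NumberField K] (h : Units.rank K ≤ 1) : Inj hL K := by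
  intro x hx
  have h1 : ext p (AddMonoidHom.id (Additive (𝓞 K)ˣ)) x = x := by
    induction x using TensorProduct.induction_on with
    | zero => exact map_zero _
    | add x y _ _ =>
      have : ∀ z : UM p K, ext p (AddMonoidHom.id (Additive (𝓞 K)ˣ)) z = z := by
        intro z
        induction z using TensorProduct.induction_on with
        | zero => exact map_zero _
        | add x y hx hy => rw [map_add, hx, hy]
        | tmul c u => rfl
      exact this _
    | tmul c u => rfl
  rw [← h1]
  apply rank_one hL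
  · intro u v
    have h2 : ¬ LinearIndependent ℤ ![u, v] := by
      intro h3
      have h4 := h3.fintype_card_le_finrank
      rw [Units.finrank_eq, Fintype.card_fin] at h4
      omega
    rw [LinearIndependent.pair_iff] at h2
    push Not at h2
    obtain ⟨m, n, h3, h4⟩ := h2
    refine ⟨m, n, ?_, h3⟩
    by_cases hm : m = 0
    · exact Or.inr (h4 hm)
    · exact Or.inl hm
  · rw [h1]
    exact hx

/-- the rank of the units and the degree -/
lemma rank_le_of_finrank {K : Type} [Field K] [NumberField K] (h : finrank ℚ K ≤ 2) :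
    Units.rank K ≤ 1 := by
  have h1 := InfinitePlace.card_eq_nrRealPlaces_add_nrComplexPlaces K
  have h2 := InfinitePlace.card_add_two_mul_card_eq_rank K
  rw [Units.rank]
  omega

section group

variable {H : Type} [Field H] [NumberField H]

/-- sum over the elements with the property `P` -/
noncomputable def NS (P : (H ≃ₐ[ℚ] H) → Prop) [DecidablePred P] (x : UM p H) : UM p H :=
  ∑ g ∈ (Finset.univ : Finset (H ≃ₐ[ℚ] H)).filter P, act g x

/-- weighted sum -/
noncomputable def W (w : (H ≃ₐ[ℚ] H) → ℤ) (x : UM p H) : UM p H := ∑ g, w g • act g x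

lemma W_add (w w' : (H ≃ₐ[ℚ] H) → ℤ) (x : UM p H) : W (fun g => w g + w' g) x = W w x + W w' x := by
  unfold W
  rw [← Finset.sum_add_distrib]
  exact Finset.sum_congr rfl fun g _ => add_smul _ _ _

lemma W_ind (P : (H ≃ₐ[ℚ] H) → Prop) [DecidablePred P] (x : UM p H) :
    W (fun g => if P g then 1 else 0) x = NS P x := by
  unfold W NS
  rw [Finset.sum_filter]
  refine Finset.sum_congr rfl fun g _ => ?_
  by_cases h : P g
  · simp only [if_pos h, one_smul]
  · simp only [if_neg h, zero_smul]

lemma W_mul (P : (H ≃ₐ[ℚ] H) → Prop) [DecidablePred P] (n : ℤ) (x : UM p H) :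
    W (fun g => if P g then n else 0) x = n • NS P x := by
  unfold W NS
  rw [Finset.sum_filter, Finset.smul_sum]
  refine Finset.sum_congr rfl fun g _ => ?_
  by_cases h : P g
  · simp only [if_pos h]
  · simp only [if_neg h, zero_smul, smul_zero]

lemma NS_one (P : (H ≃ₐ[ℚ] H) → Prop) [DecidablePred P] (hP : ∀ g, P g ↔ g = 1) (x : UM p H) :
    NS P x = x := by
  unfold NS
  have h1 : (Finset.univ : Finset (H ≃ₐ[ℚ] H)).filter P = {1} := by
    ext g
    simp [hP]
  rw [h1, Finset.sum_singleton, act_one]

variable {P Q : (H ≃ₐ[ℚ] H) → Prop} [DecidablePred P] [DecidablePred Q]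

lemma NS_congr (h : ∀ g, P g ↔ Q g) (x : UM p H) : NS P x = NS Q x := by
  unfold NS
  congr 1
  ext g
  simp [h]

include hL in
lemma IsRel.NS {x : UM p H} (hx : IsRel hL x) : IsRel hL (NS P x) :=
  IsRel.sum hL _ _ fun _ _ => hx.act hL _

include hL in
/-- norms to number fields -/
theorem NS_emb [IsGalois ℚ H] {K : Type} [Field K] [NumberField K] (j : K →+* H) (hK : Inj hL K)
    {x : UM p H} (hx : IsRel hL x) (hP : ∀ g, P g ↔ ∀ k, g (j k) = j k) : NS P x = 0 := by
  classical
  rw [NS_congr hP, ← norm_zero hL j hK hx]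
  unfold NS
  congr

include hL in
/-- norms to fixed fields -/
theorem NS_fixed [IsGalois ℚ H] (M : Subgroup (H ≃ₐ[ℚ] H))
    (hK : Inj hL (IntermediateField.fixedField M)) {x : UM p H} (hx : IsRel hL x)
    (hP : ∀ g, P g ↔ g ∈ M) : NS P x = 0 := by
  refine NS_emb hL (algebraMap (IntermediateField.fixedField M) H) hK hx fun g => ?_
  rw [hP]
  conv_lhs => rw [← IntermediateField.fixingSubgroup_fixedField M]
  rw [IntermediateField.mem_fixingSubgroup_iff]
  constructor
  · intro h k
    exact h _ k.2
  · intro h y hy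
    exact h ⟨y, hy⟩

lemma finrank_fixed [IsGalois ℚ H] (M : Subgroup (H ≃ₐ[ℚ] H)) :
    finrank ℚ (IntermediateField.fixedField M) = M.index := by
  rw [IntermediateField.finrank_eq_fixingSubgroup_index, IntermediateField.fixingSubgroup_fixedField]

lemma index_le_two {G : Type} [Group G] (M : Subgroup G) (h : ∀ a b, a ∉ M → b ∉ M → a * b ∈ M) :
    M.index ≤ 2 := by
  by_cases hM : ∀ a, a ∈ M
  · have : M = ⊤ := by
      ext a
      simp [hM]
    rw [this, Subgroup.index_top]
    norm_num
  · push Not at hM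
    obtain ⟨a, ha⟩ := hM
    apply le_of_eq
    rw [Subgroup.index_eq_two_iff']
    refine ⟨a, fun b => ?_⟩
    by_cases hb : b ∈ M
    · right
      refine ⟨hb, fun h => ha ?_⟩
      have := M.mul_mem h (M.inv_mem hb)
      simpa using this
    · left
      exact ⟨h a b ha hb, hb⟩

include hL in
/-- norms for subgroups of index at most two -/
theorem NS_two [IsGalois ℚ H] {x : UM p H} (hx : IsRel hL x) (M : Subgroup (H ≃ₐ[ℚ] H))
    (hP : ∀ g, P g ↔ g ∈ M) (hM : ∀ a b, a ∉ M → b ∉ M → a * b ∈ M) : NS P x = 0 := by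
  refine NS_fixed hL M (inj_of_rank hL (rank_le_of_finrank ?_)) hx hP
  rw [finrank_fixed]
  exact index_le_two M hM

include hL in
/-- the norm to `ℚ` -/
theorem NS_top [IsGalois ℚ H] {x : UM p H} (hx : IsRel hL x) (hP : ∀ g, P g) : NS P x = 0 :=
  NS_two hL hx ⊤ (fun g => by simp [hP]) (fun a _ _ _ => by simp)

variable {n : ℕ} (π : (H ≃ₐ[ℚ] H) →* Equiv.Perm (Fin n))

include hL in
/-- the norm to the field of the square root of the discriminant -/
theorem NS_sign [IsGalois ℚ H] {x : UM p H} (hx : IsRel hL x) (hP : ∀ g, P g ↔ (π g).sign = 1) :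
    NS P x = 0 := by
  refine NS_two hL hx ((Equiv.Perm.sign.comp π).ker) (fun g => ?_) ?_
  · rw [hP, MonoidHom.mem_ker, MonoidHom.comp_apply]
  · intro a b ha hb
    rw [MonoidHom.mem_ker, MonoidHom.comp_apply] at ha hb ⊢
    rw [map_mul, map_mul]
    rcases Int.units_eq_one_or ((π a).sign) with h | h
    · exact absurd h ha
    · rcases Int.units_eq_one_or ((π b).sign) with h' | h'
      · exact absurd h' hb
      · rw [h, h']
        rfl

end group

end Pool.Agent.U332.LC
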