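import Mathlib
import Pool.Agent.U332.LC.C

/-!
# The groups of permutations of three and four roots
-/

set_option autoImplicit false

namespace Pool.Agent.U332.LC

open NumberField Module TensorProduct Pool.Agent.W289.SL Filter Topology
open Pool.Agent.Y419.LC.LcpP Pool.Agent.Y419.LC.SigP
open Equiv (Perm swap)

variable {p : ℕ} [hp : Fact p.Prime]
variable {L : ℂ_[p] → ℂ_[p]} (hL : IsIwasawaLog p L)
variable {H : Type} [Field H] [NumberField H]

lemma eq_zero_of_zsmul {x : UM p H} (n : ℤ) (hn : n ≠ 0) (h : n • x = 0) : x = 0 := by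
  have h1 : (n : ℂ_[p]) • x = 0 := by
    rw [Int.cast_smul_eq_zsmul]
    exact h
  exact (smul_eq_zero.1 h1).resolve_left (by exact_mod_cast hn)

lemma key3 : ∀ s : Perm (Fin 3), ((if s.sign = 1 then (1 : ℤ) else 0) +
    ((if s 0 = 0 then 1 else 0) + ((if s 1 = 1 then 1 else 0) + (if s 2 = 2 then 1 else 0)))) =
    ((if True then 1 else 0) + (if s = 1 then 3 else 0)) := by decide

include hL in
theorem case3 [IsGalois ℚ H] (π : (H ≃ₐ[ℚ] H) →* Perm (Fin 3)) (hπ : Function.Injective π)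
    {x : UM p H} (hx : IsRel hL x) (hS : ∀ i, NS (fun g => π g i = i) x = 0) : x = 0 := by
  have h1 : W (fun g => (if (π g).sign = 1 then (1 : ℤ) else 0) +
      ((if π g 0 = 0 then 1 else 0) + ((if π g 1 = 1 then 1 else 0) +
        (if π g 2 = 2 then 1 else 0)))) x =
      W (fun g => (if True then 1 else 0) + (if π g = 1 then 3 else 0)) x := by
    congr 1
    funext g
    exact key3 (π g)
  rw [W_add, W_add, W_add, W_add, W_ind, W_ind, W_ind, W_ind, W_ind, W_mul, hS, hS, hS,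
    NS_sign hL π hx (fun _ => Iff.rfl), NS_top hL hx (fun _ => trivial),
    NS_one _ (fun g => by rw [← map_one π, hπ.eq_iff])] at h1
  simp only [add_zero, zero_add] at h1
  exact eq_zero_of_zsmul 3 (by norm_num) h1.symm

/-- the three double transpositions -/
def dz : Fin 3 → Perm (Fin 4) := ![swap 0 1 * swap 2 3, swap 0 2 * swap 1 3, swap 0 3 * swap 1 2]

lemma key4a : ∀ s : Perm (Fin 4), ((if s.sign = 1 then (1 : ℤ) else 0) +
    ((if s * dz 0 = dz 0 * s then 1 else 0) + ((if s * dz 1 = dz 1 * s then 1 else 0) +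
      (if s * dz 2 = dz 2 * s then 1 else 0)))) =
    ((if True then 1 else 0) + (if s * s = 1 ∧ s.sign = 1 then 3 else 0)) := by decide

lemma key4b : ∀ s : Perm (Fin 4), ((if s * s = 1 ∧ s.sign = 1 then (1 : ℤ) else 0) +
    ((if s 0 = 0 ∧ s.sign = 1 then 1 else 0) + ((if s 1 = 1 ∧ s.sign = 1 then 1 else 0) +
      ((if s 2 = 2 ∧ s.sign = 1 then 1 else 0) + (if s 3 = 3 ∧ s.sign = 1 then 1 else 0))))) =
    ((if s.sign = 1 then 1 else 0) + (if s = 1 then 4 else 0)) := by decide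

include hL in
theorem case4 [IsGalois ℚ H] (π : (H ≃ₐ[ℚ] H) →* Perm (Fin 4)) (hπ : Function.Injective π)
    {x : UM p H} (hx : IsRel hL x)
    (hD : ∀ j, NS (fun g => π g * dz j = dz j * π g) x = 0)
    (hC : ∀ i, NS (fun g => π g i = i ∧ (π g).sign = 1) x = 0) : x = 0 := by
  have h1 : W (fun g => (if (π g).sign = 1 then (1 : ℤ) else 0) +
      ((if π g * dz 0 = dz 0 * π g then 1 else 0) + ((if π g * dz 1 = dz 1 * π g then 1 else 0) +
        (if π g * dz 2 = dz 2 * π g then 1 else 0)))) x =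
      W (fun g => (if True then 1 else 0) + (if π g * π g = 1 ∧ (π g).sign = 1 then 3 else 0)) x := by
    congr 1
    funext g
    exact key4a (π g)
  rw [W_add, W_add, W_add, W_add, W_ind, W_ind, W_ind, W_ind, W_ind, W_mul, hD, hD, hD,
    NS_sign hL π hx (fun _ => Iff.rfl), NS_top hL hx (fun _ => trivial)] at h1
  simp only [add_zero, zero_add] at h1
  have h2 := eq_zero_of_zsmul 3 (by norm_num) h1.symm
  have h3 : W (fun g => (if π g * π g = 1 ∧ (π g).sign = 1 then (1 : ℤ) else 0) +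
      ((if π g 0 = 0 ∧ (π g).sign = 1 then 1 else 0) +
        ((if π g 1 = 1 ∧ (π g).sign = 1 then 1 else 0) +
          ((if π g 2 = 2 ∧ (π g).sign = 1 then 1 else 0) +
            (if π g 3 = 3 ∧ (π g).sign = 1 then 1 else 0))))) x =
      W (fun g => (if (π g).sign = 1 then 1 else 0) + (if π g = 1 then 4 else 0)) x := by
    congr 1
    funext g
    exact key4b (π g)
  rw [W_add, W_add, W_add, W_add, W_add, W_ind, W_ind, W_ind, W_ind, W_ind, W_ind, W_mul,
    hC, hC, hC, hC, h2,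
    NS_sign hL π hx (fun _ => Iff.rfl),
    NS_one _ (fun g => by rw [← map_one π, hπ.eq_iff])] at h3
  simp only [add_zero, zero_add] at h3
  exact eq_zero_of_zsmul 4 (by norm_num) h3.symm

/-- a norm of two terms -/
lemma NS_pair {n : ℕ} (π : (H ≃ₐ[ℚ] H) →* Perm (Fin n)) (hπ : Function.Injective π)
    (P : (H ≃ₐ[ℚ] H) → Prop) [DecidablePred P] (t : Perm (Fin n))
    (hP : ∀ g, P g → π g = 1 ∨ π g = t) (h1 : P 1) {x : UM p H} (hx : NS P x = 0) :
    x = 0 ∨ ∃ g, π g = t ∧ act g x = -x := by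
  classical
  by_cases h : ∃ g, P g ∧ g ≠ 1
  · obtain ⟨g, hg, hg1⟩ := h
    have hgt : π g = t := (hP g hg).resolve_left (fun h => hg1 (hπ (by rw [h, map_one])))
    right
    refine ⟨g, hgt, ?_⟩
    have h2 : (Finset.univ : Finset (H ≃ₐ[ℚ] H)).filter P = {1, g} := by
      ext k
      rw [Finset.mem_filter, Finset.mem_insert, Finset.mem_singleton]
      constructor
      · rintro ⟨-, hk⟩
        rcases hP k hk with h3 | h3
        · exact Or.inl (hπ (by rw [h3, map_one]))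
        · exact Or.inr (hπ (by rw [h3, hgt]))
      · rintro (rfl | rfl)
        · exact ⟨Finset.mem_univ _, h1⟩
        · exact ⟨Finset.mem_univ _, hg⟩
    unfold NS at hx
    rw [h2, Finset.sum_insert (by rw [Finset.mem_singleton]; exact fun h => hg1 h.symm),
      Finset.sum_singleton, act_one] at hx
    exact eq_neg_of_add_eq_zero_right hx
  · left
    push Not at h
    rw [← hx, NS_one]
    intro g
    constructor
    · exact h g
    · rintro rfl
      exact h1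

lemma key8 : ∀ z : Perm (Fin 4), z * z = 1 → (∀ i, z i ≠ i) → ∀ s : Perm (Fin 4), s * z = z * s →
    ((if s.sign = 1 then (1 : ℤ) else 0) + ((if s 0 = 0 ∨ s 0 = z 0 then 1 else 0) +
      (if s.sign = 1 ↔ (s 0 = 0 ∨ s 0 = z 0) then 1 else 0))) =
    ((if True then 1 else 0) + (if s = 1 ∨ s = z then 2 else 0)) := by decide

lemma key8b1 : ∀ z : Perm (Fin 4), (z * z = 1 ∧ (∀ i, z i ≠ i)) → ∀ s : Perm (Fin 4),
    (s * z = z * s ∧ s 0 = 0) → (s = 1 ∨ s = swap (if z 0 = 1 then 2 else 1)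
      (z (if z 0 = 1 then 2 else 1))) := by decide

lemma key8b2 : ∀ z : Perm (Fin 4), (z * z = 1 ∧ (∀ i, z i ≠ i)) → ∀ s : Perm (Fin 4),
    (s * z = z * s ∧ s (if z 0 = 1 then 2 else 1) = (if z 0 = 1 then 2 else 1)) →
      (s = 1 ∨ s = swap 0 (z 0)) := by decide

lemma key8b3 : ∀ z : Perm (Fin 4), (z * z = 1 ∧ (∀ i, z i ≠ i)) →
    swap (if z 0 = 1 then 2 else 1) (z (if z 0 = 1 then 2 else 1)) * swap 0 (z 0) = z := by decide

lemma key8b (z : Perm (Fin 4)) (hz : z * z = 1) (hz2 : ∀ i, z i ≠ i) : ∃ k : Fin 4,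
    (∀ s : Perm (Fin 4), s * z = z * s → s 0 = 0 → s = 1 ∨ s = swap k (z k)) ∧
    (∀ s : Perm (Fin 4), s * z = z * s → s k = k → s = 1 ∨ s = swap 0 (z 0)) ∧
    swap k (z k) * swap 0 (z 0) = z :=
  ⟨_, fun s h1 h2 => key8b1 z ⟨hz, hz2⟩ s ⟨h1, h2⟩,
    fun s h1 h2 => key8b2 z ⟨hz, hz2⟩ s ⟨h1, h2⟩, key8b3 z ⟨hz, hz2⟩⟩

lemma key8c : ∀ z : Perm (Fin 4), z * z = 1 → (∀ i, z i ≠ i) → ∀ s t : Perm (Fin 4),
    s * z = z * s → t * z = z * t → (((s * t) 0 = 0 ∨ (s * t) 0 = z 0) ↔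
      ((s 0 = 0 ∨ s 0 = z 0) ↔ (t 0 = 0 ∨ t 0 = z 0))) := by decide

include hL in
/-- groups of permutations of four roots which preserve a partition in two pairs -/
theorem case8 [IsGalois ℚ H] (π : (H ≃ₐ[ℚ] H) →* Perm (Fin 4)) (hπ : Function.Injective π)
    {x : UM p H} (hx : IsRel hL x) (z : Perm (Fin 4)) (hz : z * z = 1) (hz2 : ∀ i, z i ≠ i)
    (hzg : ∀ g, π g * z = z * π g) (hS : ∀ i, NS (fun g => π g i = i) x = 0) : x = 0 := by
  have h1 : W (fun g => (if (π g).sign = 1 then (1 : ℤ) else 0) +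
      ((if π g 0 = 0 ∨ π g 0 = z 0 then 1 else 0) +
      (if (π g).sign = 1 ↔ (π g 0 = 0 ∨ π g 0 = z 0) then 1 else 0))) x =
      W (fun g => (if True then 1 else 0) + (if π g = 1 ∨ π g = z then 2 else 0)) x := by
    congr 1
    funext g
    exact key8 z hz hz2 (π g) (hzg g)
  have hmul : ∀ g h, (π (g * h) 0 = 0 ∨ π (g * h) 0 = z 0) ↔
      ((π g 0 = 0 ∨ π g 0 = z 0) ↔ (π h 0 = 0 ∨ π h 0 = z 0)) := by
    intro g h
    rw [map_mul]
    exact key8c z hz hz2 (π g) (π h) (hzg g) (hzg h)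
  have hinv : ∀ g, (π g⁻¹ 0 = 0 ∨ π g⁻¹ 0 = z 0) ↔ (π g 0 = 0 ∨ π g 0 = z 0) := by
    intro g
    have h2 := hmul g⁻¹ g
    rw [inv_mul_cancel, map_one] at h2
    have h3 : ((1 : Perm (Fin 4)) 0 = 0 ∨ (1 : Perm (Fin 4)) 0 = z 0) := Or.inl rfl
    exact h2.1 h3
  have hsg : ∀ g h, ((π (g * h)).sign = 1) ↔ (((π g).sign = 1) ↔ ((π h).sign = 1)) := by
    intro g h
    rw [map_mul, map_mul]
    rcases Int.units_eq_one_or ((π g).sign) with h2 | h2 <;>
    rcases Int.units_eq_one_or ((π h).sign) with h3 | h3 <;> rw [h2, h3] <;> decide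
  have hsi : ∀ g, ((π g⁻¹).sign = 1) ↔ ((π g).sign = 1) := by
    intro g
    rw [map_inv, Equiv.Perm.sign_inv]
  let M₂ : Subgroup (H ≃ₐ[ℚ] H) :=
    { carrier := {g | π g 0 = 0 ∨ π g 0 = z 0}
      mul_mem' := fun {a b} ha hb => (hmul a b).2 ⟨fun _ => hb, fun _ => ha⟩
      one_mem' := by
        change π 1 0 = 0 ∨ _
        rw [map_one]
        exact Or.inl rfl
      inv_mem' := fun {a} ha => (hinv a).2 ha }
  let M₃ : Subgroup (H ≃ₐ[ℚ] H) :=
    { carrier := {g | (π g).sign = 1 ↔ (π g 0 = 0 ∨ π g 0 = z 0)}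
      mul_mem' := by
        intro a b ha hb
        change (π (a * b)).sign = 1 ↔ (π (a * b) 0 = 0 ∨ π (a * b) 0 = z 0)
        have ha' : (π a).sign = 1 ↔ (π a 0 = 0 ∨ π a 0 = z 0) := ha
        have hb' : (π b).sign = 1 ↔ (π b 0 = 0 ∨ π b 0 = z 0) := hb
        rw [hmul, hsg, ha', hb']
      one_mem' := by
        change (π 1).sign = 1 ↔ (π 1 0 = 0 ∨ π 1 0 = z 0)
        rw [map_one]
        simp
      inv_mem' := by
        intro a ha
        change (π a⁻¹).sign = 1 ↔ (π a⁻¹ 0 = 0 ∨ π a⁻¹ 0 = z 0)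
        rw [hinv, hsi]
        exact ha }
  have e2 : NS (fun g => π g 0 = 0 ∨ π g 0 = z 0) x = 0 := by
    refine NS_two hL hx M₂ (fun g => Iff.rfl) ?_
    intro a b ha hb
    exact (hmul a b).2 ⟨fun h => absurd h ha, fun h => absurd h hb⟩
  have e3 : NS (fun g => (π g).sign = 1 ↔ (π g 0 = 0 ∨ π g 0 = z 0)) x = 0 := by
    refine NS_two hL hx M₃ (fun g => Iff.rfl) ?_
    intro a b ha hb
    change (π (a * b)).sign = 1 ↔ (π (a * b) 0 = 0 ∨ π (a * b) 0 = z 0)
    have ha' : ¬ ((π a).sign = 1 ↔ (π a 0 = 0 ∨ π a 0 = z 0)) := ha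
    have hb' : ¬ ((π b).sign = 1 ↔ (π b 0 = 0 ∨ π b 0 = z 0)) := hb
    rw [hmul, hsg]
    tauto
  rw [W_add, W_add, W_add, W_ind, W_ind, W_ind, W_ind, W_mul, e2, e3,
    NS_sign hL π hx (fun _ => Iff.rfl), NS_top hL hx (fun _ => trivial)] at h1
  simp only [add_zero, zero_add] at h1
  have h2 := eq_zero_of_zsmul 2 (by norm_num) h1.symm
  obtain ⟨k, hk1, hk2, hk3⟩ := key8b z hz hz2
  rcases NS_pair π hπ _ z (fun g hg => hg) (Or.inl (map_one π)) h2 with h | ⟨g, hg, hgx⟩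
  · exact h
  rcases NS_pair π hπ _ (swap k (z k)) (fun g hg => hk1 (π g) (hzg g) hg)
    (by change π 1 0 = 0; rw [map_one]; rfl) (hS 0) with h | ⟨g₁, hg₁, hgx₁⟩
  · exact h
  rcases NS_pair π hπ _ (swap 0 (z 0)) (fun g hg => hk2 (π g) (hzg g) hg)
    (by change π 1 k = k; rw [map_one]; rfl) (hS k) with h | ⟨g₂, hg₂, hgx₂⟩
  · exact h
  have h3 : g₁ * g₂ = g := hπ (by rw [map_mul, hg₁, hg₂, hk3, hg])
  rw [← h3, act_mul, hgx₂, map_neg, hgx₁, neg_neg] at hgx
  refine eq_zero_of_zsmul 2 (by norm_num) ?_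
  rw [two_smul]
  nth_rewrite 1 [hgx]
  exact neg_add_cancel x

end Pool.Agent.U332.LC
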