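import Mathlib
import Pool.Agent.U332.LC.D

/-!
# Quartic fields with two real places
-/

set_option autoImplicit false

namespace Pool.Agent.U332.LC

open NumberField Module TensorProduct Pool.Agent.W289.SL Filter Topology
open Pool.Agent.Y419.LC.LcpP Pool.Agent.Y419.LC.SigP
open Equiv (Perm swap)

/-- complex conjugation in the Galois group -/
lemma exists_conj {H : Type} [Field H] [NumberField H] [IsGalois ℚ H] (φ : H →+* ℂ) :
    ∃ c : H ≃ₐ[ℚ] H, ∀ y, φ (c y) = starRingEnd ℂ (φ y) := by
  obtain ⟨σ, hσ⟩ := ComplexEmbedding.exists_comp_symm_eq_of_comp_eq (k := ℚ) φ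
    ((starRingEnd ℂ).comp φ) (Subsingleton.elim _ _)
  exact ⟨σ.symm, fun y => congrArg (fun f : H →+* ℂ => f y) hσ⟩

/-- extension of complex embeddings -/
lemma exists_extC {K H : Type} [Field K] [NumberField K] [Field H] [NumberField H] (j : K →+* H)
    (ψ : K →+* ℂ) : ∃ φ : H →+* ℂ, φ.comp j = ψ := by
  let _ := j.toAlgebra
  have : IsScalarTower ℚ K H := IsScalarTower.of_algebraMap_eq' (Subsingleton.elim _ _)
  have : Algebra.IsAlgebraic K H := Algebra.IsAlgebraic.tower_top (K := ℚ) K
  exact ⟨ComplexEmbedding.lift H ψ, ComplexEmbedding.lift_comp_algebraMap H ψ⟩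

section perm

/-- permutations with exactly two fixed points -/
def TT (s : Perm (Fin 4)) : Prop := (Finset.univ.filter fun i => s i = i).card = 2

instance : DecidablePred TT := fun s => by unfold TT; infer_instance

lemma TT_sign : ∀ s : Perm (Fin 4), TT s → s.sign = -1 := by decide

set_option maxRecDepth 20000 in
lemma TT_comm0 : ∀ s t : Perm (Fin 4), (TT s ∧ s * dz 0 = dz 0 * s ∧
    (t⁻¹ * s * t) * dz 0 = dz 0 * (t⁻¹ * s * t)) → t * dz 0 = dz 0 * t := by decide

set_option maxRecDepth 20000 in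
lemma TT_comm1 : ∀ s t : Perm (Fin 4), (TT s ∧ s * dz 1 = dz 1 * s ∧
    (t⁻¹ * s * t) * dz 1 = dz 1 * (t⁻¹ * s * t)) → t * dz 1 = dz 1 * t := by decide

set_option maxRecDepth 20000 in
lemma TT_comm2 : ∀ s t : Perm (Fin 4), (TT s ∧ s * dz 2 = dz 2 * s ∧
    (t⁻¹ * s * t) * dz 2 = dz 2 * (t⁻¹ * s * t)) → t * dz 2 = dz 2 * t := by decide

lemma TT_comm (l : Fin 3) (s t : Perm (Fin 4)) (h : TT s) (h1 : s * dz l = dz l * s)
    (h2 : (t⁻¹ * s * t) * dz l = dz l * (t⁻¹ * s * t)) : t * dz l = dz l * t := by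
  fin_cases l
  · exact TT_comm0 s t ⟨h, h1, h2⟩
  · exact TT_comm1 s t ⟨h, h1, h2⟩
  · exact TT_comm2 s t ⟨h, h1, h2⟩

/-- the centralizer of a double transposition -/
def Cz (l : Fin 3) : Subgroup (Perm (Fin 4)) := Subgroup.centralizer {dz l}

lemma mem_Cz (l : Fin 3) (s : Perm (Fin 4)) : s ∈ Cz l ↔ s * dz l = dz l * s :=
  Subgroup.mem_centralizer_singleton_iff

instance (l : Fin 3) : DecidablePred (· ∈ Cz l) := fun s => decidable_of_iff _ (mem_Cz l s).symm

lemma card_Cz : ∀ l : Fin 3, (Finset.univ.filter fun s : Perm (Fin 4) => s * dz l = dz l * s).card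
    = 8 := by decide

lemma index_Cz (l : Fin 3) : (Cz l).index = 3 := by
  have h1 := (Cz l).index_mul_card
  have h2 : Nat.card (Cz l) = 8 := by
    rw [← card_Cz l, Nat.card_eq_fintype_card, Fintype.card_subtype]
    congr 1
    ext s
    simp [mem_Cz]
  rw [h2, Nat.card_perm, Nat.card_fin] at h1
  have h3 : Nat.factorial 4 = 24 := rfl
  omega

lemma index_comap_le {G : Type} [Group G] {n : ℕ} (π : G →* Perm (Fin n))
    (M : Subgroup (Perm (Fin n))) : (M.comap π).index ≤ M.index := by
  rw [Subgroup.index_comap, ← Subgroup.relIndex_top_right]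
  refine Subgroup.relIndex_le_of_le_right le_top ?_
  rw [Subgroup.relIndex_top_right]
  exact Subgroup.FiniteIndex.index_ne_zero

end perm

variable {p : ℕ} [hp : Fact p.Prime]
variable {L : ℂ_[p] → ℂ_[p]} (hL : IsIwasawaLog p L)
variable {H : Type} [Field H] [NumberField H]

section fixed

variable [IsGalois ℚ H]

/-- real embeddings of fixed fields -/
lemma real_fixed (M : Subgroup (H ≃ₐ[ℚ] H)) (ψ : IntermediateField.fixedField M →+* ℂ)
    (hψ : ComplexEmbedding.IsReal ψ) (φ : H →+* ℂ)
    (hφ : φ.comp (algebraMap (IntermediateField.fixedField M) H) = ψ) (c : H ≃ₐ[ℚ] H)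
    (hc : ∀ y, φ (c y) = starRingEnd ℂ (φ y)) : c ∈ M := by
  rw [← IntermediateField.fixingSubgroup_fixedField M, IntermediateField.mem_fixingSubgroup_iff]
  intro y hy
  apply φ.injective
  rw [hc]
  have h1 : φ y = ψ ⟨y, hy⟩ := by rw [← hφ]; rfl
  rw [h1]
  have h2 := congrArg (fun f : IntermediateField.fixedField M →+* ℂ => f ⟨y, hy⟩)
    (ComplexEmbedding.isReal_iff.1 hψ)
  exact h2

end fixed

/-- a number field `K` of degree `n`, its embeddings in the Galois field `H`, and the action of the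
Galois group on the images `r i` of a generator -/
structure Roots (K H : Type) [Field K] [NumberField K] [Field H] [NumberField H] (n : ℕ) where
  r : Fin n → H
  inj : Function.Injective r
  π : (H ≃ₐ[ℚ] H) →* Perm (Fin n)
  act : ∀ g i, g (r i) = r (π g i)
  faith : Function.Injective π
  θ : K
  gen : ∀ (F : Type) [Field F] (φ ψ : K →+* F), φ θ = ψ θ → φ = ψ
  j : Fin n → (K →+* H)
  jθ : ∀ i, j i θ = r i
  deg : finrank ℚ K = n

namespace Roots

variable {K : Type} [Field K] [NumberField K] {n : ℕ}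

lemma stab (R : Roots K H n) (i : Fin n) (g : H ≃ₐ[ℚ] H) :
    R.π g i = i ↔ ∀ k, g (R.j i k) = R.j i k := by
  constructor
  · intro h k
    have h1 : (g : H →+* H).comp (R.j i) = R.j i := by
      apply R.gen
      change g (R.j i R.θ) = R.j i R.θ
      rw [R.jθ, R.act, h]
    exact congrArg (fun f : K →+* H => f k) h1
  · intro h
    have h1 := h R.θ
    rw [R.jθ, R.act] at h1
    exact R.inj h1

include hL in
lemma NS_stab [IsGalois ℚ H] (R : Roots K H n) (hK : Inj hL K) {x : UM p H} (hx : IsRel hL x)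
    (i : Fin n) : NS (fun g => R.π g i = i) x = 0 :=
  NS_emb hL (R.j i) hK hx fun g => R.stab i g

lemma fixpts (R : Roots K H n) (φ : H →+* ℂ) (c : H ≃ₐ[ℚ] H)
    (hc : ∀ y, φ (c y) = starRingEnd ℂ (φ y)) :
    (Finset.univ.filter fun i => R.π c i = i).card = InfinitePlace.nrRealPlaces K := by
  classical
  let f : Fin n → (K →+* ℂ) := fun i => φ.comp (R.j i)
  have hf : Function.Injective f := by
    intro a b hab
    have h1 := congrArg (fun f : K →+* ℂ => f R.θ) hab
    change φ (R.j a R.θ) = φ (R.j b R.θ) at h1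
    rw [R.jθ, R.jθ] at h1
    exact R.inj (φ.injective h1)
  have hb : Function.Bijective f := by
    rw [Fintype.bijective_iff_injective_and_card]
    refine ⟨hf, ?_⟩
    rw [Fintype.card_fin, Embeddings.card, R.deg]
  let e : Fin n ≃ (K →+* ℂ) := Equiv.ofBijective f hb
  have h1 : ∀ i, R.π c i = i ↔ ComplexEmbedding.IsReal (e i) := by
    intro i
    rw [R.stab]
    constructor
    · intro h
      rw [ComplexEmbedding.isReal_iff]
      ext k
      rw [ComplexEmbedding.conjugate_coe_eq]
      change starRingEnd ℂ (φ (R.j i k)) = φ (R.j i k)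
      rw [← hc, h]
    · intro h k
      apply φ.injective
      rw [hc]
      have h2 := congrArg (fun f : K →+* ℂ => f k) (ComplexEmbedding.isReal_iff.1 h)
      exact h2
  rw [← InfinitePlace.card_real_embeddings, ← Fintype.card_subtype]
  exact Fintype.card_congr (Equiv.subtypeEquiv e h1)

variable [IsGalois ℚ H]

lemma tt (R : Roots K H 4) (hK : InfinitePlace.nrRealPlaces K = 2) (φ : H →+* ℂ) (c : H ≃ₐ[ℚ] H)
    (hc : ∀ y, φ (c y) = starRingEnd ℂ (φ y)) : TT (R.π c) := by
  unfold TT
  rw [R.fixpts φ c hc, hK]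

/-- an odd element which fixes a root -/
lemma odd_stab (R : Roots K H 4) (hK : InfinitePlace.nrRealPlaces K = 2) (i : Fin 4) :
    ∃ g, R.π g i = i ∧ (R.π g).sign = -1 := by
  classical
  have h1 : 0 < Fintype.card { φ : K →+* ℂ // ComplexEmbedding.IsReal φ } := by
    rw [InfinitePlace.card_real_embeddings, hK]
    norm_num
  obtain ⟨⟨ψ, hψ⟩⟩ := Fintype.card_pos_iff.1 h1
  obtain ⟨φ, hφ⟩ := exists_extC (R.j i) ψ
  obtain ⟨c, hc⟩ := exists_conj φ
  refine ⟨c, ?_, TT_sign _ (R.tt hK φ c hc)⟩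
  rw [R.stab]
  intro k
  apply φ.injective
  rw [hc]
  have h2 : φ (R.j i k) = ψ k := by rw [← hφ]; rfl
  rw [h2]
  have h3 := congrArg (fun f : K →+* ℂ => f k) (ComplexEmbedding.isReal_iff.1 hψ)
  exact h3

/-- the cubic resolvent -/
lemma rank_D (R : Roots K H 4) (hK : InfinitePlace.nrRealPlaces K = 2) (l : Fin 3) :
    Units.rank (IntermediateField.fixedField ((Cz l).comap R.π)) ≤ 1 := by
  classical
  set M := (Cz l).comap R.π with hM
  have hmem : ∀ g, g ∈ M ↔ R.π g * dz l = dz l * R.π g := fun g => mem_Cz l _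
  have hdeg : finrank ℚ (IntermediateField.fixedField M) ≤ 3 := by
    rw [finrank_fixed, ← index_Cz l]
    exact index_comap_le R.π (Cz l)
  by_cases hreal : ∀ ψ : IntermediateField.fixedField M →+* ℂ, ComplexEmbedding.IsReal ψ
  · obtain ⟨φ⟩ : Nonempty (H →+* ℂ) := inferInstance
    obtain ⟨c, hc⟩ := exists_conj φ
    have h1 := real_fixed M _ (hreal _) φ rfl c hc
    have h2 : ∀ g, g ∈ M := by
      intro g
      have h3 := real_fixed M _ (hreal _) (φ.comp (g : H →+* H)) rfl (g⁻¹ * c * g) (by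
        intro y
        change φ (g ((g⁻¹ * c * g) y)) = starRingEnd ℂ (φ (g y))
        rw [← hc]
        congr 1
        change (g * (g⁻¹ * c * g)) y = (c * g) y
        congr 1
        group)
      rw [hmem] at h1 h3 ⊢
      rw [map_mul, map_mul, map_inv] at h3
      exact TT_comm l _ _ (R.tt hK φ c hc) h1 h3
    have h4 : M = ⊤ := by
      ext g
      simp [h2]
    apply rank_le_of_finrank
    rw [finrank_fixed, h4, Subgroup.index_top]
    norm_num
  · push Not at hreal
    obtain ⟨ψ, hψ⟩ := hreal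
    have h1 : 0 < Fintype.card
        { φ : IntermediateField.fixedField M →+* ℂ // ¬ ComplexEmbedding.IsReal φ } :=
      Fintype.card_pos_iff.2 ⟨⟨ψ, hψ⟩⟩
    rw [InfinitePlace.card_complex_embeddings] at h1
    have h2 := InfinitePlace.card_eq_nrRealPlaces_add_nrComplexPlaces (IntermediateField.fixedField M)
    have h3 := InfinitePlace.card_add_two_mul_card_eq_rank (IntermediateField.fixedField M)
    rw [Units.rank]
    omega

include hL in
lemma NS_D (R : Roots K H 4) (hK : InfinitePlace.nrRealPlaces K = 2) {x : UM p H}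
    (hx : IsRel hL x) (l : Fin 3) : NS (fun g => R.π g * dz l = dz l * R.π g) x = 0 :=
  NS_fixed hL ((Cz l).comap R.π) (inj_of_rank hL (R.rank_D hK l)) hx
    (fun _ => (mem_Cz l _).symm)

/-- even permutations which fix `i` -/
def Cs (i : Fin 4) : Subgroup (Perm (Fin 4)) :=
  MulAction.stabilizer (Perm (Fin 4)) i ⊓ (Equiv.Perm.sign (α := Fin 4)).ker

omit [IsGalois ℚ H] in
lemma mem_Cs (i : Fin 4) (s : Perm (Fin 4)) : s ∈ Cs i ↔ s i = i ∧ s.sign = 1 := Iff.rfl

lemma card_Cs : ∀ i : Fin 4, (Finset.univ.filter fun s : Perm (Fin 4) => s i = i ∧ s.sign = 1).card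
    = 3 := by decide

lemma index_Cs (i : Fin 4) : (Cs i).index = 8 := by
  classical
  have h1 := (Cs i).index_mul_card
  have h2 : Nat.card (Cs i) = 3 := by
    rw [← card_Cs i, Nat.card_eq_fintype_card, Fintype.card_subtype]
    congr 1
    ext s
    simp [mem_Cs]
  rw [h2, Nat.card_perm, Nat.card_fin] at h1
  have h3 : Nat.factorial 4 = 24 := rfl
  omega

lemma rank_C (R : Roots K H 4) (hK : InfinitePlace.nrRealPlaces K = 2) (i : Fin 4) :
    Units.rank (IntermediateField.fixedField ((Cs i).comap R.π)) ≤ 3 := by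
  classical
  set M := (Cs i).comap R.π with hM
  have hdeg : finrank ℚ (IntermediateField.fixedField M) ≤ 8 := by
    rw [finrank_fixed, ← index_Cs i]
    exact index_comap_le R.π (Cs i)
  have h1 : Fintype.card
      { φ : IntermediateField.fixedField M →+* ℂ // ComplexEmbedding.IsReal φ } = 0 := by
    rw [Fintype.card_eq_zero_iff]
    refine ⟨fun ⟨ψ, hψ⟩ => ?_⟩
    obtain ⟨φ, hφ⟩ := exists_extC (algebraMap (IntermediateField.fixedField M) H) ψ
    obtain ⟨c, hc⟩ := exists_conj φ
    have h2 : R.π c i = i ∧ (R.π c).sign = 1 := real_fixed M ψ hψ φ hφ c hc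
    have h3 := TT_sign _ (R.tt hK φ c hc)
    rw [h2.2] at h3
    exact absurd h3 (by decide)
  rw [InfinitePlace.card_real_embeddings] at h1
  have h2 := InfinitePlace.card_eq_nrRealPlaces_add_nrComplexPlaces (IntermediateField.fixedField M)
  have h3 := InfinitePlace.card_add_two_mul_card_eq_rank (IntermediateField.fixedField M)
  rw [Units.rank]
  omega

end Roots

end Pool.Agent.U332.LC
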