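import Mathlib
import Pool.Agent.U332.LC.E

/-!
# Relative units of rank one
-/

set_option autoImplicit false

namespace Pool.Agent.U332.LC

open NumberField Module TensorProduct Pool.Agent.W289.SL Filter Topology
open Pool.Agent.Y419.LC.LcpP Pool.Agent.Y419.LC.SigP
open Equiv (Perm swap)

variable {p : ℕ} [hp : Fact p.Prime]
variable {L : ℂ_[p] → ℂ_[p]} (hL : IsIwasawaLog p L)

/-- the map on units of a homomorphism of fields -/
noncomputable def um {K E : Type} [Field K] [Field E] (f : K →+* E) :
    Additive (𝓞 K)ˣ →+ Additive (𝓞 E)ˣ :=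
  MonoidHom.toAdditive (Units.map (RingOfIntegers.mapRingHom f).toMonoidHom)

lemma um_apply {K E : Type} [Field K] [Field E] (f : K →+* E) (u : Additive (𝓞 K)ˣ) :
    (((Additive.toMul (um f u) : (𝓞 E)ˣ) : 𝓞 E) : E) = f ((Additive.toMul u : (𝓞 K)ˣ) : 𝓞 K) :=
  rfl

lemma um_injective {K E : Type} [Field K] [Field E] (f : K →+* E) : Function.Injective (um f) := by
  intro u v huv
  apply Additive.toMul.injective
  apply Units.ext
  apply RingOfIntegers.ext
  apply f.injective
  rw [← um_apply f u, ← um_apply f v, huv]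

variable {K E H : Type} [Field K] [NumberField K] [Field E] [NumberField E] [Field H]
  [NumberField H] [Algebra E H]

/-- relative units of rank one -/
lemma dep_of_rank (jE : K →+* E) (τ : H →+* H)
    (hτ : ∀ k : K, τ (algebraMap E H (jE k)) = algebraMap E H (jE k))
    (hr : Units.rank E ≤ Units.rank K + 1) (u v : Additive (𝓞 E)ˣ) :
    ∃ m n : ℤ, (m ≠ 0 ∨ n ≠ 0) ∧ m • (unitInc E H u - unitHom τ (unitInc E H u)) +
      n • (unitInc E H v - unitHom τ (unitInc E H v)) = 0 := by
  obtain ⟨e, he⟩ := exists_linearIndependent_of_le_finrank (R := ℤ) (M := Additive (𝓞 K)ˣ)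
    (n := Units.rank K) (by rw [Units.finrank_eq])
  set w : Fin 2 ⊕ Fin (Units.rank K) → Additive (𝓞 E)ˣ :=
    Sum.elim ![u, v] (fun l => um jE (e l)) with hw
  have h1 : ¬ LinearIndependent ℤ w := by
    intro h
    have h3 := h.fintype_card_le_finrank
    rw [Units.finrank_eq] at h3
    simp only [Fintype.card_sum, Fintype.card_fin] at h3
    omega
  rw [Fintype.not_linearIndependent_iff] at h1
  obtain ⟨g, hg, i0, hi0⟩ := h1
  rw [Fintype.sum_sum_type] at hg
  simp only [hw, Sum.elim_inl, Sum.elim_inr, Fin.sum_univ_two, Matrix.cons_val_zero,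
    Matrix.cons_val_one] at hg
  let D : Additive (𝓞 E)ˣ →+ Additive (𝓞 H)ˣ := unitInc E H - (unitHom τ).comp (unitInc E H)
  have hD : ∀ z, D z = unitInc E H z - unitHom τ (unitInc E H z) := fun z => rfl
  have hD0 : ∀ k, D (um jE k) = 0 := by
    intro k
    rw [hD, sub_eq_zero]
    apply Additive.toMul.injective
    apply Units.ext
    apply RingOfIntegers.ext
    rw [unitHom_apply, unitInc_apply, um_apply]
    exact (hτ _).symm
  have h2 := congrArg D hg
  rw [map_add, map_add, map_zero, map_zsmul, map_zsmul, map_sum] at h2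
  have h3 : ∑ x, D (g (Sum.inr x) • um jE (e x)) = 0 := by
    refine Finset.sum_eq_zero fun l _ => ?_
    rw [map_zsmul, hD0, smul_zero]
  rw [h3, add_zero, hD, hD] at h2
  refine ⟨g (Sum.inl 0), g (Sum.inl 1), ?_, h2⟩
  by_contra hcon
  push Not at hcon
  obtain ⟨ha, hb⟩ := hcon
  rw [ha, hb, zero_smul, zero_smul, zero_add, zero_add] at hg
  have h4 : um jE (∑ l, g (Sum.inr l) • e l) = 0 := by
    rw [map_sum, ← hg]
    exact Finset.sum_congr rfl fun l _ => map_zsmul _ _ _
  have h5 : ∑ l, g (Sum.inr l) • e l = 0 := um_injective jE (by rw [h4, map_zero])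
  have h6 := (Fintype.linearIndependent_iff.1 he) (fun l => g (Sum.inr l)) h5
  rcases i0 with i | i
  · fin_cases i
    · exact hi0 ha
    · exact hi0 hb
  · exact hi0 (h6 i)

namespace Roots

variable [IsGalois ℚ H]

omit hp [NumberField E] [Algebra E H] in
lemma NS_split {n : ℕ} (R : Roots K H n) [Fact p.Prime] (i : Fin n) (τ : H ≃ₐ[ℚ] H)
    (hτ : R.π τ i = i) (hτ2 : (R.π τ).sign = -1) (x : UM p H) :
    NS (fun g => R.π g i = i) x = NS (fun g => R.π g i = i ∧ (R.π g).sign = 1) x +
      LC.act τ (NS (fun g => R.π g i = i ∧ (R.π g).sign = 1) x) := by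
  classical
  have h1 : NS (fun g => R.π g i = i) x = NS (fun g => R.π g i = i ∧ (R.π g).sign = 1) x +
      NS (fun g => R.π g i = i ∧ (R.π g).sign ≠ 1) x := by
    rw [← W_ind, ← W_ind, ← W_ind, ← W_add]
    congr 1
    funext g
    by_cases h1 : R.π g i = i <;> by_cases h2 : (R.π g).sign = 1 <;> simp [h1, h2]
  rw [h1]
  congr 1
  unfold NS
  rw [map_sum]
  have hsg : ∀ g, (R.π (τ⁻¹ * g)).sign = - (R.π g).sign := by
    intro g
    rw [map_mul, map_inv, map_mul, Equiv.Perm.sign_inv, hτ2, neg_one_mul]
  have hne : ∀ a : ℤˣ, a ≠ 1 ↔ -a = 1 := by decide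
  have hfix : ∀ g, R.π g i = i → R.π (τ⁻¹ * g) i = i := by
    intro g hg
    rw [map_mul, map_inv, Perm.mul_apply, hg, Perm.inv_eq_iff_eq]
    exact hτ.symm
  refine Finset.sum_bij' (fun g _ => τ⁻¹ * g) (fun g _ => τ * g) ?_ ?_ ?_ ?_ ?_
  · intro g hg
    rw [Finset.mem_filter] at hg ⊢
    exact ⟨Finset.mem_univ _, hfix g hg.2.1, by rw [hsg]; exact (hne _).1 hg.2.2⟩
  · intro g hg
    rw [Finset.mem_filter] at hg ⊢
    refine ⟨Finset.mem_univ _, ?_, ?_⟩
    · rw [map_mul, Perm.mul_apply, hg.2.1, hτ]
    · rw [map_mul, map_mul, hτ2, hg.2.2]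
      decide
  · intro g _
    group
  · intro g _
    group
  · intro g _
    rw [← act_mul]
    congr 1
    group

include hL in
lemma NS_C (R : Roots K H 4) (hreal : InfinitePlace.nrRealPlaces K = 2) (hK : Inj hL K)
    {x : UM p H} (hx : IsRel hL x) (i : Fin 4) :
    NS (fun g => R.π g i = i ∧ (R.π g).sign = 1) x = 0 := by
  classical
  obtain ⟨τ, hτ, hτ2⟩ := R.odd_stab hreal i
  set M := (Cs i).comap R.π with hM
  have hmem : ∀ g, g ∈ M ↔ R.π g i = i ∧ (R.π g).sign = 1 := fun g => mem_Cs i _
  have hfilt : ∀ g : H ≃ₐ[ℚ] H, (∀ k : IntermediateField.fixedField M,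
      g (algebraMap (IntermediateField.fixedField M) H k) =
        algebraMap (IntermediateField.fixedField M) H k) ↔ R.π g i = i ∧ (R.π g).sign = 1 := by
    intro g
    rw [← hmem g]
    conv_rhs => rw [← IntermediateField.fixingSubgroup_fixedField M]
    rw [IntermediateField.mem_fixingSubgroup_iff]
    constructor
    · intro h y hy
      exact h ⟨y, hy⟩
    · intro h k
      exact h _ k.2
  -- the field `K` in the fixed field
  have hj : ∀ k, R.j i k ∈ IntermediateField.fixedField M := by
    intro k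
    rw [IntermediateField.mem_fixedField_iff]
    intro g hg
    exact (R.stab i g).1 ((hmem g).1 hg).1 k
  let jE : K →+* IntermediateField.fixedField M := (R.j i).codRestrict _ hj
  have hdegK : Units.rank K = 2 := by
    have h2 := InfinitePlace.card_eq_nrRealPlaces_add_nrComplexPlaces K
    have h3 := InfinitePlace.card_add_two_mul_card_eq_rank K
    rw [R.deg] at h3
    rw [Units.rank]
    omega
  have hr : Units.rank (IntermediateField.fixedField M) ≤ Units.rank K + 1 := by
    rw [hdegK]
    exact R.rank_C hreal i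
  have hτj : ∀ k : K, (τ : H →+* H) (algebraMap (IntermediateField.fixedField M) H (jE k)) =
      algebraMap (IntermediateField.fixedField M) H (jE k) := (R.stab i τ).1 hτ
  let N : Additive (𝓞 H)ˣ →+ Additive (𝓞 (IntermediateField.fixedField M))ˣ :=
    normU (IntermediateField.fixedField M) H
  let f : Additive (𝓞 H)ˣ →+ Additive (𝓞 H)ˣ :=
    (unitInc (IntermediateField.fixedField M) H).comp N -
      (unitHom (τ : H →+* H)).comp ((unitInc (IntermediateField.fixedField M) H).comp N)
  have hext : ∀ y : UM p H, ext p f y = NS (fun g => R.π g i = i ∧ (R.π g).sign = 1) y -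
      LC.act τ (NS (fun g => R.π g i = i ∧ (R.π g).sign = 1) y) := by
    intro y
    induction y using TensorProduct.induction_on with
    | zero => simp [NS]
    | add y z hy hz =>
      have e1 : NS (fun g => R.π g i = i ∧ (R.π g).sign = 1) (y + z) =
          NS (fun g => R.π g i = i ∧ (R.π g).sign = 1) y +
            NS (fun g => R.π g i = i ∧ (R.π g).sign = 1) z := by
        unfold NS
        rw [← Finset.sum_add_distrib]
        exact Finset.sum_congr rfl fun g _ => map_add _ _ _
      rw [map_add, hy, hz, e1, map_add]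
      abel
    | tmul c u =>
      have e1 : NS (fun g => R.π g i = i ∧ (R.π g).sign = 1) (c ⊗ₜ[ℤ] u : UM p H) =
          c ⊗ₜ[ℤ] unitInc (IntermediateField.fixedField M) H (N u) := by
        unfold NS
        rw [← sum_unitHom (K := IntermediateField.fixedField M) u, TensorProduct.tmul_sum]
        refine Finset.sum_congr ?_ fun g _ => rfl
        ext g
        rw [Finset.mem_filter, Finset.mem_filter, hfilt]
      rw [e1, ext_tmul]
      change c ⊗ₜ[ℤ] (unitInc (IntermediateField.fixedField M) H (N u) -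
        unitHom (τ : H →+* H) (unitInc (IntermediateField.fixedField M) H (N u))) = _
      rw [TensorProduct.tmul_sub]
      rfl
  set y := NS (fun g => R.π g i = i ∧ (R.π g).sign = 1) x with hy
  have hyr : IsRel hL y := IsRel.NS hL hx
  have h1 : ext p f x = 0 := by
    apply rank_one hL
    · intro u v
      exact dep_of_rank jE (τ : H →+* H) hτj hr (N u) (N v)
    · intro σ
      rw [hext, map_sub, ← hy, hyr, hyr.act hL _ σ, sub_zero]
  rw [hext, ← hy, sub_eq_zero] at h1
  have h2 := R.NS_split (p := p) i τ hτ hτ2 x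
  rw [R.NS_stab hL hK hx i, ← hy, ← h1, ← two_zsmul] at h2
  exact eq_zero_of_zsmul 2 (by norm_num) h2.symm

include hL in
/-- quartic fields with two real places -/
theorem inj_four (R : Roots K H 4) (hreal : InfinitePlace.nrRealPlaces K = 2) (hK : Inj hL K) :
    Inj hL H := by
  intro x hx
  exact case4 hL R.π R.faith hx (R.NS_D hL hreal hx) (R.NS_C hL hreal hK hx)

include hL in
/-- quartic fields, the Galois group preserves a partition of the roots -/
theorem inj_eight (R : Roots K H 4) (z : Perm (Fin 4)) (hz : z * z = 1) (hz2 : ∀ i, z i ≠ i)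
    (hzg : ∀ g, R.π g * z = z * R.π g) (hK : Inj hL K) : Inj hL H := by
  intro x hx
  exact case8 hL R.π R.faith hx z hz hz2 hzg (R.NS_stab hL hK hx)

include hL in
/-- cubic fields -/
theorem inj_three (R : Roots K H 3) (hK : Inj hL K) : Inj hL H := by
  intro x hx
  exact case3 hL R.π R.faith hx (R.NS_stab hL hK hx)

include hL in
/-- quadratic fields -/
theorem inj_two {n : ℕ} (hn : n ≤ 2) (R : Roots K H n) : Inj hL H := by
  classical
  apply inj_of_rank
  apply rank_le_of_finrank
  rw [← IsGalois.card_aut_eq_finrank]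
  have h1 := Nat.card_le_card_of_injective R.π R.faith
  rw [Nat.card_perm, Nat.card_fin] at h1
  interval_cases n <;> simp at h1 ⊢ <;> omega

end Roots

end Pool.Agent.U332.LC
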