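import Mathlib
import Pool.Agent.U332.LC.F

/-!
# Leopoldt's conjecture for the Galois closure
-/

set_option autoImplicit false

namespace Pool.Agent.U332.LC

open NumberField Module TensorProduct Pool.Agent.W289.SL Filter Topology Polynomial
open Pool.Agent.Y419.LC.LcpP Pool.Agent.Y419.LC.SigP
open Equiv (Perm swap)
open Pool.Agent.H637R2.Leo (Leopoldt)

/-- homomorphisms are determined by the image of a generator -/
lemma hom_ext {K : Type} [Field K] [NumberField K] (θ : K)
    (hgen : IntermediateField.adjoin ℚ {θ} = ⊤) (F : Type) [Field F] (φ ψ : K →+* F)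
    (h : φ θ = ψ θ) : φ = ψ := by
  ext x
  have hx : x ∈ IntermediateField.adjoin ℚ {θ} := by rw [hgen]; trivial
  induction hx using IntermediateField.adjoin_induction with
  | mem y hy =>
    rw [Set.mem_singleton_iff] at hy
    rw [hy, h]
  | algebraMap q =>
    have h1 : φ.comp (algebraMap ℚ K) = ψ.comp (algebraMap ℚ K) := Subsingleton.elim _ _
    exact congrArg (fun f : ℚ →+* F => f q) h1
  | add y z _ _ hy hz => rw [map_add, map_add, hy, hz]
  | inv y _ hy => rw [map_inv₀, map_inv₀, hy]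
  | mul y z _ _ hy hz => rw [map_mul, map_mul, hy, hz]

/-- homomorphisms with a given image of a generator -/
lemma exists_hom {K : Type} [Field K] [NumberField K] (θ : K)
    (hgen : IntermediateField.adjoin ℚ {θ} = ⊤) (f : ℚ[X]) (hf : Irreducible f)
    (hθ : aeval θ f = 0) (F : Type) [Field F] [Algebra ℚ F] (y : F) (hy : aeval y f = 0) :
    ∃ φ : K →ₐ[ℚ] F, φ θ = y := by
  have hint : IsIntegral ℚ θ := IsAlgebraic.isIntegral ⟨f, hf.ne_zero, hθ⟩
  let pb := (IntermediateField.adjoin.powerBasis hint).map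
    ((IntermediateField.equivOfEq hgen).trans IntermediateField.topEquiv)
  have hpb : pb.gen = θ := rfl
  have hmin : aeval y (minpoly ℚ pb.gen) = 0 := by
    rw [hpb, ← minpoly.eq_of_irreducible hf hθ, map_mul, hy, zero_mul]
  exact ⟨pb.lift y hmin, by
    have := pb.lift_gen y hmin
    rwa [hpb] at this⟩

lemma finrank_eq {K : Type} [Field K] [NumberField K] (θ : K)
    (hgen : IntermediateField.adjoin ℚ {θ} = ⊤) (f : ℚ[X]) (hf : Irreducible f)
    (hθ : aeval θ f = 0) : finrank ℚ K = f.natDegree := by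
  have hint : IsIntegral ℚ θ := IsAlgebraic.isIntegral ⟨f, hf.ne_zero, hθ⟩
  rw [← IntermediateField.finrank_top', ← hgen, IntermediateField.adjoin.finrank hint,
    ← minpoly.eq_of_irreducible hf hθ]
  refine natDegree_mul_C ?_
  rw [Ne, inv_eq_zero, leadingCoeff_eq_zero]
  exact hf.ne_zero

/-- the roots in a splitting field -/
theorem exists_roots (f : ℚ[X]) (hf : Irreducible f) {K : Type} [Field K] [NumberField K] (θ : K)
    (hθ : aeval θ f = 0) (hgen : IntermediateField.adjoin ℚ {θ} = ⊤) (H : Type) [Field H]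
    [NumberField H] [IsSplittingField ℚ H f] :
    IsGalois ℚ H ∧ ∃ R : Roots K H f.natDegree, R.θ = θ ∧
      ∀ y : H, aeval y f = 0 → ∃ i, R.r i = y := by
  classical
  refine ⟨IsGalois.of_separable_splitting_field hf.separable, ?_⟩
  have hsplit := IsSplittingField.splits H f
  have hcard : Fintype.card (f.rootSet H) = f.natDegree :=
    card_rootSet_eq_natDegree hf.separable hsplit
  let e : Fin f.natDegree ≃ f.rootSet H := (Fintype.equivFinOfCardEq hcard).symm
  have hroot : ∀ i, aeval (e i : H) f = 0 := fun i => (mem_rootSet.1 (e i).2).2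
  have hg : ∀ (g : H ≃ₐ[ℚ] H) (x : H), x ∈ f.rootSet H → g x ∈ f.rootSet H := by
    intro g x hx
    rw [mem_rootSet] at hx ⊢
    refine ⟨hx.1, ?_⟩
    have h1 := aeval_algHom_apply (g : H →ₐ[ℚ] H) x f
    change aeval (g x) f = g (aeval x f) at h1
    rw [h1, hx.2, map_zero]
  let s : (H ≃ₐ[ℚ] H) → Fin f.natDegree → Fin f.natDegree :=
    fun g i => e.symm ⟨g (e i), hg g _ (e i).2⟩
  have hs : ∀ g i, (e (s g i) : H) = g (e i) := by
    intro g i
    simp only [s, Equiv.apply_symm_apply]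
  have hinj : Function.Injective fun i => (e i : H) := Subtype.val_injective.comp e.injective
  have hsb : ∀ g, Function.Bijective (s g) := by
    intro g
    rw [← Finite.injective_iff_bijective]
    intro a b hab
    apply hinj
    apply g.injective
    change g (e a) = g (e b)
    rw [← hs, ← hs, hab]
  let π : (H ≃ₐ[ℚ] H) →* Perm (Fin f.natDegree) :=
    MonoidHom.mk' (fun g => Equiv.ofBijective (s g) (hsb g)) (by
      intro g h
      ext i
      change ((s (g * h) i : Fin f.natDegree) : ℕ) = s g (s h i)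
      congr 1
      apply hinj
      change (e (s (g * h) i) : H) = e (s g (s h i))
      rw [hs, hs, hs]
      rfl)
  have hπ : ∀ g i, (e (π g i) : H) = g (e i) := hs
  have hfaith : Function.Injective π := by
    rw [injective_iff_map_eq_one]
    intro g h1
    have h2 : (g : H →ₐ[ℚ] H) = AlgHom.id ℚ H := by
      refine AlgHom.ext_of_adjoin_eq_top (IsSplittingField.adjoin_rootSet H f) ?_
      intro x hx
      have h3 := hπ g (e.symm ⟨x, hx⟩)
      rw [h1, Perm.one_apply, Equiv.apply_symm_apply] at h3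
      exact h3.symm
    ext x
    exact congrArg (fun φ : H →ₐ[ℚ] H => φ x) h2
  have hj : ∀ i, ∃ φ : K →+* H, φ θ = e i := by
    intro i
    obtain ⟨φ, hφ⟩ := exists_hom θ hgen f hf hθ H (e i) (hroot i)
    exact ⟨φ.toRingHom, hφ⟩
  choose j hj using hj
  refine ⟨⟨fun i => e i, hinj, π, fun g i => (hπ g i).symm, hfaith, θ, hom_ext θ hgen, j, hj,
    finrank_eq θ hgen f hf hθ⟩, rfl, ?_⟩
  intro y hy
  refine ⟨e.symm ⟨y, mem_rootSet.2 ⟨hf.ne_zero, hy⟩⟩, ?_⟩
  simp only [Equiv.apply_symm_apply]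

/-- an automorphism of order two gives a partition of the roots in pairs -/
lemma exists_z {K H : Type} [Field K] [NumberField K] [Field H] [NumberField H] {n : ℕ}
    (R : Roots K H n) (f : ℚ[X]) (hf : aeval R.θ f = 0)
    (hsurj : ∀ y : H, aeval y f = 0 → ∃ i, R.r i = y) (ι : K ≃ₐ[ℚ] K) (hι : ι ≠ 1)
    (hι2 : ι * ι = 1) :
    ∃ z : Perm (Fin n), z * z = 1 ∧ (∀ i, z i ≠ i) ∧ ∀ g, R.π g * z = z * R.π g := by
  have h1 : ∀ i, ∃ k, R.r k = R.j i (ι R.θ) := by
    intro i
    apply hsurj
    have e1 : aeval (ι R.θ) f = 0 := by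
      have h1 := aeval_algHom_apply (ι : K →ₐ[ℚ] K) R.θ f
      change aeval (ι R.θ) f = ι (aeval R.θ f) at h1
      rw [h1, hf, map_zero]
    have h2 := aeval_algHom_apply ((R.j i).toRatAlgHom) (ι R.θ) f
    change aeval (R.j i (ι R.θ)) f = R.j i (aeval (ι R.θ) f) at h2
    rw [h2, e1, map_zero]
  choose z hz using h1
  -- the embeddings
  have hj : ∀ i, (R.j i).comp (ι : K →+* K) = R.j (z i) := by
    intro i
    apply R.gen
    change R.j i (ι R.θ) = R.j (z i) R.θ
    rw [R.jθ, hz]
  have hjj : ∀ i k, R.j i (ι k) = R.j (z i) k := fun i k =>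
    congrArg (fun φ : K →+* H => φ k) (hj i)
  have hιι : ∀ k, ι (ι k) = k := fun k => congrArg (fun φ : K ≃ₐ[ℚ] K => φ k) hι2
  have hzz : ∀ i, z (z i) = i := by
    intro i
    apply R.inj
    rw [hz, ← hjj, hιι, R.jθ]
  have hne : ∀ i, z i ≠ i := by
    intro i h
    apply hι
    ext k
    apply (R.j i).injective
    rw [hjj, h]
    rfl
  let Z : Perm (Fin n) := ⟨z, z, hzz, hzz⟩
  refine ⟨Z, Equiv.ext hzz, hne, ?_⟩
  intro g
  ext i
  change ((R.π g (z i) : Fin n) : ℕ) = z (R.π g i)
  congr 1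
  apply R.inj
  rw [← R.act, hz, hz]
  have h2 : (g : H →+* H).comp (R.j i) = R.j (R.π g i) := by
    apply R.gen
    change g (R.j i R.θ) = R.j _ R.θ
    rw [R.jθ, R.jθ, R.act]
  exact congrArg (fun φ : K →+* H => φ (ι R.θ)) h2

/-- `ℂ_p ⊗ 𝓞_K^×` injects into `ℂ_p ⊗ 𝓞_H^×` -/
lemma inc_injective {p : ℕ} [Fact p.Prime] {K H : Type} [Field K] [NumberField K] [Field H]
    [NumberField H] [Algebra K H] : Function.Injective (incLin p K H) := by
  have h1 : Function.Injective (unitInc K H).toIntLinearMap := unitInc_injective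
  exact Module.Flat.lTensor_preserves_injective_linearMap (M := ℂ_[p]) _ h1

/-- Leopoldt's conjecture for subfields -/
lemma inj_sub {p : ℕ} [Fact p.Prime] {L : ℂ_[p] → ℂ_[p]} (hL : IsIwasawaLog p L) {K H : Type}
    [Field K] [NumberField K] [Field H] [NumberField H] (j : K →+* H) (h : Inj hL H) :
    Inj hL K := by
  let _ := j.toAlgebra
  intro x hx
  apply inc_injective (H := H)
  rw [map_zero]
  apply h
  intro σ
  rw [logLin_inc]
  exact hx _

/-- **Leopoldt's conjecture for the Galois closure.** -/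
theorem reduction (f : ℚ[X]) (hf : Irreducible f) {K : Type} [Field K] [NumberField K] (θ : K)
    (hθ : aeval θ f = 0) (hgen : IntermediateField.adjoin ℚ {θ} = ⊤) (H : Type) [Field H]
    [NumberField H] [IsSplittingField ℚ H f]
    (hcase : f.natDegree ≤ 3 ∨ f.natDegree = 4 ∧
      (InfinitePlace.nrRealPlaces K = 2 ∨ ∃ ι : K ≃ₐ[ℚ] K, ι ≠ 1 ∧ ι * ι = 1))
    (p : ℕ) [Fact p.Prime] : Leopoldt H p ↔ Leopoldt K p := by
  obtain ⟨L, hL⟩ := exists_iwasawaLog p
  obtain ⟨hgal, R, hR, hsurj⟩ := exists_roots f hf θ hθ hgen H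
  have h0 : 0 < f.natDegree := hf.natDegree_pos
  constructor
  · intro hH
    exact leopoldt_of_inj hL (inj_sub hL (R.j ⟨0, h0⟩) (inj_of_leopoldt hL hH))
  intro hK'
  have hK := inj_of_leopoldt hL hK'
  apply leopoldt_of_inj hL
  rcases hcase with h3 | ⟨h4, h | ⟨ι, hι, hι2⟩⟩
  · rcases Nat.lt_or_ge f.natDegree 3 with h | h
    · exact Roots.inj_two hL (by omega) R
    · have h5 : f.natDegree = 3 := le_antisymm h3 h
      rw [h5] at R
      exact Roots.inj_three hL R hK
  · rw [h4] at R
    exact Roots.inj_four hL R h hK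
  · have hθ' : aeval R.θ f = 0 := by rw [hR]; exact hθ
    obtain ⟨z, hz, hz2, hzg⟩ := exists_z R f hθ' hsurj ι hι hι2
    clear hsurj hR hθ'
    generalize hn : f.natDegree = n at R z hz hz2 hzg
    obtain rfl : n = 4 := by rw [← hn, h4]
    exact Roots.inj_eight hL R z hz hz2 hzg hK

end Pool.Agent.U332.LC
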