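import Mathlib
import Pool.Agent.U332.LC.G
import Pool.Agent.R89.UP.Main

/-!
# The families
-/

set_option autoImplicit false

namespace Pool.Agent.U332.LC

open NumberField Module Polynomial
open Pool.Agent.H33R4 (spec fam fac)
open Pool.Agent.H637R2.Leo (Leopoldt)

/-- small degree, or two real places and one complex place, or a symmetric quartic family -/
def Small (r₁ r₂ : ℕ) (a : Fin r₁ → ℤ) : Prop :=
  r₁ + 2 * r₂ ≤ 3 ∨ (r₁ = 2 ∧ r₂ = 1) ∨ (r₁ = 4 ∧ r₂ = 0 ∧ ∀ i, ∃ j, a j = -a i)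

/-- `f_t` over `ℚ` -/
noncomputable def ratPoly (g : ℤ[X]) : ℚ[X] := g.map (Int.castRingHom ℚ)

lemma ratPoly_irr {g : ℤ[X]} (hm : g.Monic) (hg : Irreducible g) : Irreducible (ratPoly g) := by
  have h1 := (Polynomial.Monic.irreducible_iff_irreducible_map_fraction_map (K := ℚ) hm).1 hg
  exact h1

lemma ratPoly_aeval (g : ℤ[X]) {K : Type} [Field K] [CharZero K] (θ : K) :
    aeval θ (ratPoly g) = aeval θ g := by
  unfold ratPoly
  have h1 : Int.castRingHom ℚ = algebraMap ℤ ℚ := rfl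
  rw [h1, aeval_map_algebraMap]

lemma spec_zero {r₁ : ℕ} (a : Fin r₁ → ℤ) (b c : Fin 0 → ℤ) (t : ℤ) :
    spec t (fam a b c) = ∏ i, (X - C (a i * t)) - 1 := by
  unfold fam spec
  rw [Polynomial.map_sub, Polynomial.map_one, Polynomial.map_prod, Fintype.prod_sum_type]
  simp [fac]

/-- the automorphism of a symmetric quartic field -/
lemma exists_iota (a : Fin 4 → ℤ) (b c : Fin 0 → ℤ) (ha : Function.Injective a)
    (hs : ∀ i, ∃ j, a j = -a i) (t : ℤ) (hirr : Irreducible (ratPoly (spec t (fam a b c))))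
    {K : Type} [Field K] [NumberField K] (θ : K) (hdeg : finrank ℚ K = 4)
    (hθ : aeval θ (spec t (fam a b c)) = 0) (hgen : IntermediateField.adjoin ℚ {θ} = ⊤) :
    ∃ ι : K ≃ₐ[ℚ] K, ι ≠ 1 ∧ ι * ι = 1 ∧ ι θ = -θ := by
  choose s hs using hs
  have hss : Function.Injective s := by
    intro i j hij
    apply ha
    have h1 := hs i
    rw [hij, hs j] at h1
    linarith
  have hsb : Function.Bijective s := Finite.injective_iff_bijective.1 hss
  have hval : ∀ x : K, aeval x (spec t (fam a b c)) = ∏ i, (x - ((a i * t : ℤ) : K)) - 1 := by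
    intro x
    rw [spec_zero, map_sub, map_one, map_prod]
    congr 1
    refine Finset.prod_congr rfl fun i _ => ?_
    simp
  have heven : ∀ x : K, ∏ i, (-x - ((a i * t : ℤ) : K)) = ∏ i, (x - ((a i * t : ℤ) : K)) := by
    intro x
    have h1 : ∀ i, (-x - ((a i * t : ℤ) : K)) = -(x - ((a (s i) * t : ℤ) : K)) := by
      intro i
      rw [hs]
      push_cast
      ring
    rw [Finset.prod_congr rfl fun i _ => h1 i, Finset.prod_neg, Finset.card_univ,
      Fintype.card_fin, Function.Bijective.prod_comp hsb (fun i => (x - ((a i * t : ℤ) : K)))]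
    norm_num
  have hθ2 : aeval (-θ) (ratPoly (spec t (fam a b c))) = 0 := by
    rw [ratPoly_aeval, hval, heven, ← hval, hθ]
  have hθ1 : aeval θ (ratPoly (spec t (fam a b c))) = 0 := by rw [ratPoly_aeval, hθ]
  obtain ⟨φ, hφ⟩ := exists_hom θ hgen _ hirr hθ1 K (-θ) hθ2
  have hφφ : ∀ x, φ (φ x) = x := by
    have h1 : (φ : K →+* K).comp (φ : K →+* K) = RingHom.id K := by
      apply hom_ext θ hgen
      change φ (φ θ) = θ
      rw [hφ, map_neg, hφ, neg_neg]
    exact fun x => congrArg (fun f : K →+* K => f x) h1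
  let ι : K ≃ₐ[ℚ] K := AlgEquiv.ofAlgHom φ φ (AlgHom.ext hφφ) (AlgHom.ext hφφ)
  refine ⟨ι, ?_, AlgEquiv.ext hφφ, hφ⟩
  intro h1
  have h2 : ι θ = θ := by rw [h1]; rfl
  have h3 : ι θ = -θ := hφ
  have h4 : θ = 0 := by
    rw [h2] at h3
    exact self_eq_neg.1 h3
  have h5 : finrank ℚ K = 1 := by
    rw [← IntermediateField.finrank_top', ← hgen, h4]
    simp
  omega

/-- a field generated by a root -/
theorem exists_field (f : ℚ[X]) (hf : Irreducible f) : ∃ (K : Type) (_ : Field K)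
    (_ : NumberField K) (θ : K), aeval θ f = 0 ∧ IntermediateField.adjoin ℚ {θ} = ⊤ := by
  have hFact : Fact (Irreducible f) := ⟨hf⟩
  have key : ∀ (K : Type) [Field K] [NumberField K] (o : ℚ →+* K) (θ : K), eval₂ o θ f = 0 →
      (∀ x, ∃ g : ℚ[X], eval₂ o θ g = x) →
      aeval θ f = 0 ∧ IntermediateField.adjoin ℚ {θ} = ⊤ := by
    intro K _ _ o θ h1 h2
    obtain rfl : o = algebraMap ℚ K := Subsingleton.elim _ _
    refine ⟨h1, ?_⟩
    rw [eq_top_iff]
    intro x _
    obtain ⟨g, rfl⟩ := h2 x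
    have h3 : θ ∈ IntermediateField.adjoin ℚ {θ} := IntermediateField.mem_adjoin_simple_self ℚ θ
    rw [eval₂_eq_sum_range]
    refine sum_mem fun i _ => mul_mem ?_ (pow_mem h3 i)
    exact IntermediateField.algebraMap_mem _ _
  refine ⟨AdjoinRoot f, inferInstance, inferInstance, AdjoinRoot.root f, ?_⟩
  refine key (AdjoinRoot f) (AdjoinRoot.of f) _ (AdjoinRoot.eval₂_root f) ?_
  intro x
  induction x using AdjoinRoot.induction_on with
  | ih g =>
    refine ⟨g, ?_⟩
    have := AdjoinRoot.aeval_eq (f := f) g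
    exact this

/-- reduction for the families -/
theorem family_reduction (r₁ r₂ : ℕ) (h : 1 ≤ r₁ + r₂) (a : Fin r₁ → ℤ) (b c : Fin r₂ → ℤ)
    (ha : Function.Injective a) (hs : Small r₁ r₂ a) (t : ℤ)
    (hirr : Irreducible (spec t (fam a b c))) (p : ℕ) [Fact p.Prime]
    (hmain : ∀ (K : Type) [Field K] [NumberField K] (θ : K), aeval θ (spec t (fam a b c)) = 0 →
        IntermediateField.adjoin ℚ {θ} = ⊤ →
        InfinitePlace.nrRealPlaces K = r₁ ∧ InfinitePlace.nrComplexPlaces K = r₂ ∧ Leopoldt K p)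
    (H : Type) [Field H] [NumberField H] [IsSplittingField ℚ H (ratPoly (spec t (fam a b c)))] :
    Leopoldt H p := by
  set g := spec t (fam a b c) with hg
  have hm : g.Monic := (Pool.Agent.H33R4.fam_monic a b c h).map _
  have hi : Irreducible (ratPoly g) := ratPoly_irr hm hirr
  obtain ⟨K, _, _, θ, hθ1, hgen⟩ := exists_field (ratPoly g) hi
  have hθ : aeval θ g = 0 := by rw [← ratPoly_aeval, hθ1]
  obtain ⟨h1, h2, h3⟩ := hmain _ θ hθ hgen
  have h4 := InfinitePlace.card_add_two_mul_card_eq_rank K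
  have h5 := finrank_eq θ hgen _ hi hθ1
  rw [h1, h2] at h4
  rw [reduction (ratPoly g) hi θ hθ1 hgen H ?_ p]
  · exact h3
  · rcases hs with hs | ⟨rfl, rfl⟩ | ⟨rfl, rfl, hs⟩
    · left
      omega
    · right
      exact ⟨by omega, Or.inl h1⟩
    · right
      refine ⟨by omega, Or.inr ?_⟩
      obtain ⟨ι, hι, hι2, -⟩ := exists_iota a b c ha hs t hi θ (by omega) hθ hgen
      exact ⟨ι, hι, hι2⟩

end Pool.Agent.U332.LC
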