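import Mathlib
import Pool.Agent.U332.LC.H

/-!
# The Galois closure is larger than the field
-/

set_option autoImplicit false

namespace Pool.Agent.U332.LC

open NumberField Module Polynomial
open Equiv (Perm swap)
open Pool.Agent.H33R4 (spec fam fac)

/-- two squares with a small difference -/
lemma runge {X Y M : ℤ} (hM : 0 < M) (h : X ^ 2 - Y ^ 2 = M) : |X| ≤ M := by
  have h1 : |X| ^ 2 - |Y| ^ 2 = M := by rw [sq_abs, sq_abs, h]
  have h2 : 0 ≤ |X| := abs_nonneg X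
  have h3 : 0 ≤ |Y| := abs_nonneg Y
  have h4 : |Y| < |X| := by nlinarith
  nlinarith

/-- a polynomial inequality with finitely many solutions -/
lemma finite_bound (k : ℕ) (hk : 1 ≤ k) (V κ M : ℤ) (hV : V ≠ 0) (t : ℤ)
    (h : |2 * V ^ 2 * t ^ k + κ| ≤ M) : |t| ≤ M + |κ| := by
  have h1 : |2 * V ^ 2 * t ^ k| ≤ M + |κ| := by
    have h2 : 2 * V ^ 2 * t ^ k = (2 * V ^ 2 * t ^ k + κ) + (-κ) := by ring
    calc |2 * V ^ 2 * t ^ k| = |(2 * V ^ 2 * t ^ k + κ) + (-κ)| := by rw [← h2]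
      _ ≤ |2 * V ^ 2 * t ^ k + κ| + |-κ| := abs_add_le _ _
      _ ≤ M + |κ| := by rw [abs_neg]; linarith
  rcases eq_or_ne t 0 with rfl | ht
  · rw [abs_zero]
    exact le_trans (abs_nonneg _) h1
  have h3 : |t| ≤ |2 * V ^ 2 * t ^ k| := by
    rw [abs_mul, abs_pow]
    have h4 : 1 ≤ |2 * V ^ 2| := by
      apply Int.one_le_abs
      have := pow_ne_zero 2 hV
      omega
    have h5 : |t| ≤ |t| ^ k := le_self_pow₀ (Int.one_le_abs ht) (by omega)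
    nlinarith [abs_nonneg t, pow_nonneg (abs_nonneg t) k]
  exact h3.trans h1

/-- rational square roots of integers are integers -/
lemma int_of_sq {H : Type} [Field H] [NumberField H] [IsGalois ℚ H] (δ : H) (D : ℤ)
    (hD : δ ^ 2 = (D : H)) (hfix : ∀ g : H ≃ₐ[ℚ] H, g δ = δ) : ∃ y : ℤ, y ^ 2 = D := by
  have h1 := (IsGalois.mem_bot_iff_fixed δ).2 hfix
  obtain ⟨q, hq⟩ := IntermediateField.mem_bot.1 h1
  have h2 : q ^ 2 = (D : ℚ) := by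
    apply (algebraMap ℚ H).injective
    rw [map_pow, hq, hD, map_intCast]
  have h3 : IsIntegral ℤ q := by
    apply IsIntegral.of_pow (n := 2) (by norm_num)
    rw [h2]
    exact isIntegral_algebraMap (R := ℤ) (A := ℚ) (x := D)
  obtain ⟨y, hy⟩ := IsIntegrallyClosed.isIntegral_iff.1 h3
  refine ⟨y, ?_⟩
  rw [← hy] at h2
  have h4 : ((y ^ 2 : ℤ) : ℚ) = (D : ℚ) := by
    push_cast
    exact h2
  exact_mod_cast h4

/-- the discriminant of a cubic family -/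
lemma cubic_id (a0 a1 a2 t : ℤ) {H : Type} [Field H] (r0 r1 r2 : H) (h01 : r0 ≠ r1)
    (h12 : r1 ≠ r2) (h02 : r0 ≠ r2)
    (e0 : (r0 - a0 * t) * (r0 - a1 * t) * (r0 - a2 * t) - 1 = 0)
    (e1 : (r1 - a0 * t) * (r1 - a1 * t) * (r1 - a2 * t) - 1 = 0)
    (e2 : (r2 - a0 * t) * (r2 - a1 * t) * (r2 - a2 * t) - 1 = 0) :
    ((r0 - r1) * (r1 - r2) * (r2 - r0)) ^ 2 =
      ((((a0 - a1) * (a1 - a2) * (a2 - a0)) ^ 2 * t ^ 6 +
        (-4 * (a0 + a1 + a2) ^ 3 + 18 * (a0 + a1 + a2) * (a0 * a1 + a1 * a2 + a2 * a0) -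
          54 * (a0 * a1 * a2)) * t ^ 3 - 27 : ℤ) : H) := by
  have q01 : r0 ^ 2 + r0 * r1 + r1 ^ 2 - (a0 + a1 + a2) * t * (r0 + r1) +
      (a0 * a1 + a1 * a2 + a2 * a0) * t ^ 2 = 0 := by
    apply mul_left_cancel₀ (sub_ne_zero.2 h01)
    linear_combination e0 - e1
  have q02 : r0 ^ 2 + r0 * r2 + r2 ^ 2 - (a0 + a1 + a2) * t * (r0 + r2) +
      (a0 * a1 + a1 * a2 + a2 * a0) * t ^ 2 = 0 := by
    apply mul_left_cancel₀ (sub_ne_zero.2 h02)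
    linear_combination e0 - e2
  have s1 : ((a0 : H) + a1 + a2) * t = r0 + r1 + r2 := by
    apply mul_left_cancel₀ (sub_ne_zero.2 h12)
    linear_combination q02 - q01
  have s2 : ((a0 : H) * a1 + a1 * a2 + a2 * a0) * t ^ 2 = r0 * r1 + r1 * r2 + r2 * r0 := by
    linear_combination q01 + (r0 + r1) * s1
  have s3 : ((a0 : H) * a1 * a2) * t ^ 3 + 1 = r0 * r1 * r2 := by
    linear_combination -e0 + r0 * s2 - r0 ^ 2 * s1
  calc ((r0 - r1) * (r1 - r2) * (r2 - r0)) ^ 2 =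
        (r0 + r1 + r2) ^ 2 * (r0 * r1 + r1 * r2 + r2 * r0) ^ 2 -
        4 * (r0 * r1 + r1 * r2 + r2 * r0) ^ 3 - 4 * (r0 + r1 + r2) ^ 3 * (r0 * r1 * r2) +
        18 * (r0 + r1 + r2) * (r0 * r1 + r1 * r2 + r2 * r0) * (r0 * r1 * r2) -
        27 * (r0 * r1 * r2) ^ 2 := by ring
    _ = _ := by
      rw [← s1, ← s2, ← s3]
      push_cast
      ring

/-- cubic families: the discriminant is a square for finitely many `t` only -/
lemma cubic_finite (a0 a1 a2 : ℤ) (h01 : a0 ≠ a1) (h12 : a1 ≠ a2) (h02 : a0 ≠ a2) :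
    ∃ N : ℤ, ∀ t y : ℤ, y ^ 2 = ((a0 - a1) * (a1 - a2) * (a2 - a0)) ^ 2 * t ^ 6 +
        (-4 * (a0 + a1 + a2) ^ 3 + 18 * (a0 + a1 + a2) * (a0 * a1 + a1 * a2 + a2 * a0) -
          54 * (a0 * a1 * a2)) * t ^ 3 - 27 → |t| ≤ N := by
  set V := (a0 - a1) * (a1 - a2) * (a2 - a0) with hV
  set κ := -4 * (a0 + a1 + a2) ^ 3 + 18 * (a0 + a1 + a2) * (a0 * a1 + a1 * a2 + a2 * a0) -
          54 * (a0 * a1 * a2) with hκ
  have hV0 : V ≠ 0 := mul_ne_zero (mul_ne_zero (sub_ne_zero.2 h01) (sub_ne_zero.2 h12))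
    (sub_ne_zero.2 h02.symm)
  refine ⟨κ ^ 2 + 108 * V ^ 2 + |κ|, fun t y h => ?_⟩
  have hpos : 0 < V ^ 2 := by positivity
  have h1 : (2 * V ^ 2 * t ^ 3 + κ) ^ 2 - (2 * V * y) ^ 2 = κ ^ 2 + 108 * V ^ 2 := by
    linear_combination (-4 * V ^ 2) * h
  have h2 := runge (by nlinarith [sq_nonneg κ]) h1
  exact finite_bound 3 (by norm_num) V κ _ hV0 t h2

/-- symmetric quartic families, first case -/
lemma quartic_finite1 (b s : ℤ) (hb : b ≠ 0) (hs : s ≠ 0) (t y : ℤ)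
    (h : y ^ 2 = (b * s) ^ 2 * t ^ 4 - 1) : |t| ≤ 1 := by
  have h1 : (b * s * t ^ 2) ^ 2 - y ^ 2 = 1 := by linear_combination -h
  have h2 := runge (by norm_num) h1
  rw [abs_mul, abs_pow] at h2
  have h3 : 1 ≤ |b * s| := Int.one_le_abs (mul_ne_zero hb hs)
  have h4 := abs_nonneg t
  nlinarith [sq_nonneg (|t| - 1)]

/-- symmetric quartic families, second case -/
lemma quartic_finite2 (b s : ℤ) (hb : b ≠ 0) (hs : s ≠ 0) (hbs : b ^ 2 ≠ s ^ 2) :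
    ∃ N : ℤ, ∀ t y : ℤ, y ^ 2 = ((b * s) ^ 2 * t ^ 4 - 1) * ((b ^ 2 - s ^ 2) ^ 2 * t ^ 4 + 4) →
      |t| ≤ N := by
  set V := b * s * (b ^ 2 - s ^ 2) with hV
  set κ := 4 * (b * s) ^ 2 - (b ^ 2 - s ^ 2) ^ 2 with hκ
  have hV0 : V ≠ 0 := mul_ne_zero (mul_ne_zero hb hs) (sub_ne_zero.2 hbs)
  refine ⟨κ ^ 2 + 16 * V ^ 2 + |κ|, fun t y h => ?_⟩
  have hpos : 0 < V ^ 2 := by positivity
  have h1 : (2 * V ^ 2 * t ^ 4 + κ) ^ 2 - (2 * V * y) ^ 2 = κ ^ 2 + 16 * V ^ 2 := by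
    rw [hV, hκ]
    linear_combination (-4 * (b * s * (b ^ 2 - s ^ 2)) ^ 2) * h
  have h2 := runge (by nlinarith [sq_nonneg κ]) h1
  exact finite_bound 4 (by norm_num) V κ _ hV0 t h2

end Pool.Agent.U332.LC
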