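import Mathlib
import Pool.Agent.U332.LC.I

/-!
# The Galois closure is larger than the field (continued)
-/

set_option autoImplicit false

namespace Pool.Agent.U332.LC

open NumberField Module Polynomial
open Equiv (Perm swap)
open Pool.Agent.H33R4 (spec fam fac)

namespace Roots

variable {K H : Type} [Field K] [NumberField K] [Field H] [NumberField H] {n : ℕ}

lemma j_surj (R : Roots K H n) (hn : finrank ℚ H = n) (i : Fin n) :
    Function.Surjective (R.j i) := by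
  have h1 : finrank ℚ K = finrank ℚ H := by rw [R.deg, hn]
  exact (LinearMap.injective_iff_surjective_of_finrank_eq_finrank
    (f := (R.j i).toRatAlgHom.toLinearMap) h1).1 (R.j i).injective

lemma eq_of_root (R : Roots K H n) (hn : finrank ℚ H = n) (i : Fin n) (g h : H ≃ₐ[ℚ] H)
    (hgh : g (R.r i) = h (R.r i)) : g = h := by
  have h1 : (g : H →+* H).comp (R.j i) = (h : H →+* H).comp (R.j i) := by
    apply R.gen
    change g (R.j i R.θ) = h (R.j i R.θ)
    rw [R.jθ, hgh]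
  ext x
  obtain ⟨k, rfl⟩ := R.j_surj hn i x
  exact congrArg (fun f : K →+* H => f k) h1

lemma trans (R : Roots K H n) (hn : finrank ℚ H = n) (i k : Fin n) :
    ∃ g : H ≃ₐ[ℚ] H, g (R.r i) = R.r k := by
  let e : ∀ i, K ≃ₐ[ℚ] H := fun i => AlgEquiv.ofBijective (R.j i).toRatAlgHom
    ⟨(R.j i).injective, R.j_surj hn i⟩
  refine ⟨(e i).symm.trans (e k), ?_⟩
  have h1 : (e i).symm (R.r i) = R.θ := by
    rw [AlgEquiv.symm_apply_eq]
    exact (R.jθ i).symm
  rw [AlgEquiv.trans_apply, h1]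
  exact R.jθ k

/-- fields with real and complex places are not Galois -/
lemma mixed [IsGalois ℚ H] (R : Roots K H n) (h0 : 0 < InfinitePlace.nrRealPlaces K)
    (h1 : InfinitePlace.nrRealPlaces K < n) : finrank ℚ H ≠ n := by
  intro hn
  obtain ⟨φ⟩ : Nonempty (H →+* ℂ) := inferInstance
  obtain ⟨c, hc⟩ := exists_conj φ
  have h2 := R.fixpts φ c hc
  have h3 : (Finset.univ.filter fun i => R.π c i = i).Nonempty := by
    rw [← Finset.card_pos, h2]
    exact h0
  obtain ⟨i, hi⟩ := h3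
  rw [Finset.mem_filter] at hi
  have h4 : c = 1 := by
    apply R.eq_of_root hn i
    rw [R.act, hi.2]
    rfl
  rw [h4, map_one] at h2
  simp at h2
  omega

lemma le_finrank (R : Roots K H n) (hpos : 0 < n) : n ≤ finrank ℚ H := by
  rw [← R.deg]
  exact LinearMap.finrank_le_finrank_of_injective
    (f := (R.j ⟨0, hpos⟩).toRatAlgHom.toLinearMap) (R.j ⟨0, hpos⟩).injective

end Roots

lemma even3 : ∀ s : Perm (Fin 3), s.sign = 1 → (s 0 = 0 ∧ s 1 = 1 ∧ s 2 = 2) ∨
    (s 0 = 1 ∧ s 1 = 2 ∧ s 2 = 0) ∨ (s 0 = 2 ∧ s 1 = 0 ∧ s 2 = 1) := by decide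

/-- cubic families -/
lemma cubic_big (a : Fin 3 → ℤ) (b c : Fin 0 → ℤ) (ha : Function.Injective a) :
    ∃ N : ℤ, ∀ t : ℤ, N < |t| → ∀ (K H : Type) [Field K] [NumberField K] [Field H]
      [NumberField H] [IsGalois ℚ H] (R : Roots K H 3),
      (∀ i, aeval (R.r i) (spec t (fam a b c)) = 0) → finrank ℚ H ≠ 3 := by
  obtain ⟨N, hN⟩ := cubic_finite (a 0) (a 1) (a 2) (fun h => by simpa using ha h)
    (fun h => by simpa using ha h) (fun h => by simpa using ha h)
  refine ⟨N, ?_⟩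
  intro t ht K H _ _ _ _ _ R hroot hn
  have hval : ∀ x : H, aeval x (spec t (fam a b c)) =
      (x - a 0 * t) * (x - a 1 * t) * (x - a 2 * t) - 1 := by
    intro x
    rw [spec_zero, map_sub, map_one, map_prod, Fin.prod_univ_three]
    simp
  have hsign : ∀ g, (R.π g).sign = 1 := by
    intro g
    have h1 : g ^ 3 = 1 := by
      rw [← hn, ← IsGalois.card_aut_eq_finrank]
      exact pow_card_eq_one'
    have h2 : (R.π g).sign ^ 3 = 1 := by rw [← map_pow, ← map_pow, h1, map_one, map_one]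
    rcases Int.units_eq_one_or ((R.π g).sign) with h | h
    · exact h
    · rw [h] at h2
      exact absurd h2 (by decide)
  have hne : ∀ i k : Fin 3, i ≠ k → R.r i ≠ R.r k := fun i k h h' => h (R.inj h')
  have hid := cubic_id (a 0) (a 1) (a 2) t (R.r 0) (R.r 1) (R.r 2) (hne 0 1 (by decide))
    (hne 1 2 (by decide)) (hne 0 2 (by decide)) ((hval _).symm.trans (hroot 0))
    ((hval _).symm.trans (hroot 1)) ((hval _).symm.trans (hroot 2))
  obtain ⟨y, hy⟩ := int_of_sq _ _ hid (by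
    intro g
    rw [map_mul, map_mul, map_sub, map_sub, map_sub, R.act, R.act, R.act]
    rcases even3 (R.π g) (hsign g) with ⟨h0, h1, h2⟩ | ⟨h0, h1, h2⟩ | ⟨h0, h1, h2⟩ <;>
    rw [h0, h1, h2] <;> ring)
  exact absurd (hN t y hy) (not_le.2 ht)

lemma dz_of : ∀ s : Perm (Fin 4), s * s = 1 → (∀ i, s i ≠ i) →
    (s = dz 0 ∨ s = dz 1 ∨ s = dz 2) := by decide

lemma fix_even : ∀ s : Perm (Fin 4), s * s = 1 → ∀ i, s i = i → ∃ k, k ≠ i ∧ s k = k := by decide

/-- symmetric quadruples -/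
lemma sym_pair (a : Fin 4 → ℤ) (ha : Function.Injective a) (hs : ∀ i, ∃ j, a j = -a i) :
    ∃ b s : ℤ, b ≠ 0 ∧ s ≠ 0 ∧ b ^ 2 ≠ s ^ 2 ∧ ∀ (H : Type) [Field H] (t : ℤ) (x : H),
      ∏ i, (x - ((a i * t : ℤ) : H)) = (x ^ 2 - (b * t) ^ 2) * (x ^ 2 - (s * t) ^ 2) := by
  choose s hs using hs
  have hss : ∀ i, s (s i) = i := by
    intro i
    apply ha
    rw [hs, hs, neg_neg]
  let S : Perm (Fin 4) := ⟨s, s, hss, hss⟩
  have hSS : S * S = 1 := Equiv.ext hss
  have hfix0 : ∀ i, s i = i → a i = 0 := by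
    intro i h
    have := hs i
    rw [h] at this
    omega
  have hnf : ∀ i, S i ≠ i := by
    intro i h
    obtain ⟨k, hk, hk2⟩ := fix_even S hSS i h
    exact hk (ha (by rw [hfix0 i h, hfix0 k hk2]))
  have hsq : ∀ i k : Fin 4, i ≠ k → s i ≠ k → a i ^ 2 ≠ a k ^ 2 := by
    intro i k h1 h2 h3
    rcases sq_eq_sq_iff_eq_or_eq_neg.1 h3 with h | h
    · exact h1 (ha h)
    · apply h2
      apply ha
      rw [hs, h, neg_neg]
  have hne0 : ∀ i, a i ≠ 0 := by
    intro i h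
    apply hnf i
    apply ha
    change a (s i) = a i
    rw [hs, h, neg_zero]
  rcases dz_of S hSS hnf with h | h | h
  · have e : ∀ i, s i = dz 0 i := fun i => congrArg (fun f : Perm (Fin 4) => f i) h
    have e0 : a 1 = -a 0 := by rw [← hs 0, e 0]; rfl
    have e1 : a 3 = -a 2 := by rw [← hs 2, e 2]; rfl
    refine ⟨a 0, a 2, hne0 _, hne0 _, hsq 0 2 (by decide) (by rw [e]; decide), ?_⟩
    intro H _ t x
    rw [Fin.prod_univ_four, e0, e1]
    push_cast
    ring
  · have e : ∀ i, s i = dz 1 i := fun i => congrArg (fun f : Perm (Fin 4) => f i) h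
    have e0 : a 2 = -a 0 := by rw [← hs 0, e 0]; rfl
    have e1 : a 3 = -a 1 := by rw [← hs 1, e 1]; rfl
    refine ⟨a 0, a 1, hne0 _, hne0 _, hsq 0 1 (by decide) (by rw [e]; decide), ?_⟩
    intro H _ t x
    rw [Fin.prod_univ_four, e0, e1]
    push_cast
    ring
  · have e : ∀ i, s i = dz 2 i := fun i => congrArg (fun f : Perm (Fin 4) => f i) h
    have e0 : a 3 = -a 0 := by rw [← hs 0, e 0]; rfl
    have e1 : a 2 = -a 1 := by rw [← hs 1, e 1]; rfl
    refine ⟨a 0, a 1, hne0 _, hne0 _, hsq 0 1 (by decide) (by rw [e]; decide), ?_⟩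
    intro H _ t x
    rw [Fin.prod_univ_four, e0, e1]
    push_cast
    ring

/-- symmetric quartic families -/
lemma quartic_big (a : Fin 4 → ℤ) (b c : Fin 0 → ℤ) (ha : Function.Injective a)
    (hs : ∀ i, ∃ j, a j = -a i) :
    ∃ N : ℤ, ∀ t : ℤ, N < |t| → ∀ (K H : Type) [Field K] [NumberField K] [Field H]
      [NumberField H] [IsGalois ℚ H] (R : Roots K H 4),
      (∀ i, aeval (R.r i) (spec t (fam a b c)) = 0) →
      (∀ y : H, aeval y (spec t (fam a b c)) = 0 → ∃ i, R.r i = y) → finrank ℚ H ≠ 4 := by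
  obtain ⟨B, S, hB, hS, hBS, hprod⟩ := sym_pair a ha hs
  obtain ⟨N, hN⟩ := quartic_finite2 B S hB hS hBS
  refine ⟨max N 1, ?_⟩
  intro t ht K H _ _ _ _ _ R hroot hsurj hn
  have hval : ∀ x : H, aeval x (spec t (fam a b c)) =
      (x ^ 2 - (B * t) ^ 2) * (x ^ 2 - (S * t) ^ 2) - 1 := by
    intro x
    rw [spec_zero, map_sub, map_one, map_prod, ← hprod]
    congr 1
    refine Finset.prod_congr rfl fun i _ => ?_
    simp
  have hr : ∀ i, (R.r i ^ 2 - (B * t) ^ 2) * (R.r i ^ 2 - (S * t) ^ 2) - 1 = 0 := fun i =>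
    (hval _).symm.trans (hroot i)
  -- the negative roots
  have hneg : ∀ i, ∃ k, R.r k = -R.r i := by
    intro i
    apply hsurj
    rw [hval, neg_sq]
    exact hr i
  obtain ⟨i₁, hi₁⟩ := hneg 0
  obtain ⟨k, hk0, hk1⟩ : ∃ k : Fin 4, k ≠ 0 ∧ k ≠ i₁ := by
    revert i₁
    intro i₁ _
    fin_cases i₁ <;> decide
  set x := R.r 0 with hx
  set y := R.r k with hy
  have hxy : x ^ 2 ≠ y ^ 2 := by
    intro h
    rcases sq_eq_sq_iff_eq_or_eq_neg.1 h with h | h
    · exact hk0 (R.inj h.symm)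
    · apply hk1
      apply R.inj
      rw [hi₁, h, neg_neg]
  have hx1 := hr 0
  have hy1 := hr k
  rw [← hx] at hx1
  rw [← hy] at hy1
  have hE : ((B : H) * t) ^ 2 + (S * t) ^ 2 = x ^ 2 + y ^ 2 := by
    apply mul_left_cancel₀ (sub_ne_zero.2 hxy)
    linear_combination hy1 - hx1
  have hF : ((B : H) * t) ^ 2 * (S * t) ^ 2 - 1 = x ^ 2 * y ^ 2 := by
    linear_combination hx1 + x ^ 2 * hE
  -- the roots
  have hroots : ∀ i, R.r i = x ∨ R.r i = -x ∨ R.r i = y ∨ R.r i = -y := by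
    intro i
    have h1 : (R.r i ^ 2 - x ^ 2) * (R.r i ^ 2 - y ^ 2) = 0 := by
      linear_combination hr i + R.r i ^ 2 * hE - hF
    rcases mul_eq_zero.1 h1 with h | h
    · rcases sq_eq_sq_iff_eq_or_eq_neg.1 (sub_eq_zero.1 h) with h | h
      · exact Or.inl h
      · exact Or.inr (Or.inl h)
    · rcases sq_eq_sq_iff_eq_or_eq_neg.1 (sub_eq_zero.1 h) with h | h
      · exact Or.inr (Or.inr (Or.inl h))
      · exact Or.inr (Or.inr (Or.inr h))
  -- the group is commutative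
  have hcard : Nat.card (H ≃ₐ[ℚ] H) = 2 ^ 2 := by
    rw [IsGalois.card_aut_eq_finrank, hn]
    norm_num
  have _ : Fact (Nat.Prime 2) := ⟨Nat.prime_two⟩
  have hcomm : ∀ g h : H ≃ₐ[ℚ] H, g * h = h * g := by
    have := IsPGroup.isMulCommutative_of_card_eq_prime_sq hcard
    intro g h
    exact mul_comm' g h
  obtain ⟨σ, hσ⟩ := R.trans hn 0 k
  obtain ⟨ζ, hζ⟩ := R.trans hn 0 i₁
  rw [← hx] at hσ hζ
  rw [← hy] at hσ
  rw [hi₁] at hζ
  have hζy : ζ y = -y := by
    rw [← hσ]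
    have h1 : ζ (σ x) = σ (ζ x) := congrArg (fun f : H ≃ₐ[ℚ] H => f x) (hcomm ζ σ)
    rw [h1, hζ, map_neg]
  have hinv : ∀ g : H ≃ₐ[ℚ] H, g = 1 ∨ g = ζ ∨ g = σ ∨ g = σ * ζ := by
    intro g
    have h1 := hroots (R.π g 0)
    rw [← R.act, ← hx] at h1
    rcases h1 with h | h | h | h
    · left
      exact R.eq_of_root hn 0 _ _ (by rw [← hx, h]; rfl)
    · right; left
      exact R.eq_of_root hn 0 _ _ (by rw [← hx, h, hζ])
    · right; right; left
      exact R.eq_of_root hn 0 _ _ (by rw [← hx, h, hσ])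
    · right; right; right
      refine R.eq_of_root hn 0 _ _ ?_
      rw [← hx, h]
      change -y = σ (ζ x)
      rw [hζ, map_neg, hσ]
  have hfix : ∀ w : H, ζ w = w → σ w = w → ∀ g : H ≃ₐ[ℚ] H, g w = w := by
    intro w h1 h2 g
    rcases hinv g with rfl | rfl | rfl | rfl
    · rfl
    · exact h1
    · exact h2
    · change σ (ζ w) = w
      rw [h1, h2]
  have hσy : σ y = x ∨ σ y = -x := by
    have h1 := hroots (R.π σ k)
    rw [← R.act, ← hy] at h1
    rcases h1 with h | h | h | h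
    · exact Or.inl h
    · exact Or.inr h
    · exfalso
      apply hxy
      have h2 : σ y = σ x := by rw [h, hσ]
      rw [σ.injective h2]
    · exfalso
      apply hxy
      have h2 : σ y = σ (-x) := by rw [h, map_neg, hσ]
      rw [σ.injective h2, neg_sq]
  rcases hσy with h | h
  · obtain ⟨w, hw⟩ := int_of_sq (x * y) ((B * S) ^ 2 * t ^ 4 - 1) (by
      push_cast
      linear_combination -hF) (hfix _ (by rw [map_mul, hζ, hζy]; ring)
        (by rw [map_mul, hσ, h]; ring))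
    have h1 := quartic_finite1 B S hB hS t w hw
    have h2 := le_max_right N 1
    omega
  · obtain ⟨w, hw⟩ := int_of_sq (x * y * (x ^ 2 - y ^ 2))
      (((B * S) ^ 2 * t ^ 4 - 1) * ((B ^ 2 - S ^ 2) ^ 2 * t ^ 4 + 4)) (by
      have h1 : (x * y * (x ^ 2 - y ^ 2)) ^ 2 = (x ^ 2 * y ^ 2) *
        ((x ^ 2 + y ^ 2) ^ 2 - 4 * (x ^ 2 * y ^ 2)) := by ring
      rw [h1, ← hE, ← hF]
      push_cast
      ring) (hfix _ (by
        rw [map_mul, map_mul, map_sub, map_pow, map_pow, hζ, hζy]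
        ring) (by
        rw [map_mul, map_mul, map_sub, map_pow, map_pow, hσ, h]
        ring))
    have h1 := hN t w hw
    have h2 := le_max_left N 1
    omega

/-- the Galois closure is larger than the field -/
theorem family_big (r₁ r₂ : ℕ) (h : 1 ≤ r₁ + r₂) (a : Fin r₁ → ℤ) (b c : Fin r₂ → ℤ)
    (ha : Function.Injective a) (hs : Small r₁ r₂ a) (h3 : 3 ≤ r₁ + 2 * r₂) :
    ∃ N : ℤ, ∀ t : ℤ, N < |t| → Irreducible (spec t (fam a b c)) →
      (∀ (K : Type) [Field K] [NumberField K] (θ : K), aeval θ (spec t (fam a b c)) = 0 →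
        IntermediateField.adjoin ℚ {θ} = ⊤ →
        InfinitePlace.nrRealPlaces K = r₁ ∧ InfinitePlace.nrComplexPlaces K = r₂) →
      ∀ (H : Type) [Field H] [NumberField H]
        [IsSplittingField ℚ H (ratPoly (spec t (fam a b c)))], r₁ + 2 * r₂ < finrank ℚ H := by
  -- the cases
  have hcase : (r₁ = 3 ∧ r₂ = 0) ∨ (r₁ = 4 ∧ r₂ = 0 ∧ ∀ i, ∃ j, a j = -a i) ∨
      (0 < r₁ ∧ 0 < r₂) := by
    rcases hs with hs | ⟨rfl, rfl⟩ | hs
    · rcases Nat.eq_zero_or_pos r₂ with h2 | h2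
      · left
        omega
      · right; right
        omega
    · right; right
      omega
    · right; left
      exact hs
  have hN : ∃ N : ℤ, ∀ t : ℤ, N < |t| → Irreducible (spec t (fam a b c)) →
      (∀ (K : Type) [Field K] [NumberField K] (θ : K), aeval θ (spec t (fam a b c)) = 0 →
        IntermediateField.adjoin ℚ {θ} = ⊤ →
        InfinitePlace.nrRealPlaces K = r₁ ∧ InfinitePlace.nrComplexPlaces K = r₂) →
      ∀ (K H : Type) [Field K] [NumberField K] [Field H] [NumberField H] [IsGalois ℚ H]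
        (R : Roots K H (r₁ + 2 * r₂)), InfinitePlace.nrRealPlaces K = r₁ →
        (∀ i, aeval (R.r i) (spec t (fam a b c)) = 0) →
        (∀ y : H, aeval y (spec t (fam a b c)) = 0 → ∃ i, R.r i = y) →
        finrank ℚ H ≠ r₁ + 2 * r₂ := by
    rcases hcase with ⟨rfl, rfl⟩ | ⟨rfl, rfl, hs'⟩ | ⟨h1, h2⟩
    · obtain ⟨N, hN⟩ := cubic_big a b c ha
      exact ⟨N, fun t ht _ _ K H _ _ _ _ _ R _ hroot _ => hN t ht K H R hroot⟩
    · obtain ⟨N, hN⟩ := quartic_big a b c ha hs'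
      exact ⟨N, fun t ht _ _ K H _ _ _ _ _ R _ hroot hsurj => hN t ht K H R hroot hsurj⟩
    · refine ⟨0, fun t _ _ _ K H _ _ _ _ _ R hre _ _ => ?_⟩
      exact R.mixed (by omega) (by omega)
  obtain ⟨N, hN⟩ := hN
  refine ⟨N, ?_⟩
  intro t ht hirr hmain H _ _ _
  set g := spec t (fam a b c) with hg
  have hm : g.Monic := (Pool.Agent.H33R4.fam_monic a b c h).map _
  have hi : Irreducible (ratPoly g) := ratPoly_irr hm hirr
  obtain ⟨K, _, _, θ, hθ1, hgen⟩ := exists_field (ratPoly g) hi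
  have hθ : aeval θ g = 0 := by rw [← ratPoly_aeval, hθ1]
  obtain ⟨h1, h2⟩ := hmain _ θ hθ hgen
  have h4 := InfinitePlace.card_add_two_mul_card_eq_rank K
  have h5 := finrank_eq θ hgen _ hi hθ1
  rw [h1, h2] at h4
  obtain ⟨hgal, R, hR, hsurj⟩ := exists_roots (ratPoly g) hi θ hθ1 hgen H
  have hroot : ∀ i, aeval (R.r i) g = 0 := by
    intro i
    rw [← R.jθ i, hR]
    have e1 := aeval_algHom_apply ((R.j i).toRatAlgHom) θ (ratPoly g)
    change aeval (R.j i θ) (ratPoly g) = R.j i (aeval θ (ratPoly g)) at e1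
    rw [← ratPoly_aeval, e1, hθ1, map_zero]
  have hsurj' : ∀ y : H, aeval y g = 0 → ∃ i, R.r i = y := fun y hy =>
    hsurj y (by rw [ratPoly_aeval, hy])
  have hdeg : (ratPoly g).natDegree = r₁ + 2 * r₂ := by omega
  clear hR
  generalize hn : (ratPoly g).natDegree = n at R
  obtain rfl : n = r₁ + 2 * r₂ := by omega
  exact lt_of_le_of_ne (R.le_finrank (by omega))
    (Ne.symm (hN t ht hirr hmain K H R h1 hroot hsurj'))

end Pool.Agent.U332.LC
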