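import Mathlib
import Pool.Agent.U332.LC.G

/-!
# Relative units of rank one, general form, and the roots of a separable polynomial
-/

set_option autoImplicit false

namespace Pool.Agent.U332.LC

open NumberField Module TensorProduct Pool.Agent.W289.SL Filter Topology Polynomial
open Pool.Agent.Y419.LC.LcpP Pool.Agent.Y419.LC.SigP
open Equiv (Perm swap)
open Pool.Agent.H637R2.Leo (Leopoldt)

variable {p : ℕ} [hp : Fact p.Prime]
variable {L : ℂ_[p] → ℂ_[p]} (hL : IsIwasawaLog p L)
variable {F H : Type} [Field F] [NumberField F] [Field H] [NumberField H]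

lemma fixed_iff (M : Subgroup (H ≃ₐ[ℚ] H)) (g : H ≃ₐ[ℚ] H) :
    (∀ k : IntermediateField.fixedField M, g (algebraMap (IntermediateField.fixedField M) H k) =
        algebraMap (IntermediateField.fixedField M) H k) ↔ g ∈ M := by
  conv_rhs => rw [← IntermediateField.fixingSubgroup_fixedField M]
  rw [IntermediateField.mem_fixingSubgroup_iff]
  constructor
  · intro h y hy
    exact h ⟨y, hy⟩
  · intro h k
    exact h _ k.2

include hL in
/-- relative units of rank one -/
theorem NS_rel [IsGalois ℚ H] (j : F →+* H) (hF : Inj hL F) (P Q : (H ≃ₐ[ℚ] H) → Prop)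
    [DecidablePred P] [DecidablePred Q] (M : Subgroup (H ≃ₐ[ℚ] H)) (hP : ∀ g, P g ↔ g ∈ M)
    (hQ : ∀ g, Q g ↔ ∀ k, g (j k) = j k) (hsub : ∀ g, P g → Q g)
    (hidx : ∀ g h, Q g → ¬ P g → Q h → ¬ P h → P (g⁻¹ * h))
    (hr : Units.rank (IntermediateField.fixedField M) ≤ Units.rank F + 1)
    {x : UM p H} (hx : IsRel hL x) : NS P x = 0 := by
  classical
  by_cases hex : ∀ g, Q g → P g
  · rw [NS_congr (fun g => (⟨hsub g, hex g⟩ : P g ↔ Q g)) x]
    exact NS_emb hL j hF hx hQ
  push Not at hex
  obtain ⟨τ, hτ, hτ2⟩ := hex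
  -- the splitting of the sum
  have hQmul : ∀ g h, Q g → Q h → Q (g * h) := by
    intro g h h1 h2
    rw [hQ] at h1 h2 ⊢
    intro k
    change g (h (j k)) = j k
    rw [h2, h1]
  have hsplit : NS Q x = NS P x + act τ (NS P x) := by
    have h1 : NS Q x = NS P x + NS (fun g => Q g ∧ ¬ P g) x := by
      rw [← W_ind, ← W_ind, ← W_ind, ← W_add]
      congr 1
      funext g
      by_cases h1 : P g
      · simp [h1, hsub g h1]
      · by_cases h2 : Q g <;> simp [h1, h2]
    rw [h1]
    congr 1
    unfold NS
    rw [map_sum]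
    refine Finset.sum_bij' (fun g _ => τ⁻¹ * g) (fun g _ => τ * g) ?_ ?_ ?_ ?_ ?_
    · intro g hg
      rw [Finset.mem_filter] at hg ⊢
      exact ⟨Finset.mem_univ _, hidx τ g hτ hτ2 hg.2.1 hg.2.2⟩
    · intro g hg
      rw [Finset.mem_filter] at hg ⊢
      refine ⟨Finset.mem_univ _, hQmul _ _ hτ (hsub g hg.2), fun h => hτ2 ?_⟩
      rw [hP] at h ⊢
      have h3 := M.mul_mem h (M.inv_mem ((hP g).1 hg.2))
      simpa using h3
    · intro g _
      group
    · intro g _
      group
    · intro g _
      rw [← act_mul]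
      congr 1
      group
  -- the field `F` in the fixed field
  have hj : ∀ k, j k ∈ IntermediateField.fixedField M := by
    intro k
    rw [IntermediateField.mem_fixedField_iff]
    intro g hg
    exact (hQ g).1 (hsub g ((hP g).2 hg)) k
  let jE : F →+* IntermediateField.fixedField M := j.codRestrict _ hj
  have hτj : ∀ k : F, (τ : H →+* H) (algebraMap (IntermediateField.fixedField M) H (jE k)) =
      algebraMap (IntermediateField.fixedField M) H (jE k) := (hQ τ).1 hτ
  let N : Additive (𝓞 H)ˣ →+ Additive (𝓞 (IntermediateField.fixedField M))ˣ :=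
    normU (IntermediateField.fixedField M) H
  let f : Additive (𝓞 H)ˣ →+ Additive (𝓞 H)ˣ :=
    (unitInc (IntermediateField.fixedField M) H).comp N -
      (unitHom (τ : H →+* H)).comp ((unitInc (IntermediateField.fixedField M) H).comp N)
  have hext : ∀ y : UM p H, ext p f y = NS P y - act τ (NS P y) := by
    intro y
    induction y using TensorProduct.induction_on with
    | zero => simp [NS]
    | add y z hy hz =>
      have e1 : NS P (y + z) = NS P y + NS P z := by
        unfold NS
        rw [← Finset.sum_add_distrib]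
        exact Finset.sum_congr rfl fun g _ => map_add _ _ _
      rw [map_add, hy, hz, e1, map_add]
      abel
    | tmul c u =>
      have e1 : NS P (c ⊗ₜ[ℤ] u : UM p H) =
          c ⊗ₜ[ℤ] unitInc (IntermediateField.fixedField M) H (N u) := by
        unfold NS
        rw [← sum_unitHom (K := IntermediateField.fixedField M) u, TensorProduct.tmul_sum]
        refine Finset.sum_congr ?_ fun g _ => rfl
        ext g
        rw [Finset.mem_filter, Finset.mem_filter, fixed_iff, hP]
      rw [e1, ext_tmul]
      change c ⊗ₜ[ℤ] (unitInc (IntermediateField.fixedField M) H (N u) -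
        unitHom (τ : H →+* H) (unitInc (IntermediateField.fixedField M) H (N u))) = _
      rw [TensorProduct.tmul_sub]
      rfl
  set y := NS P x with hy
  have hyr : IsRel hL y := IsRel.NS hL hx
  have h1 : ext p f x = 0 := by
    apply rank_one hL
    · intro u v
      exact dep_of_rank jE (τ : H →+* H) hτj hr (N u) (N v)
    · intro σ
      rw [hext, map_sub, ← hy, hyr, hyr.act hL _ σ, sub_zero]
  rw [hext, ← hy, sub_eq_zero] at h1
  rw [NS_emb hL j hF hx hQ, ← h1, ← two_zsmul] at hsplit
  exact eq_zero_of_zsmul 2 (by norm_num) hsplit.symm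

/-- the roots of a separable polynomial and the action of the Galois group -/
structure Roots0 (H : Type) [Field H] [NumberField H] (n : ℕ) where
  r : Fin n → H
  inj : Function.Injective r
  π : (H ≃ₐ[ℚ] H) →* Perm (Fin n)
  act : ∀ g i, g (r i) = r (π g i)
  faith : Function.Injective π

theorem exists_roots0 (f : ℚ[X]) (hf : f.Separable) (H : Type) [Field H]
    [NumberField H] [IsSplittingField ℚ H f] (n : ℕ) (hn : f.natDegree = n) :
    IsGalois ℚ H ∧ ∃ R : Roots0 H n, ∀ i, aeval (R.r i) f = 0 := by
  classical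
  subst hn
  refine ⟨IsGalois.of_separable_splitting_field hf, ?_⟩
  have hsplit := IsSplittingField.splits H f
  have hcard : Fintype.card (f.rootSet H) = f.natDegree :=
    card_rootSet_eq_natDegree hf hsplit
  let e : Fin f.natDegree ≃ f.rootSet H := (Fintype.equivFinOfCardEq hcard).symm
  have hroot : ∀ i, aeval (e i : H) f = 0 := fun i => (mem_rootSet.1 (e i).2).2
  have hg : ∀ (g : H ≃ₐ[ℚ] H) (x : H), x ∈ f.rootSet H → g x ∈ f.rootSet H := by
    intro g x hx
    rw [mem_rootSet] at hx ⊢
    refine ⟨hx.1, ?_⟩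
    have h1 := aeval_algHom_apply (g : H →ₐ[ℚ] H) x f
    change aeval (g x) f = g (aeval x f) at h1
    rw [h1, hx.2, map_zero]
  let s : (H ≃ₐ[ℚ] H) → Fin f.natDegree → Fin f.natDegree :=
    fun g i => e.symm ⟨g (e i), hg g _ (e i).2⟩
  have hs : ∀ g i, (e (s g i) : H) = g (e i) := by
    intro g i
    simp only [s, Equiv.apply_symm_apply]
  have hinj : Function.Injective fun i => (e i : H) := Subtype.val_injective.comp e.injective
  have hsb : ∀ g, Function.Bijective (s g) := by
    intro g
    rw [← Finite.injective_iff_bijective]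
    intro a b hab
    apply hinj
    apply g.injective
    change g (e a) = g (e b)
    rw [← hs, ← hs, hab]
  let π : (H ≃ₐ[ℚ] H) →* Perm (Fin f.natDegree) :=
    MonoidHom.mk' (fun g => Equiv.ofBijective (s g) (hsb g)) (by
      intro g h
      ext i
      change ((s (g * h) i : Fin f.natDegree) : ℕ) = s g (s h i)
      congr 1
      apply hinj
      change (e (s (g * h) i) : H) = e (s g (s h i))
      rw [hs, hs, hs]
      rfl)
  have hπ : ∀ g i, (e (π g i) : H) = g (e i) := hs
  have hfaith : Function.Injective π := by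
    rw [injective_iff_map_eq_one]
    intro g h1
    have h2 : (g : H →ₐ[ℚ] H) = AlgHom.id ℚ H := by
      refine AlgHom.ext_of_adjoin_eq_top (IsSplittingField.adjoin_rootSet H f) ?_
      intro x hx
      have h3 := hπ g (e.symm ⟨x, hx⟩)
      rw [h1, Perm.one_apply, Equiv.apply_symm_apply] at h3
      exact h3.symm
    ext x
    exact congrArg (fun φ : H →ₐ[ℚ] H => φ x) h2
  exact ⟨⟨fun i => e i, hinj, π, fun g i => (hπ g i).symm, hfaith⟩, hroot⟩

end Pool.Agent.U332.LC
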