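import Mathlib
import Pool.Agent.U332.LC.K

/-!
# Totally complex quartic fields and the cubic resolvent
-/

set_option autoImplicit false

namespace Pool.Agent.U332.LC

open NumberField Module TensorProduct Pool.Agent.W289.SL Filter Topology Polynomial
open Pool.Agent.Y419.LC.LcpP Pool.Agent.Y419.LC.SigP
open Equiv (Perm swap)
open Pool.Agent.H637R2.Leo (Leopoldt)

/-! ### permutations -/

/-- the cyclic group of order four which contains `dz l` -/
def Cf (l : Fin 3) (s : Perm (Fin 4)) : Prop := s = 1 ∨ s = dz l ∨ s * s = dz l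

instance (l : Fin 3) : DecidablePred (Cf l) := fun s => by unfold Cf; infer_instance

lemma Cf_one : ∀ l : Fin 3, Cf l 1 := by decide

set_option maxRecDepth 20000 in
lemma Cf_mul0 : ∀ s t : Perm (Fin 4), (Cf 0 s ∧ Cf 0 t) → Cf 0 (s * t) := by decide

set_option maxRecDepth 20000 in
lemma Cf_mul1 : ∀ s t : Perm (Fin 4), (Cf 1 s ∧ Cf 1 t) → Cf 1 (s * t) := by decide

set_option maxRecDepth 20000 in
lemma Cf_mul2 : ∀ s t : Perm (Fin 4), (Cf 2 s ∧ Cf 2 t) → Cf 2 (s * t) := by decide

lemma Cf_mul (l : Fin 3) (s t : Perm (Fin 4)) (h : Cf l s) (h' : Cf l t) : Cf l (s * t) := by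
  fin_cases l
  · exact Cf_mul0 s t ⟨h, h'⟩
  · exact Cf_mul1 s t ⟨h, h'⟩
  · exact Cf_mul2 s t ⟨h, h'⟩

lemma Cf_inv : ∀ (l : Fin 3) (s : Perm (Fin 4)), Cf l s → Cf l s⁻¹ := by decide

lemma Cf_sub : ∀ (l : Fin 3) (s : Perm (Fin 4)), Cf l s → s * dz l = dz l * s := by decide

set_option maxRecDepth 20000 in
lemma Cf_idx0 : ∀ s t : Perm (Fin 4), ((s * dz 0 = dz 0 * s ∧ ¬ Cf 0 s) ∧
    (t * dz 0 = dz 0 * t ∧ ¬ Cf 0 t)) → Cf 0 (s⁻¹ * t) := by decide

set_option maxRecDepth 20000 in
lemma Cf_idx1 : ∀ s t : Perm (Fin 4), ((s * dz 1 = dz 1 * s ∧ ¬ Cf 1 s) ∧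
    (t * dz 1 = dz 1 * t ∧ ¬ Cf 1 t)) → Cf 1 (s⁻¹ * t) := by decide

set_option maxRecDepth 20000 in
lemma Cf_idx2 : ∀ s t : Perm (Fin 4), ((s * dz 2 = dz 2 * s ∧ ¬ Cf 2 s) ∧
    (t * dz 2 = dz 2 * t ∧ ¬ Cf 2 t)) → Cf 2 (s⁻¹ * t) := by decide

lemma Cf_idx (l : Fin 3) (s t : Perm (Fin 4)) (h1 : s * dz l = dz l * s) (h2 : ¬ Cf l s)
    (h3 : t * dz l = dz l * t) (h4 : ¬ Cf l t) : Cf l (s⁻¹ * t) := by
  fin_cases l
  · exact Cf_idx0 s t ⟨⟨h1, h2⟩, h3, h4⟩
  · exact Cf_idx1 s t ⟨⟨h1, h2⟩, h3, h4⟩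
  · exact Cf_idx2 s t ⟨⟨h1, h2⟩, h3, h4⟩

lemma dz_Cf : ∀ k l : Fin 3, Cf l (dz k) → k = l := by decide

lemma dz_comm : ∀ k l : Fin 3, dz k * dz l = dz l * dz k := by decide

lemma dz_conj : ∀ (s : Perm (Fin 4)) (l : Fin 3), ∃ l' : Fin 3, s * dz l * s⁻¹ = dz l' := by decide

lemma dz_fpf : ∀ s : Perm (Fin 4), s * s = 1 → (∀ i, s i ≠ i) →
    (s = dz 0 ∨ s = dz 1 ∨ s = dz 2) := by decide

lemma dz_inj : Function.Injective dz := by decide

/-- the cyclic group as a subgroup -/
def Cfs (l : Fin 3) : Subgroup (Perm (Fin 4)) where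
  carrier := {s | Cf l s}
  mul_mem' := fun {a b} ha hb => Cf_mul l a b ha hb
  one_mem' := Cf_one l
  inv_mem' := fun {a} ha => Cf_inv l a ha

lemma mem_Cfs (l : Fin 3) (s : Perm (Fin 4)) : s ∈ Cfs l ↔ Cf l s := Iff.rfl

lemma card_Cf : ∀ l : Fin 3, (Finset.univ.filter fun s : Perm (Fin 4) => Cf l s).card
    = 4 := by decide

lemma index_Cfs (l : Fin 3) : (Cfs l).index = 6 := by
  classical
  have h1 := (Cfs l).index_mul_card
  have h2 : Nat.card (Cfs l) = 4 := by
    rw [Nat.card_eq_fintype_card, Fintype.card_subtype]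
    refine Eq.trans ?_ (card_Cf l)
    congr 1
    ext s
    simp [mem_Cfs]
  rw [h2, Nat.card_perm, Nat.card_fin] at h1
  have h3 : Nat.factorial 4 = 24 := rfl
  omega

lemma card_stab : ∀ i : Fin 4, (Finset.univ.filter fun s : Perm (Fin 4) => s i = i).card
    = 6 := by decide

lemma index_stab (i : Fin 4) : (MulAction.stabilizer (Perm (Fin 4)) i).index = 4 := by
  classical
  have h1 := (MulAction.stabilizer (Perm (Fin 4)) i).index_mul_card
  have h2 : Nat.card (MulAction.stabilizer (Perm (Fin 4)) i) = 6 := by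
    rw [← card_stab i, Nat.card_eq_fintype_card, Fintype.card_subtype]
    congr 1
  rw [h2, Nat.card_perm, Nat.card_fin] at h1
  have h3 : Nat.factorial 4 = 24 := rfl
  omega

lemma key24 : ∀ s : Perm (Fin 4), ((if s = 1 then (24 : ℤ) else 0) + ((if True then 5 else 0) +
    ((if s * dz 0 = dz 0 * s then 1 else 0) + ((if s * dz 1 = dz 1 * s then 1 else 0) +
      (if s * dz 2 = dz 2 * s then 1 else 0))))) =
    ((if s.sign = 1 then 2 else 0) + ((if s 0 = 0 then 3 else 0) + ((if s 1 = 1 then 3 else 0) +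
      ((if s 2 = 2 then 3 else 0) + ((if s 3 = 3 then 3 else 0) + ((if Cf 0 s then 6 else 0) +
        ((if Cf 1 s then 6 else 0) + (if Cf 2 s then 6 else 0)))))))) := by decide

variable {p : ℕ} [hp : Fact p.Prime]
variable {L : ℂ_[p] → ℂ_[p]} (hL : IsIwasawaLog p L)
variable {H : Type} [Field H] [NumberField H]

include hL in
/-- totally complex quartic fields -/
theorem case24 [IsGalois ℚ H] (π : (H ≃ₐ[ℚ] H) →* Perm (Fin 4)) (hπ : Function.Injective π)
    {x : UM p H} (hx : IsRel hL x)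
    (hD : ∀ l, NS (fun g => π g * dz l = dz l * π g) x = 0)
    (hS : ∀ i, NS (fun g => π g i = i) x = 0)
    (hC : ∀ l, NS (fun g => Cf l (π g)) x = 0) : x = 0 := by
  have h1 : W (fun g => (if π g = 1 then (24 : ℤ) else 0) + ((if True then 5 else 0) +
    ((if π g * dz 0 = dz 0 * π g then 1 else 0) + ((if π g * dz 1 = dz 1 * π g then 1 else 0) +
      (if π g * dz 2 = dz 2 * π g then 1 else 0))))) x =
    W (fun g => (if (π g).sign = 1 then 2 else 0) + ((if π g 0 = 0 then 3 else 0) +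
      ((if π g 1 = 1 then 3 else 0) + ((if π g 2 = 2 then 3 else 0) +
      ((if π g 3 = 3 then 3 else 0) + ((if Cf 0 (π g) then 6 else 0) +
        ((if Cf 1 (π g) then 6 else 0) + (if Cf 2 (π g) then 6 else 0)))))))) x := by
    congr 1
    funext g
    exact key24 (π g)
  rw [W_add, W_add, W_add, W_add, W_add, W_add, W_add, W_add, W_add, W_add, W_add, W_mul, W_mul,
    W_mul, W_mul, W_mul, W_mul, W_mul, W_mul, W_mul, W_mul, W_mul, W_mul, W_mul, hD, hD, hD, hS,
    hS, hS, hS, hC, hC, hC, NS_sign hL π hx (fun _ => Iff.rfl), NS_top hL hx (fun _ => trivial),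
    NS_one _ (fun g => by rw [← map_one π, hπ.eq_iff])] at h1
  simp only [add_zero, smul_zero] at h1
  exact eq_zero_of_zsmul 24 (by norm_num) h1

namespace Roots0

variable [IsGalois ℚ H] (R : Roots0 H 4)

/-- no root is real -/
def NoReal : Prop := ∀ (φ : H →+* ℂ) (i : Fin 4), starRingEnd ℂ (φ (R.r i)) ≠ φ (R.r i)

variable {R}

lemma conj_dz (hR : R.NoReal) (φ : H →+* ℂ) (c : H ≃ₐ[ℚ] H)
    (hc : ∀ y, φ (c y) = starRingEnd ℂ (φ y)) : ∃ k, R.π c = dz k := by
  have h1 : c * c = 1 := by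
    ext y
    apply φ.injective
    change φ (c (c y)) = φ y
    rw [hc, hc, Complex.conj_conj]
  have h2 : R.π c * R.π c = 1 := by rw [← map_mul, h1, map_one]
  have h3 : ∀ i, R.π c i ≠ i := by
    intro i h
    apply hR φ i
    rw [← hc, R.act, h]
  rcases dz_fpf _ h2 h3 with h | h | h
  · exact ⟨0, h⟩
  · exact ⟨1, h⟩
  · exact ⟨2, h⟩

lemma rank_S (hR : R.NoReal) (i : Fin 4) : Units.rank (IntermediateField.fixedField
    ((MulAction.stabilizer (Perm (Fin 4)) i).comap R.π)) ≤ 1 := by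
  classical
  set M := (MulAction.stabilizer (Perm (Fin 4)) i).comap R.π with hM
  have hdeg : finrank ℚ (IntermediateField.fixedField M) ≤ 4 := by
    rw [finrank_fixed, ← index_stab i]
    exact index_comap_le R.π _
  have h1 : Fintype.card
      { φ : IntermediateField.fixedField M →+* ℂ // ComplexEmbedding.IsReal φ } = 0 := by
    rw [Fintype.card_eq_zero_iff]
    refine ⟨fun ⟨ψ, hψ⟩ => ?_⟩
    obtain ⟨φ, hφ⟩ := exists_extC (algebraMap (IntermediateField.fixedField M) H) ψ
    obtain ⟨c, hc⟩ := exists_conj φ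
    have h2 : R.π c i = i := real_fixed M ψ hψ φ hφ c hc
    apply hR φ i
    rw [← hc, R.act, h2]
  rw [InfinitePlace.card_real_embeddings] at h1
  have h2 := InfinitePlace.card_eq_nrRealPlaces_add_nrComplexPlaces (IntermediateField.fixedField M)
  have h3 := InfinitePlace.card_add_two_mul_card_eq_rank (IntermediateField.fixedField M)
  rw [Units.rank]
  omega

include hL in
lemma NS_S (hR : R.NoReal) {x : UM p H} (hx : IsRel hL x) (i : Fin 4) :
    NS (fun g => R.π g i = i) x = 0 :=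
  NS_fixed hL ((MulAction.stabilizer (Perm (Fin 4)) i).comap R.π)
    (inj_of_rank hL (R.rank_S hR i)) hx (fun _ => Iff.rfl)

/-- the fixed field of the cyclic group of order four -/
lemma rank_Cf (hR : R.NoReal) (l : Fin 3) :
    Units.rank (IntermediateField.fixedField ((Cfs l).comap R.π)) ≤ 3 := by
  classical
  set M := (Cfs l).comap R.π with hM
  have hmem : ∀ g, g ∈ M ↔ Cf l (R.π g) := fun g => Iff.rfl
  have hdeg : finrank ℚ (IntermediateField.fixedField M) ≤ 6 := by
    rw [finrank_fixed, ← index_Cfs l]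
    exact index_comap_le R.π _
  have hfix : ∀ g ∈ M, ∀ k : IntermediateField.fixedField M,
      g (algebraMap (IntermediateField.fixedField M) H k) =
        algebraMap (IntermediateField.fixedField M) H k := fun g hg => (fixed_iff M g).2 hg
  have h1 : Fintype.card
      { φ : IntermediateField.fixedField M →+* ℂ // ComplexEmbedding.IsReal φ } ≤ 2 := by
    by_cases hex : ∃ ψ : IntermediateField.fixedField M →+* ℂ, ComplexEmbedding.IsReal ψ
    · obtain ⟨ψ₀, hψ₀⟩ := hex
      obtain ⟨φ₀, hφ₀⟩ := exists_extC (algebraMap (IntermediateField.fixedField M) H) ψ₀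
      obtain ⟨c₀, hc₀⟩ := exists_conj φ₀
      have hd₀ : R.π c₀ = dz l := by
        obtain ⟨k, hk⟩ := conj_dz hR φ₀ c₀ hc₀
        have h2 : Cf l (R.π c₀) := real_fixed M ψ₀ hψ₀ φ₀ hφ₀ c₀ hc₀
        rw [hk] at h2
        rw [hk, dz_Cf k l h2]
      -- the second embedding
      obtain ⟨ψ₁, hψ₁⟩ : ∃ ψ₁ : IntermediateField.fixedField M →+* ℂ, ∀ g : H ≃ₐ[ℚ] H,
          R.π g * dz l = dz l * R.π g →
          (φ₀.comp (g : H →+* H)).comp (algebraMap (IntermediateField.fixedField M) H) = ψ₀ ∨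
          (φ₀.comp (g : H →+* H)).comp (algebraMap (IntermediateField.fixedField M) H) = ψ₁ := by
        by_cases hτ : ∃ τ : H ≃ₐ[ℚ] H, R.π τ * dz l = dz l * R.π τ ∧ ¬ Cf l (R.π τ)
        · obtain ⟨τ, hτ1, hτ2⟩ := hτ
          refine ⟨(φ₀.comp (τ : H →+* H)).comp (algebraMap (IntermediateField.fixedField M) H), ?_⟩
          intro g hg
          by_cases hg2 : Cf l (R.π g)
          · left
            rw [← hφ₀]
            ext k
            change φ₀ (g _) = φ₀ _
            rw [hfix g hg2]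
          · right
            have h3 : Cf l (R.π (τ⁻¹ * g)) := by
              rw [map_mul, map_inv]
              exact Cf_idx l _ _ hτ1 hτ2 hg hg2
            ext k
            have h4 := hfix _ h3 k
            change φ₀ (g _) = φ₀ (τ _)
            congr 1
            have h5 : g = τ * (τ⁻¹ * g) := by group
            rw [h5]
            change τ ((τ⁻¹ * g) _) = _
            rw [h4]
        · push Not at hτ
          refine ⟨ψ₀, fun g hg => Or.inl ?_⟩
          rw [← hφ₀]
          ext k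
          change φ₀ (g _) = φ₀ _
          rw [hfix g (hτ g hg)]
      have h2 : ∀ ψ : IntermediateField.fixedField M →+* ℂ, ComplexEmbedding.IsReal ψ →
          ψ = ψ₀ ∨ ψ = ψ₁ := by
        intro ψ hψ
        obtain ⟨φ, hφ⟩ := exists_extC (algebraMap (IntermediateField.fixedField M) H) ψ
        obtain ⟨c, hc⟩ := exists_conj φ
        have hd : R.π c = dz l := by
          obtain ⟨k, hk⟩ := conj_dz hR φ c hc
          have h2 : Cf l (R.π c) := real_fixed M ψ hψ φ hφ c hc
          rw [hk] at h2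
          rw [hk, dz_Cf k l h2]
        obtain ⟨σ, hσ⟩ := ComplexEmbedding.exists_comp_symm_eq_of_comp_eq (k := ℚ) φ₀ φ
          (Subsingleton.elim _ _)
        set g : H ≃ₐ[ℚ] H := σ.symm with hg
        have hgφ : φ = φ₀.comp (g : H →+* H) := hσ.symm
        have hgy : ∀ y, φ y = φ₀ (g y) := fun y => by rw [hgφ]; rfl
        have h3 : g * c = c₀ * g := by
          ext y
          apply φ₀.injective
          change φ₀ (g (c y)) = φ₀ (c₀ (g y))
          rw [← hgy, hc, hc₀, hgy]
        have h4 : R.π g * dz l = dz l * R.π g := by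
          have h5 := congrArg R.π h3
          rw [map_mul, map_mul, hd, hd₀] at h5
          exact h5
        have h5 := hψ₁ g h4
        rw [← hgφ, hφ] at h5
        exact h5
      rw [Fintype.card_subtype]
      refine le_trans (Finset.card_le_card (t := {ψ₀, ψ₁}) ?_) Finset.card_le_two
      intro ψ hψ
      rw [Finset.mem_filter] at hψ
      rw [Finset.mem_insert, Finset.mem_singleton]
      exact h2 ψ hψ.2
    · push Not at hex
      have : IsEmpty { φ : IntermediateField.fixedField M →+* ℂ // ComplexEmbedding.IsReal φ } :=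
        ⟨fun ⟨ψ, hψ⟩ => hex ψ hψ⟩
      rw [Fintype.card_eq_zero]
      norm_num
  rw [InfinitePlace.card_real_embeddings] at h1
  have h2 := InfinitePlace.card_eq_nrRealPlaces_add_nrComplexPlaces (IntermediateField.fixedField M)
  have h3 := InfinitePlace.card_add_two_mul_card_eq_rank (IntermediateField.fixedField M)
  rw [Units.rank]
  omega

end Roots0

end Pool.Agent.U332.LC
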