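import Mathlib
import Pool.Agent.U332.LC.L

/-!
# The cubic resolvent
-/

set_option autoImplicit false

namespace Pool.Agent.U332.LC

open NumberField Module TensorProduct Pool.Agent.W289.SL Filter Topology Polynomial
open Pool.Agent.Y419.LC.LcpP Pool.Agent.Y419.LC.SigP
open Equiv (Perm swap)
open Pool.Agent.H637R2.Leo (Leopoldt)

/-- coefficients and roots of a quartic -/
lemma vieta4 {H : Type} [Field H] (u v w r0 r1 r2 r3 : H) (h01 : r0 ≠ r1) (h02 : r0 ≠ r2)
    (h03 : r0 ≠ r3) (h12 : r1 ≠ r2) (h13 : r1 ≠ r3) (h23 : r2 ≠ r3)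
    (e0 : r0 ^ 4 + u * r0 ^ 2 + v * r0 + w = 0) (e1 : r1 ^ 4 + u * r1 ^ 2 + v * r1 + w = 0)
    (e2 : r2 ^ 4 + u * r2 ^ 2 + v * r2 + w = 0) (e3 : r3 ^ 4 + u * r3 ^ 2 + v * r3 + w = 0) :
    r3 = -(r0 + r1 + r2) ∧ u = -(r0 ^ 2 + r1 ^ 2 + r2 ^ 2 + r0 * r1 + r0 * r2 + r1 * r2) ∧
      v = (r0 + r1) * (r0 + r2) * (r1 + r2) ∧ w = -(r0 * r1 * r2 * (r0 + r1 + r2)) := by
  have a01 : r0 ^ 3 + r0 ^ 2 * r1 + r0 * r1 ^ 2 + r1 ^ 3 + u * (r0 + r1) + v = 0 := by
    apply mul_left_cancel₀ (sub_ne_zero.2 h01)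
    linear_combination e0 - e1
  have a02 : r0 ^ 3 + r0 ^ 2 * r2 + r0 * r2 ^ 2 + r2 ^ 3 + u * (r0 + r2) + v = 0 := by
    apply mul_left_cancel₀ (sub_ne_zero.2 h02)
    linear_combination e0 - e2
  have a03 : r0 ^ 3 + r0 ^ 2 * r3 + r0 * r3 ^ 2 + r3 ^ 3 + u * (r0 + r3) + v = 0 := by
    apply mul_left_cancel₀ (sub_ne_zero.2 h03)
    linear_combination e0 - e3
  have b2 : r0 ^ 2 + r0 * r1 + r0 * r2 + r1 ^ 2 + r1 * r2 + r2 ^ 2 + u = 0 := by
    apply mul_left_cancel₀ (sub_ne_zero.2 h12)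
    linear_combination a01 - a02
  have b3 : r0 ^ 2 + r0 * r1 + r0 * r3 + r1 ^ 2 + r1 * r3 + r3 ^ 2 + u = 0 := by
    apply mul_left_cancel₀ (sub_ne_zero.2 h13)
    linear_combination a01 - a03
  have c1 : r0 + r1 + r2 + r3 = 0 := by
    apply mul_left_cancel₀ (sub_ne_zero.2 h23)
    linear_combination b2 - b3
  refine ⟨by linear_combination c1, by linear_combination b2, ?_, ?_⟩
  · linear_combination a01 - (r0 + r1) * b2
  · linear_combination e0 - r0 * a01 + r0 * r1 * b2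

namespace Roots0

variable {H : Type} [Field H] [NumberField H] (R : Roots0 H 4)

/-- the root of the cubic resolvent -/
noncomputable def beta (l : Fin 3) : H := (∑ i, R.r i * R.r (dz l i)) / 2

lemma beta_val : R.beta 0 = R.r 0 * R.r 1 + R.r 2 * R.r 3 ∧
    R.beta 1 = R.r 0 * R.r 2 + R.r 1 * R.r 3 ∧ R.beta 2 = R.r 0 * R.r 3 + R.r 1 * R.r 2 := by
  have e0 : ∀ i, dz 0 i = ![1, 0, 3, 2] i := by decide
  have e1 : ∀ i, dz 1 i = ![2, 3, 0, 1] i := by decide
  have e2 : ∀ i, dz 2 i = ![3, 2, 1, 0] i := by decide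
  unfold beta
  refine ⟨?_, ?_, ?_⟩
  · simp only [e0, Fin.sum_univ_four, Matrix.cons_val]
    ring
  · simp only [e1, Fin.sum_univ_four, Matrix.cons_val]
    ring
  · simp only [e2, Fin.sum_univ_four, Matrix.cons_val]
    ring

lemma beta_inj : Function.Injective R.beta := by
  obtain ⟨h0, h1, h2⟩ := R.beta_val
  have hne : ∀ i k : Fin 4, i ≠ k → R.r i - R.r k ≠ 0 := fun i k h h' =>
    h (R.inj (sub_eq_zero.1 h'))
  have k01 : R.beta 0 - R.beta 1 ≠ 0 := by
    have : R.beta 0 - R.beta 1 = (R.r 0 - R.r 3) * (R.r 1 - R.r 2) := by rw [h0, h1]; ring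
    rw [this]
    exact mul_ne_zero (hne 0 3 (by decide)) (hne 1 2 (by decide))
  have k02 : R.beta 0 - R.beta 2 ≠ 0 := by
    have : R.beta 0 - R.beta 2 = (R.r 0 - R.r 2) * (R.r 1 - R.r 3) := by rw [h0, h2]; ring
    rw [this]
    exact mul_ne_zero (hne 0 2 (by decide)) (hne 1 3 (by decide))
  have k12 : R.beta 1 - R.beta 2 ≠ 0 := by
    have : R.beta 1 - R.beta 2 = (R.r 0 - R.r 1) * (R.r 2 - R.r 3) := by rw [h1, h2]; ring
    rw [this]
    exact mul_ne_zero (hne 0 1 (by decide)) (hne 2 3 (by decide))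
  intro a b hab
  fin_cases a <;> fin_cases b
  · rfl
  · exact absurd (sub_eq_zero.2 hab) k01
  · exact absurd (sub_eq_zero.2 hab) k02
  · exact absurd (sub_eq_zero.2 hab.symm) k01
  · rfl
  · exact absurd (sub_eq_zero.2 hab) k12
  · exact absurd (sub_eq_zero.2 hab.symm) k02
  · exact absurd (sub_eq_zero.2 hab.symm) k12
  · rfl

lemma act_beta (g : H ≃ₐ[ℚ] H) (l l' : Fin 3) (h : R.π g * dz l * (R.π g)⁻¹ = dz l') :
    g (R.beta l) = R.beta l' := by
  unfold beta
  rw [map_div₀, map_sum, map_ofNat]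
  congr 1
  rw [← Equiv.sum_comp (R.π g) (fun i => R.r i * R.r (dz l' i))]
  refine Finset.sum_congr rfl fun i _ => ?_
  have h1 : dz l' (R.π g i) = R.π g (dz l i) := by
    rw [← h]
    simp
  rw [map_mul, R.act, R.act, h1]

lemma fix_beta (g : H ≃ₐ[ℚ] H) (l : Fin 3) :
    g (R.beta l) = R.beta l ↔ R.π g * dz l = dz l * R.π g := by
  obtain ⟨l', hl'⟩ := dz_conj (R.π g) l
  have h1 := R.act_beta g l l' hl'
  constructor
  · intro h
    have h2 : l' = l := R.beta_inj (by rw [← h1, h])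
    rw [h2] at hl'
    exact mul_inv_eq_iff_eq_mul.1 hl'
  · intro h
    exact R.act_beta g l l (by rw [mul_inv_eq_iff_eq_mul, h])

end Roots0

/-- the depressed quartic -/
noncomputable def quartic (u v w : ℚ) : ℚ[X] := X ^ 4 + C u * X ^ 2 + C v * X + C w

/-- its cubic resolvent -/
noncomputable def resolvent (u v w : ℚ) : ℚ[X] :=
  X ^ 3 - C u * X ^ 2 - C (4 * w) * X + C (4 * u * w - v ^ 2)

lemma quartic_deg (u v w : ℚ) : (quartic u v w).natDegree = 4 := by
  unfold quartic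
  compute_degree!

lemma resolvent_deg (u v w : ℚ) : (resolvent u v w).natDegree = 3 := by
  unfold resolvent
  compute_degree!

lemma quartic_eval (u v w : ℚ) {K : Type} [Field K] [CharZero K] (x : K) :
    aeval x (quartic u v w) = x ^ 4 + (u : K) * x ^ 2 + (v : K) * x + (w : K) := by
  simp [quartic]

lemma resolvent_eval (u v w : ℚ) {K : Type} [Field K] [CharZero K] (x : K) :
    aeval x (resolvent u v w) = x ^ 3 - (u : K) * x ^ 2 - 4 * (w : K) * x +
      (4 * (u : K) * (w : K) - (v : K) ^ 2) := by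
  simp [resolvent]

/-- the cubic resolvent has the roots `beta` -/
lemma resolvent_beta (u v w : ℚ) {H : Type} [Field H] [NumberField H] (R : Roots0 H 4)
    (hr : ∀ i, aeval (R.r i) (quartic u v w) = 0) (l : Fin 3) :
    aeval (R.beta l) (resolvent u v w) = 0 := by
  have hne : ∀ i k : Fin 4, i ≠ k → R.r i ≠ R.r k := fun i k h h' => h (R.inj h')
  have hr' := fun i => (quartic_eval u v w (R.r i)).symm.trans (hr i)
  obtain ⟨h3, hu, hv, hw⟩ := vieta4 (u : H) v w (R.r 0) (R.r 1) (R.r 2) (R.r 3)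
    (hne 0 1 (by decide)) (hne 0 2 (by decide)) (hne 0 3 (by decide)) (hne 1 2 (by decide))
    (hne 1 3 (by decide)) (hne 2 3 (by decide)) (hr' 0) (hr' 1) (hr' 2) (hr' 3)
  obtain ⟨b0, b1, b2⟩ := R.beta_val
  rw [resolvent_eval, hu, hv, hw]
  fin_cases l
  · change R.beta 0 ^ 3 - _ * R.beta 0 ^ 2 - _ * R.beta 0 + _ = 0
    rw [b0, h3]
    ring
  · change R.beta 1 ^ 3 - _ * R.beta 1 ^ 2 - _ * R.beta 1 + _ = 0
    rw [b1, h3]
    ring
  · change R.beta 2 ^ 3 - _ * R.beta 2 ^ 2 - _ * R.beta 2 + _ = 0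
    rw [b2, h3]
    ring

lemma quartic_sep (u v w : ℚ) (hirr : Irreducible (resolvent u v w)) :
    (quartic u v w).Separable := by
  have h1 : IsCoprime (resolvent u v w) (derivative (resolvent u v w)) := hirr.separable
  rw [isCoprime_iff_aeval_ne_zero_of_isAlgClosed ℚ ℂ] at h1
  change IsCoprime _ _
  rw [isCoprime_iff_aeval_ne_zero_of_isAlgClosed ℚ ℂ]
  intro x
  by_contra hcon
  push Not at hcon
  obtain ⟨hx1, hx2⟩ := hcon
  rw [quartic_eval] at hx1
  have hx2' : 4 * x ^ 3 + 2 * (u : ℂ) * x + v = 0 := by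
    have h3 : aeval x (derivative (quartic u v w)) = 4 * x ^ 3 + 2 * (u : ℂ) * x + v := by
      simp [quartic]
      ring
    rw [← h3]
    exact hx2
  have hv : (v : ℂ) = -(4 * x ^ 3 + 2 * (u : ℂ) * x) := by linear_combination hx2'
  have hw : (w : ℂ) = 3 * x ^ 4 + (u : ℂ) * x ^ 2 := by
    rw [hv] at hx1
    linear_combination hx1
  rcases h1 (-2 * x ^ 2) with h | h
  · apply h
    rw [resolvent_eval, hv, hw]
    ring
  · apply h
    have h3 : aeval (-2 * x ^ 2) (derivative (resolvent u v w)) =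
        3 * (-2 * x ^ 2) ^ 2 - 2 * (u : ℂ) * (-2 * x ^ 2) - 4 * w := by
      simp [resolvent, derivative_pow]
      ring
    rw [h3, hw]
    ring

/-- **Totally complex quartic fields and the cubic resolvent.** -/
theorem resolvent_reduction (u v w : ℚ) (hreal : ∀ x : ℝ, aeval x (quartic u v w) ≠ 0)
    (hirr : Irreducible (resolvent u v w)) {F : Type} [Field F] [NumberField F] (β : F)
    (hβ : aeval β (resolvent u v w) = 0) (hgen : IntermediateField.adjoin ℚ {β} = ⊤)
    (H : Type) [Field H] [NumberField H] [IsSplittingField ℚ H (quartic u v w)]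
    (p : ℕ) [Fact p.Prime] : Leopoldt H p ↔ Leopoldt F p := by
  classical
  obtain ⟨L, hL⟩ := exists_iwasawaLog p
  -- the quartic polynomial is separable
  have hsep := quartic_sep u v w hirr
  obtain ⟨hgal, R, hr⟩ := exists_roots0 (quartic u v w) hsep H 4 (quartic_deg u v w)
  have hj : ∀ l, ∃ φ : F →+* H, φ β = R.beta l := by
    intro l
    obtain ⟨φ, hφ⟩ := exists_hom β hgen _ hirr hβ H (R.beta l) (resolvent_beta u v w R hr l)
    exact ⟨φ.toRingHom, hφ⟩
  choose j hj using hj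
  have hQ : ∀ l g, R.π g * dz l = dz l * R.π g ↔ ∀ k, g (j l k) = j l k := by
    intro l g
    rw [← R.fix_beta]
    constructor
    · intro h k
      have h1 : (g : H →+* H).comp (j l) = j l := by
        apply hom_ext β hgen
        change g (j l β) = j l β
        rw [hj, h]
      exact congrArg (fun f : F →+* H => f k) h1
    · intro h
      have h1 := h β
      rwa [hj] at h1
  have hNR : R.NoReal := by
    intro φ i h
    have h1 : ∃ y : ℝ, (y : ℂ) = φ (R.r i) := Complex.conj_eq_iff_real.1 h |>.imp fun y hy => hy.symm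
    obtain ⟨y, hy⟩ := h1
    apply hreal y
    have h2 := (quartic_eval u v w (R.r i)).symm.trans (hr i)
    have h3 := congrArg φ h2
    simp only [map_add, map_mul, map_pow, map_ratCast, map_zero, ← hy] at h3
    rw [quartic_eval]
    exact_mod_cast h3
  have hdegF : finrank ℚ F = 3 := by
    rw [finrank_eq β hgen _ hirr hβ, resolvent_deg]
  -- the cubic field is totally real
  have hrankF : Units.rank F = 2 := by
    have h1 : Fintype.card { φ : F →+* ℂ // ¬ ComplexEmbedding.IsReal φ } = 0 := by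
      rw [Fintype.card_eq_zero_iff]
      refine ⟨fun ⟨ψ, hψ⟩ => hψ ?_⟩
      obtain ⟨φ, hφ⟩ := exists_extC (j 0) ψ
      obtain ⟨c, hc⟩ := exists_conj φ
      obtain ⟨k, hk⟩ := Roots0.conj_dz hNR φ c hc
      have h2 : R.π c * dz 0 = dz 0 * R.π c := by rw [hk]; exact dz_comm k 0
      rw [ComplexEmbedding.isReal_iff]
      ext y
      rw [ComplexEmbedding.conjugate_coe_eq, ← hφ]
      change starRingEnd ℂ (φ (j 0 y)) = φ (j 0 y)
      rw [← hc, (hQ 0 c).1 h2]
    rw [InfinitePlace.card_complex_embeddings] at h1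
    have h2 := InfinitePlace.card_eq_nrRealPlaces_add_nrComplexPlaces F
    have h3 := InfinitePlace.card_add_two_mul_card_eq_rank F
    rw [Units.rank]
    omega
  constructor
  · intro hH
    exact leopoldt_of_inj hL (inj_sub hL (j 0) (inj_of_leopoldt hL hH))
  · intro hF'
    have hF := inj_of_leopoldt hL hF'
    apply leopoldt_of_inj hL
    intro x hx
    refine case24 hL R.π R.faith hx (fun l => NS_emb hL (j l) hF hx (hQ l))
      (fun i => Roots0.NS_S hL hNR hx i) (fun l => ?_)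
    refine NS_rel hL (j l) hF (fun g => Cf l (R.π g)) (fun g => R.π g * dz l = dz l * R.π g) ((Cfs l).comap R.π)
      (fun g => Iff.rfl) (hQ l) (fun g => Cf_sub l _) ?_ ?_ hx
    · intro g h h1 h2 h3 h4
      rw [map_mul, map_inv]
      exact Cf_idx l _ _ h1 h2 h3 h4
    · rw [hrankF]
      exact Roots0.rank_Cf hNR l

end Pool.Agent.U332.LC
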