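import Mathlib
import Pool.Agent.U332.LC.M
import Pool.Agent.U332.LC.H

/-!
# Totally complex fields with Galois group `A_4` or `S_4`
-/

set_option autoImplicit false

namespace Pool.Agent.U332.LC

open NumberField Module Polynomial
open Equiv (Perm swap)
open Pool.Agent.H33R4 (spec fam fac)
open Pool.Agent.H637R2.Leo (Leopoldt)

/-- the quartic polynomials without real roots -/
lemma no_real (b b' : ℤ) (hb : b < 0) (hb' : 0 < b') (t : ℤ) (ht : 8 * |b + b'| + 3 < |t|) (x : ℝ) :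
    aeval x (quartic ((-2 * (b + b') * t : ℤ) : ℚ) (-8) (((b - b') ^ 2 * t ^ 2 : ℤ) : ℚ)) ≠ 0 := by
  rw [quartic_eval]
  have h1 : x ^ 4 + ((((-2 * (b + b') * t : ℤ) : ℚ)) : ℝ) * x ^ 2 + (((-8 : ℚ)) : ℝ) * x +
      ((((b - b') ^ 2 * t ^ 2 : ℤ) : ℚ) : ℝ) =
      (x ^ 2 - ((b : ℝ) + b') * t) ^ 2 + (4 * (-(b : ℝ) * b') * t ^ 2 - 8 * x) := by
    push_cast
    ring
  rw [h1]
  apply ne_of_gt
  have hbr : (b : ℝ) ≤ -1 := by exact_mod_cast (by omega : b ≤ -1)
  have hbr' : (1 : ℝ) ≤ b' := by exact_mod_cast (by omega : 1 ≤ b')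
  have hD : 1 ≤ -(b : ℝ) * b' := by nlinarith
  set T : ℝ := |(t : ℝ)| with hT
  set B : ℝ := |(b : ℝ) + b'| with hB
  have hB0 : 0 ≤ B := abs_nonneg _
  have hTB : 8 * B + 3 < T := by
    have h2 : ((8 * |b + b'| + 3 : ℤ) : ℝ) < ((|t| : ℤ) : ℝ) := by exact_mod_cast ht
    push_cast at h2
    exact h2
  have ht2 : (t : ℝ) ^ 2 = T ^ 2 := (sq_abs _).symm
  rw [ht2]
  by_cases hx : 2 * x < T ^ 2
  · have h2 : T ^ 2 ≤ (-(b : ℝ) * b') * T ^ 2 := by nlinarith [sq_nonneg T]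
    nlinarith [sq_nonneg (x ^ 2 - ((b : ℝ) + b') * t)]
  · push Not at hx
    have hT3 : 3 < T := by linarith
    have hx4 : 4 < x := by nlinarith
    have h3 : ((b : ℝ) + b') * t ≤ B * T := by
      rw [hB, hT, ← abs_mul]
      exact le_abs_self _
    have h4 : 2 * (B * T) ≤ x ^ 2 := by
      have h5 : 8 * (B * T) ≤ T ^ 2 := by nlinarith
      have h6 : T ^ 2 ≤ 4 * x ^ 2 := by nlinarith
      linarith
    have h5 : x ^ 2 / 2 ≤ x ^ 2 - ((b : ℝ) + b') * t := by linarith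
    have h6 : (x ^ 2 / 2) ^ 2 ≤ (x ^ 2 - ((b : ℝ) + b') * t) ^ 2 :=
      pow_le_pow_left₀ (by positivity) h5 2
    have h7 : 8 * x < (x ^ 2 / 2) ^ 2 := by
      have h8 : (x ^ 2 / 2) ^ 2 = x * (x * (x * x)) / 4 := by ring
      have h9 : 16 < x * x := by nlinarith
      have h10 : 64 < x * (x * x) := by nlinarith
      rw [h8]
      nlinarith
    have h8 : 0 < (-(b : ℝ) * b') * T ^ 2 := by positivity
    linarith

/-- the resolvent is the cubic family -/
lemma resolvent_comp (b b' t : ℤ) :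
    (resolvent ((-2 * (b + b') * t : ℤ) : ℚ) (-8) (((b - b') ^ 2 * t ^ 2 : ℤ) : ℚ)).comp
      (C 4 * X - C ((2 * (b + b') * t : ℤ) : ℚ)) =
    C 64 * (X * (X - C ((b * t : ℤ) : ℚ)) * (X - C ((b' * t : ℤ) : ℚ)) - 1) := by
  unfold resolvent
  simp only [sub_comp, add_comp, mul_comp, pow_comp, X_comp, C_comp]
  apply Polynomial.funext
  intro x
  simp only [eval_add, eval_sub, eval_mul, eval_pow, eval_X, eval_C, eval_one]
  push_cast
  ring

/-- the cubic family with `a = (0, b, b')` -/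
lemma cubic_member (b b' t : ℤ) (e c : Fin 0 → ℤ) :
    ratPoly (spec t (fam ![0, b, b'] e c)) =
      X * (X - C ((b * t : ℤ) : ℚ)) * (X - C ((b' * t : ℤ) : ℚ)) - 1 := by
  rw [spec_zero, Fin.prod_univ_three]
  unfold ratPoly
  simp

section V4

/-- the Klein group -/
def V4 : Subgroup (Perm (Fin 4)) where
  carrier := {s | s = 1 ∨ ∃ l, s = dz l}
  mul_mem' := by
    have h : ∀ s t : Perm (Fin 4), ((s = 1 ∨ ∃ l, s = dz l) ∧ (t = 1 ∨ ∃ l, t = dz l)) →
        (s * t = 1 ∨ ∃ l, s * t = dz l) := by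
      have h1 : ∀ k l : Fin 3, dz k * dz l = 1 ∨ ∃ m, dz k * dz l = dz m := by decide
      rintro s t ⟨rfl | ⟨k, rfl⟩, rfl | ⟨l, rfl⟩⟩
      · exact Or.inl (mul_one _)
      · exact Or.inr ⟨l, one_mul _⟩
      · exact Or.inr ⟨k, mul_one _⟩
      · exact h1 k l
    exact fun {a b} ha hb => h a b ⟨ha, hb⟩
  one_mem' := Or.inl rfl
  inv_mem' := by
    have h : ∀ l : Fin 3, (dz l)⁻¹ = dz l := by decide
    rintro s (rfl | ⟨l, rfl⟩)
    · exact Or.inl inv_one
    · exact Or.inr ⟨l, h l⟩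

lemma card_V4 : Nat.card V4 = 4 := by
  classical
  have h1 : (Finset.univ.filter fun s : Perm (Fin 4) => s = 1 ∨ ∃ l, s = dz l).card = 4 := by
    decide
  rw [Nat.card_eq_fintype_card, Fintype.card_subtype]
  refine Eq.trans ?_ h1
  congr 1
  ext s
  simp only [Finset.mem_filter, Finset.mem_univ, true_and]
  rfl

set_option maxRecDepth 20000 in
lemma three_conj : ∀ (s : Perm (Fin 4)), (s ^ 3 = 1 ∧ s ≠ 1) → ∀ k l : Fin 3,
    (dz l = dz k ∨ dz l = s * dz k * s⁻¹ ∨ dz l = s * (s * dz k * s⁻¹) * s⁻¹) := by decide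

end V4

/-- a group with an element of order three and a double transposition -/
lemma twelve_dvd {G : Type} [Group G] [Finite G] (π : G →* Perm (Fin 4))
    (hπ : Function.Injective π) (h3 : 3 ∣ Nat.card G) (c : G) (k : Fin 3) (hc : π c = dz k) :
    12 ∣ Nat.card G := by
  have _ : Fact (Nat.Prime 3) := ⟨Nat.prime_three⟩
  obtain ⟨s, hs⟩ := exists_prime_orderOf_dvd_card' 3 h3
  have hs1 : π s ^ 3 = 1 := by rw [← map_pow, ← hs, pow_orderOf_eq_one, map_one]
  have hs2 : π s ≠ 1 := by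
    intro h
    have h1 : s = 1 := hπ (by rw [h, map_one])
    rw [h1, orderOf_one] at hs
    omega
  have h4 : ∀ l, dz l ∈ π.range := by
    intro l
    rcases three_conj (π s) ⟨hs1, hs2⟩ k l with h | h | h
    · exact ⟨c, by rw [hc, h]⟩
    · exact ⟨s * c * s⁻¹, by rw [map_mul, map_mul, map_inv, hc, h]⟩
    · exact ⟨s * (s * c * s⁻¹) * s⁻¹, by
        rw [map_mul, map_mul, map_mul, map_mul, map_inv, hc, h]⟩
  have h5 : V4 ≤ π.range := by
    rintro x (rfl | ⟨l, rfl⟩)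
    · exact Subgroup.one_mem _
    · exact h4 l
  have h6 : 4 ∣ Nat.card G := by
    have h7 := Subgroup.card_dvd_of_le h5
    rw [card_V4, ← Nat.card_congr (MonoidHom.ofInjective hπ).toEquiv] at h7
    exact h7
  omega

/-- the degree of the Galois closure -/
theorem twelve (u v w : ℚ) (hreal : ∀ x : ℝ, aeval x (quartic u v w) ≠ 0)
    (hirr : Irreducible (resolvent u v w)) (H : Type) [Field H] [NumberField H]
    [IsSplittingField ℚ H (quartic u v w)] : 12 ∣ finrank ℚ H := by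
  classical
  have hsep := quartic_sep u v w hirr
  obtain ⟨hgal, R, hr⟩ := exists_roots0 (quartic u v w) hsep H 4 (quartic_deg u v w)
  have hNR : R.NoReal := by
    intro φ i h
    have h1 : ∃ y : ℝ, (y : ℂ) = φ (R.r i) := Complex.conj_eq_iff_real.1 h |>.imp fun y hy => hy.symm
    obtain ⟨y, hy⟩ := h1
    apply hreal y
    have h2 := (quartic_eval u v w (R.r i)).symm.trans (hr i)
    have h3 := congrArg φ h2
    simp only [map_add, map_mul, map_pow, map_ratCast, map_zero, ← hy] at h3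
    rw [quartic_eval]
    exact_mod_cast h3
  obtain ⟨φ⟩ : Nonempty (H →+* ℂ) := inferInstance
  obtain ⟨c, hc⟩ := exists_conj φ
  obtain ⟨k, hk⟩ := Roots0.conj_dz hNR φ c hc
  rw [← IsGalois.card_aut_eq_finrank]
  refine twelve_dvd R.π R.faith ?_ c k hk
  rw [IsGalois.card_aut_eq_finrank]
  have hint : IsIntegral ℚ (R.beta 0) := Algebra.IsIntegral.isIntegral _
  have h1 : (minpoly ℚ (R.beta 0)).natDegree = 3 := by
    rw [← minpoly.eq_of_irreducible hirr (resolvent_beta u v w R hr 0), natDegree_mul_C,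
      resolvent_deg]
    rw [Ne, inv_eq_zero, leadingCoeff_eq_zero]
    exact hirr.ne_zero
  rw [← h1]
  exact minpoly.degree_dvd hint

end Pool.Agent.U332.LC
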