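import Mathlib
import Pool.Agent.U332.LC.J
import Pool.Agent.U332.LC.N

/-!
# The final statements
-/

set_option autoImplicit false

namespace Pool.Agent.U332.LC

open NumberField Module Polynomial
open Pool.Agent.H33R4 (spec fam fac)
open Pool.Agent.H637R2.Leo (Leopoldt)

/-- the fields of the families are covered -/
theorem family_covered (r₁ r₂ : ℕ) (h : 1 ≤ r₁ + r₂) (a : Fin r₁ → ℤ) (b c : Fin r₂ → ℤ)
    (ha : Function.Injective a) (hs : Small r₁ r₂ a) (t : ℤ)
    (hirr : Irreducible (spec t (fam a b c))) {K : Type} [Field K] [NumberField K] (θ : K)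
    (hθ : aeval θ (spec t (fam a b c)) = 0) (hgen : IntermediateField.adjoin ℚ {θ} = ⊤)
    (h1 : InfinitePlace.nrRealPlaces K = r₁) (h2 : InfinitePlace.nrComplexPlaces K = r₂) :
    finrank ℚ K ≤ 3 ∨ finrank ℚ K = 4 ∧
      (InfinitePlace.nrRealPlaces K = 2 ∨ ∃ ι : K ≃ₐ[ℚ] K, ι ≠ 1 ∧ ι * ι = 1) := by
  have hm : (spec t (fam a b c)).Monic := (Pool.Agent.H33R4.fam_monic a b c h).map _
  have hi : Irreducible (ratPoly (spec t (fam a b c))) := ratPoly_irr hm hirr
  have h4 := InfinitePlace.card_add_two_mul_card_eq_rank K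
  rw [h1, h2] at h4
  rcases hs with hs | ⟨rfl, rfl⟩ | ⟨rfl, rfl, hs⟩
  · left
    omega
  · right
    exact ⟨by omega, Or.inl h1⟩
  · right
    refine ⟨by omega, Or.inr ?_⟩
    obtain ⟨ι, hι, hι2, -⟩ := exists_iota a b c ha hs t hi θ (by omega) hθ hgen
    exact ⟨ι, hι, hι2⟩

/-- the quartic family attached to the cubic family `(0, b, b')` -/
theorem attached24 (b b' : ℤ) (e c : Fin 0 → ℤ) (t : ℤ)
    (hi : Irreducible (spec t (fam ![0, b, b'] e c)))
    {K : Type} [Field K] [NumberField K] (θ : K) (hθ : aeval θ (spec t (fam ![0, b, b'] e c)) = 0)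
    (hgen : IntermediateField.adjoin ℚ {θ} = ⊤) :
    Irreducible (resolvent ((-2 * (b + b') * t : ℤ) : ℚ) (-8)
      (((b - b') ^ 2 * t ^ 2 : ℤ) : ℚ)) ∧
    ∃ β : K, aeval β (resolvent ((-2 * (b + b') * t : ℤ) : ℚ) (-8)
      (((b - b') ^ 2 * t ^ 2 : ℤ) : ℚ)) = 0 ∧ IntermediateField.adjoin ℚ {β} = ⊤ := by
  set u : ℚ := ((-2 * (b + b') * t : ℤ) : ℚ) with hu
  set w : ℚ := (((b - b') ^ 2 * t ^ 2 : ℤ) : ℚ) with hw
  have hm : (spec t (fam ![0, b, b'] e c)).Monic :=
    (Pool.Agent.H33R4.fam_monic ![0, b, b'] e c (by norm_num)).map _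
  have hirr0 := ratPoly_irr hm hi
  have hθ1 : aeval θ (ratPoly (spec t (fam ![0, b, b'] e c))) = 0 := by rw [ratPoly_aeval, hθ]
  have hdegK : finrank ℚ K = 3 := by
    rw [finrank_eq θ hgen _ hirr0 hθ1, cubic_member]
    compute_degree!
  set β : K := 4 * θ - ((2 * (b + b') * t : ℤ) : K) with hβ
  have hβ0 : aeval β (resolvent u (-8) w) = 0 := by
    have h1 := congrArg (aeval θ) (resolvent_comp b b' t)
    rw [aeval_comp, ← cubic_member b b' t e c, map_mul, hθ1, mul_zero] at h1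
    have h2 : aeval θ (C (4 : ℚ) * X - C ((2 * (b + b') * t : ℤ) : ℚ)) = β := by
      rw [hβ]
      simp
    rw [h2] at h1
    exact h1
  have hgenβ : IntermediateField.adjoin ℚ {β} = ⊤ := by
    rw [eq_top_iff, ← hgen, IntermediateField.adjoin_simple_le_iff]
    have h1 : θ = (β + ((2 * (b + b') * t : ℤ) : K)) / 4 := by
      rw [hβ]
      ring
    rw [h1]
    exact div_mem (add_mem (IntermediateField.mem_adjoin_simple_self ℚ β)
      (intCast_mem _ _)) (ofNat_mem _ 4)
  refine ⟨?_, β, hβ0, hgenβ⟩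
  have hint : IsIntegral ℚ β := Algebra.IsIntegral.isIntegral _
  have h1 : minpoly ℚ β ∣ resolvent u (-8) w := minpoly.dvd ℚ β hβ0
  have h2 : (minpoly ℚ β).natDegree = 3 := by
    rw [← IntermediateField.adjoin.finrank hint, hgenβ, IntermediateField.finrank_top', hdegK]
  have h3 : (resolvent u (-8) w).Monic := by
    unfold resolvent
    monicity!
  have h4 : minpoly ℚ β = resolvent u (-8) w :=
    (Polynomial.eq_of_monic_of_dvd_of_natDegree_le (minpoly.monic hint) h3 h1
      (by rw [h2, resolvent_deg])).symm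
  rw [← h4]
  exact minpoly.irreducible hint

end Pool.Agent.U332.LC
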