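import Mathlib
import Pool.Agent.U332.LC.G
import Pool.Agent.W332.SL7.Mono

/-!
# Leopoldt's conjecture for quadratic extensions: the relative units
-/

set_option autoImplicit false

namespace Pool.Agent.U332.LC

open NumberField Module TensorProduct Pool.Agent.W289.SL Filter Topology
open Pool.Agent.Y419.LC.LcpP Pool.Agent.Y419.LC.SigP
open Pool.Agent.H637R2.Leo (Leopoldt)
open Pool.Agent.W332.SL7

variable {p : ℕ} [hp : Fact p.Prime]
variable {L : ℂ_[p] → ℂ_[p]} (hL : IsIwasawaLog p L)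
variable {K E : Type} [Field K] [NumberField K] [Field E] [NumberField E] [Algebra K E]

open Classical in
/-- the sum over the Galois group of a relative extension -/
lemma sum_unitHom' [IsGalois K E] (u : Additive (𝓞 E)ˣ) :
    ∑ g : (E ≃ₐ[K] E), unitHom (g : E →+* E) u = unitInc K E (normU K E u) := by
  have : FiniteDimensional K E := FiniteDimensional.right ℚ K E
  apply Additive.toMul.injective
  apply Units.ext
  apply RingOfIntegers.ext
  rw [unitInc_apply]
  have h1 : (((Additive.toMul (normU K E u) : (𝓞 K)ˣ) : 𝓞 K) : K) =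
      Algebra.norm K (((Additive.toMul u : (𝓞 E)ˣ) : 𝓞 E) : E) := rfl
  rw [h1, Algebra.norm_eq_prod_automorphisms, toMul_sum, Units.coe_prod,
    RingOfIntegers.coe_eq_algebraMap, map_prod]
  rfl

open Classical in
include hL in
/-- the relative norm of a relation to a field with injective logarithms is zero -/
theorem norm_zero' [IsGalois K E] (hK : Inj hL K) {x : UM p E} (hx : IsRel hL x) :
    ∑ g : (E ≃ₐ[K] E), actLin p (g : E →+* E) x = 0 := by
  set N : UM p E →ₗ[ℂ_[p]] UM p K := (normU K E).toIntLinearMap.baseChange ℂ_[p] with hN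
  have key : ∀ y : UM p E, ∑ g : (E ≃ₐ[K] E), actLin p (g : E →+* E) y =
      incLin p K E (N y) := by
    intro y
    induction y using TensorProduct.induction_on with
    | zero => simp
    | add y z hy hz => simp only [map_add, Finset.sum_add_distrib, hy, hz]
    | tmul c u =>
      have h1 : N (c ⊗ₜ u) = c ⊗ₜ normU K E u := rfl
      rw [h1, incLin_tmul, ← sum_unitHom' (K := K) u, TensorProduct.tmul_sum]
      rfl
  rw [key]
  have h0 : N x = 0 := by
    apply hK
    intro σ
    obtain ⟨τ, hτ⟩ := exists_ext (H := E) σ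
    rw [← hτ, ← logLin_inc, ← key, map_sum]
    refine Finset.sum_eq_zero fun g _ => ?_
    exact hx.act hL _ τ
  rw [h0, map_zero]

/-- the relative units `u / τ u` -/
noncomputable def rel (τ : E →+* E) : Additive (𝓞 E)ˣ →+ Additive (𝓞 E)ˣ :=
  AddMonoidHom.id _ - unitHom τ

lemma rel_apply (τ : E →+* E) (u : Additive (𝓞 E)ˣ) : rel τ u = u - unitHom τ u := rfl

lemma rel_inc (τ : E →+* E) (hτ : ∀ k : K, τ (algebraMap K E k) = algebraMap K E k)
    (u : Additive (𝓞 K)ˣ) : rel τ (unitInc K E u) = 0 := by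
  rw [rel_apply, sub_eq_zero]
  apply Additive.toMul.injective
  apply Units.ext
  apply RingOfIntegers.ext
  rw [unitHom_apply, unitInc_apply]
  exact (hτ _).symm

/-- the rank of the group of relative units -/
lemma rank_rel (τ : E →+* E) (hτ : ∀ k : K, τ (algebraMap K E k) = algebraMap K E k) {r : ℕ}
    (u : Fin r → Additive (𝓞 E)ˣ) (hu : LinearIndependent ℤ (fun i => rel τ (u i))) :
    r + Units.rank K ≤ Units.rank E := by
  obtain ⟨e, he⟩ := exists_linearIndependent_of_le_finrank (R := ℤ) (M := Additive (𝓞 K)ˣ)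
    (n := Units.rank K) (by rw [Units.finrank_eq])
  set w : Fin r ⊕ Fin (Units.rank K) → Additive (𝓞 E)ˣ :=
    Sum.elim u (fun l => unitInc K E (e l)) with hw
  have h1 : LinearIndependent ℤ w := by
    rw [Fintype.linearIndependent_iff]
    intro g hg
    rw [Fintype.sum_sum_type] at hg
    simp only [hw, Sum.elim_inl, Sum.elim_inr] at hg
    have h2 := congrArg (rel τ) hg
    rw [map_add, map_zero, map_sum, map_sum] at h2
    have h3 : ∑ x, rel τ (g (Sum.inr x) • unitInc K E (e x)) = 0 := by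
      refine Finset.sum_eq_zero fun l _ => ?_
      rw [map_zsmul, rel_inc τ hτ, smul_zero]
    rw [h3, add_zero] at h2
    have h4 : ∑ x, g (Sum.inl x) • rel τ (u x) = 0 := by
      rw [← h2]
      exact Finset.sum_congr rfl fun l _ => (map_zsmul _ _ _).symm
    have h5 := (Fintype.linearIndependent_iff.1 hu) (fun l => g (Sum.inl l)) h4
    have h6 : ∑ x, g (Sum.inl x) • u x = 0 :=
      Finset.sum_eq_zero fun x _ => by rw [h5 x, zero_smul]
    rw [h6, zero_add] at hg
    have h7 : unitInc K E (∑ l, g (Sum.inr l) • e l) = 0 := by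
      rw [map_sum, ← hg]
      exact Finset.sum_congr rfl fun l _ => map_zsmul _ _ _
    have h8 : ∑ l, g (Sum.inr l) • e l = 0 := unitInc_injective (by rw [h7, map_zero])
    have h9 := (Fintype.linearIndependent_iff.1 he) (fun l => g (Sum.inr l)) h8
    rintro (i | i)
    · exact h5 i
    · exact h9 i
  have h3 := h1.fintype_card_le_finrank
  rw [Units.finrank_eq] at h3
  simpa using h3

/-- a maximal independent family of images -/
lemma exists_max {G : Type} [AddCommGroup G] (f : G →+ G) (m : ℕ)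
    (hbound : ∀ (r : ℕ) (u : Fin r → G), LinearIndependent ℤ (fun i => f (u i)) → r ≤ m) :
    ∃ (r : ℕ) (u : Fin r → G), r ≤ m ∧ ∀ v : G, ∃ (n : ℤ) (c : Fin r → ℤ),
      n ≠ 0 ∧ n • f v + ∑ i, c i • f (u i) = 0 := by
  classical
  let P : ℕ → Prop := fun r => ∃ u : Fin r → G, LinearIndependent ℤ (fun i => f (u i))
  have h0 : P 0 := ⟨Fin.elim0, linearIndependent_empty_type⟩
  have hPr : P (Nat.findGreatest P m) := Nat.findGreatest_spec (P := P) (Nat.zero_le m) h0
  have hmax : ¬ P (Nat.findGreatest P m + 1) := by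
    intro h
    obtain ⟨u, hu⟩ := h
    have h1 := hbound _ u hu
    have h2 := Nat.le_findGreatest (P := P) h1 ⟨u, hu⟩
    omega
  generalize Nat.findGreatest P m = r at hPr hmax
  obtain ⟨u, hu⟩ := hPr
  refine ⟨r, u, hbound r u hu, fun v => ?_⟩
  have h1 : ¬ LinearIndependent ℤ (fun i : Fin (r + 1) => f ((Fin.cons v u : Fin (r + 1) → G) i)) :=
    fun h => hmax ⟨Fin.cons v u, h⟩
  rw [Fintype.not_linearIndependent_iff] at h1
  obtain ⟨g, hg, i0, hi0⟩ := h1
  rw [Fin.sum_univ_succ] at hg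
  simp only [Fin.cons_zero, Fin.cons_succ] at hg
  refine ⟨g 0, fun i => g i.succ, ?_, hg⟩
  intro h
  rw [h, zero_smul, zero_add] at hg
  have h2 := (Fintype.linearIndependent_iff.1 hu) (fun i => g i.succ) hg
  rcases Fin.eq_zero_or_eq_succ i0 with rfl | ⟨j, rfl⟩
  · exact hi0 h
  · exact hi0 (h2 j)

lemma zsmul_tmul {G : Type} [AddCommGroup G] (n : ℤ) (z : G) :
    (n : ℂ_[p]) • ((1 : ℂ_[p]) ⊗ₜ[ℤ] z : ℂ_[p] ⊗[ℤ] G) = (1 : ℂ_[p]) ⊗ₜ[ℤ] (n • z) := by
  rw [TensorProduct.tmul_smul, TensorProduct.smul_tmul', TensorProduct.smul_tmul']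
  congr 1
  rw [smul_eq_mul, mul_one, zsmul_eq_mul, mul_one]

/-- coordinates of an element of the minus part -/
lemma coords_rel {m : ℕ} (τ : E →+* E) (hτ : ∀ k : K, τ (algebraMap K E k) = algebraMap K E k)
    (hr : Units.rank E ≤ Units.rank K + m) (x : UM p E) (hx : actLin p τ x = -x) :
    ∃ A : QSub ℂ_[p], FinQ A ∧ dimQ A ≤ m ∧ HasCoords A x := by
  -- a maximal independent family of relative units
  obtain ⟨r, u, hrm, hmax⟩ := exists_max (rel τ) m fun r u hu => by
    have := rank_rel (K := K) τ hτ u hu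
    omega
  -- every relative unit is a combination
  have hspan : ∀ v : Additive (𝓞 E)ˣ, ((1 : ℂ_[p]) ⊗ₜ[ℤ] rel τ v : UM p E) ∈
      Submodule.span ℂ_[p] (Set.range fun i => ((1 : ℂ_[p]) ⊗ₜ[ℤ] rel τ (u i) : UM p E)) := by
    intro v
    obtain ⟨n, c, hn, h1⟩ := hmax v
    have h2 : (n : ℂ_[p]) • ((1 : ℂ_[p]) ⊗ₜ[ℤ] rel τ v : UM p E) +
        ∑ i, (c i : ℂ_[p]) • ((1 : ℂ_[p]) ⊗ₜ[ℤ] rel τ (u i) : UM p E) = 0 := by
      simp only [zsmul_tmul]
      rw [← TensorProduct.tmul_sum, ← TensorProduct.tmul_add, h1, TensorProduct.tmul_zero]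
    have hn' : (n : ℂ_[p]) ≠ 0 := by exact_mod_cast hn
    have h4 : ((1 : ℂ_[p]) ⊗ₜ[ℤ] rel τ v : UM p E) =
        (n : ℂ_[p])⁻¹ • -∑ i, (c i : ℂ_[p]) • ((1 : ℂ_[p]) ⊗ₜ[ℤ] rel τ (u i) : UM p E) := by
      rw [← eq_neg_of_add_eq_zero_left h2, smul_smul, inv_mul_cancel₀ hn', one_smul]
    rw [h4]
    apply Submodule.smul_mem
    apply Submodule.neg_mem
    exact Submodule.sum_mem _ fun i _ => Submodule.smul_mem _ _
      (Submodule.subset_span (Set.mem_range_self i))
  have h2x : ∀ y : UM p E, y - actLin p τ y ∈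
      Submodule.span ℂ_[p] (Set.range fun i => ((1 : ℂ_[p]) ⊗ₜ[ℤ] rel τ (u i) : UM p E)) := by
    intro y
    induction y using TensorProduct.induction_on with
    | zero => simp
    | add y z hy hz =>
      rw [map_add, add_sub_add_comm]
      exact Submodule.add_mem _ hy hz
    | tmul c v =>
      rw [actLin_tmul]
      have h3 : (c ⊗ₜ[ℤ] v - c ⊗ₜ[ℤ] unitHom τ v : UM p E) =
          c • ((1 : ℂ_[p]) ⊗ₜ[ℤ] rel τ v) := by
        rw [rel_apply, ← TensorProduct.tmul_sub, TensorProduct.smul_tmul', smul_eq_mul, mul_one]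
      rw [h3]
      exact Submodule.smul_mem _ _ (hspan v)
  have hx2 : x ∈ Submodule.span ℂ_[p]
      (Set.range fun i => ((1 : ℂ_[p]) ⊗ₜ[ℤ] rel τ (u i) : UM p E)) := by
    have h3 := h2x x
    rw [hx, sub_neg_eq_add, ← two_smul ℂ_[p] x] at h3
    have h4 := Submodule.smul_mem _ ((2 : ℂ_[p])⁻¹) h3
    rwa [smul_smul, inv_mul_cancel₀ two_ne_zero, one_smul] at h4
  rw [Submodule.mem_span_range_iff_exists_fun] at hx2
  obtain ⟨c, hc⟩ := hx2
  refine ⟨Submodule.span (algebraicClosure ℚ ℂ_[p]) (Set.range c), ?_, ?_, ?_⟩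
  · exact FiniteDimensional.span_of_finite _ (Set.finite_range c)
  · have h3 : dimQ (Submodule.span (algebraicClosure ℚ ℂ_[p]) (Set.range c)) ≤ r := by
      unfold dimQ
      refine (finrank_range_le_card c).trans ?_
      simp
    exact h3.trans hrm
  · rw [← hc]
    refine AddSubmonoid.sum_mem _ fun i _ => AddSubmonoid.subset_closure ?_
    refine ⟨c i, Submodule.subset_span (Set.mem_range_self i), rel τ (u i), ?_⟩
    rw [TensorProduct.smul_tmul', smul_eq_mul, mul_one]

end Pool.Agent.U332.LC
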