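import Mathlib
import Pool.Agent.U332.LC.Q1

/-!
# Leopoldt's conjecture for quadratic extensions: the theorem of Waldschmidt and Roy
-/

set_option autoImplicit false

namespace Pool.Agent.U332.LC

open NumberField Module TensorProduct Pool.Agent.W289.SL Filter Topology
open Pool.Agent.Y419.LC.LcpP Pool.Agent.Y419.LC.SigP
open Pool.Agent.H637R2.Leo (Leopoldt)
open Pool.Agent.W332.SL7

open Classical in
/-- the nontrivial character of a group of order two -/
noncomputable def quadChar (p : ℕ) [Fact p.Prime] {G : Type} [Group G]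
    (h : ∀ a b : G, a ≠ 1 → b ≠ 1 → a * b = 1) : G →* ℂ_[p]ˣ where
  toFun g := if g = 1 then 1 else -1
  map_one' := if_pos rfl
  map_mul' a b := by
    by_cases ha : a = 1
    · subst ha
      simp
    · by_cases hb : b = 1
      · subst hb
        simp
      · rw [if_pos (h a b ha hb), if_neg ha, if_neg hb]
        simp

variable {p : ℕ} [hp : Fact p.Prime]
variable {L : ℂ_[p] → ℂ_[p]} (hL : IsIwasawaLog p L)
variable {K E : Type} [Field K] [NumberField K] [Field E] [NumberField E] [Algebra K E]

include hL in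
/-- **Quadratic extensions, with the character.** -/
theorem inj_quad [IsGalois K E] (τ : E ≃ₐ[K] E) (hτ1 : τ ≠ 1) (hτ : ∀ g : E ≃ₐ[K] E, g = 1 ∨ g = τ)
    (χ : (E ≃ₐ[K] E) →* ℂ_[p]ˣ) (hχ : χ τ = -1) (S : Set (K →+* ℂ_[p]))
    (hS : Separates p K E S χ) {m : ℕ} (hr : Units.rank E ≤ Units.rank K + m)
    (hm : m * (m - 1) < S.ncard) (hK : Inj hL K) : Inj hL E := by
  have : FiniteDimensional K E := FiniteDimensional.right ℚ K E
  intro x hx
  by_contra hx0
  have hone : actLin p (((1 : E ≃ₐ[K] E) : E ≃ₐ[K] E) : E →+* E) x = x := by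
    induction x using TensorProduct.induction_on with
    | zero => simp
    | add x y hx hy =>
      clear hx hy
      have key : ∀ z : UM p E, actLin p (((1 : E ≃ₐ[K] E) : E ≃ₐ[K] E) : E →+* E) z = z := by
        intro z
        induction z using TensorProduct.induction_on with
        | zero => simp
        | add x y hx hy => rw [map_add, hx, hy]
        | tmul c u =>
          rw [actLin_tmul]
          exact congrArg (fun v => c ⊗ₜ[ℤ] v) (unitHom_id u)
      exact key _
    | tmul c u =>
      rw [actLin_tmul]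
      exact congrArg (fun v => c ⊗ₜ[ℤ] v) (unitHom_id u)
  have h1 : x + actLin p (τ : E →+* E) x = 0 := by
    classical
    have h2 := norm_zero' hL hK hx
    have h3 : (Finset.univ : Finset (E ≃ₐ[K] E)) = {1, τ} := by
      ext g
      simpa using hτ g
    rw [h3, Finset.sum_pair (Ne.symm hτ1), hone] at h2
    exact h2
  have hminus : actLin p (τ : E →+* E) x = -x := by
    rw [eq_neg_iff_add_eq_zero, add_comm]
    exact h1
  obtain ⟨A, hA, hAd, hAx⟩ := coords_rel (K := K) (τ : E →+* E) (fun k => τ.commutes k) hr x hminus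
  have hchi : ∀ g : E ≃ₐ[K] E, actLin p (g : E →+* E) x = ((χ g : ℂ_[p]ˣ) : ℂ_[p]) • x := by
    intro g
    rcases hτ g with rfl | rfl
    · rw [hone, map_one, Units.val_one, one_smul]
    · rw [hminus, hχ, Units.val_neg, Units.val_one, neg_smul, one_smul]
  have hb : Bounds A (S.ncard * 1) :=
    bounds_of A hA _ (coords_ne_bot hx0 hAx) fun A' hA' hle B hB s e hs he => by
      have i1 : FiniteDimensional (algebraicClosure ℚ ℂ_[p]) A' := hA'
      have i2 : FiniteDimensional (algebraicClosure ℚ ℂ_[p]) B := hB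
      exact main_ineq K E χ S hS L hL 1 (fun _ => x) (fun _ => hchi)
        (linearIndependent_unique_iff.2 hx0) (fun _ σ _ => hx σ) A' B
        (fun _ => coords_mono hle hAx) s e hs he
  have h5 := hb.dim
  have h6 : dimQ A * (dimQ A - 1) ≤ m * (m - 1) :=
    Nat.mul_le_mul hAd (Nat.sub_le_sub_right hAd 1)
  omega

end Pool.Agent.U332.LC
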