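import Mathlib
import Pool.Agent.U332.LC.Q2

/-!
# Automorphisms of `ℂ_p` and of `ℂ`
-/

set_option autoImplicit false

namespace Pool.Agent.U332.LC

open NumberField Module Cardinal

/-- two embeddings of a number field into algebraically closed fields of the same uncountable
cardinality differ by an isomorphism -/
theorem exists_equiv0 {M Ω₁ Ω₂ : Type} [Field M] [NumberField M] [Field Ω₁] [Field Ω₂]
    [Algebra M Ω₁] [Algebra M Ω₂] [IsAlgClosed Ω₁] [IsAlgClosed Ω₂] (h1 : ℵ₀ < #Ω₁)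
    (h2 : #Ω₁ = #Ω₂) :
    ∃ g : Ω₁ ≃+* Ω₂, ∀ x : M, g (algebraMap M Ω₁ x) = algebraMap M Ω₂ x := by
  obtain ⟨s, hs⟩ := exists_isTranscendenceBasis M Ω₁
  obtain ⟨t, ht⟩ := exists_isTranscendenceBasis M Ω₂
  have hc : Countable M :=
    (Module.finBasis ℚ M).equivFun.toEquiv.injective.countable
  have hM : #M ≤ ℵ₀ := Cardinal.mk_le_aleph0
  have hst : #s = #t := by
    rw [← IsAlgClosed.cardinal_eq_cardinal_transcendence_basis_of_aleph0_lt' _ hs hM h1,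
      ← IsAlgClosed.cardinal_eq_cardinal_transcendence_basis_of_aleph0_lt' _ ht hM (h2 ▸ h1), h2]
  obtain ⟨e⟩ := Cardinal.eq.1 hst
  letI := IsAlgClosed.isAlgClosure_of_transcendence_basis _ hs
  letI := IsAlgClosed.isAlgClosure_of_transcendence_basis _ ht
  let e' : Algebra.adjoin M (Set.range ((↑) : s → Ω₁)) ≃ₐ[M]
      Algebra.adjoin M (Set.range ((↑) : t → Ω₂)) :=
    hs.1.aevalEquiv.symm.trans ((MvPolynomial.renameEquiv M e).trans ht.1.aevalEquiv)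
  refine ⟨IsAlgClosure.equivOfEquiv Ω₁ Ω₂ e'.toRingEquiv, fun x => ?_⟩
  have h := IsAlgClosure.equivOfEquiv_algebraMap Ω₁ Ω₂ e'.toRingEquiv (algebraMap M _ x)
  have h3 : e'.toRingEquiv (algebraMap M _ x) = algebraMap M _ x := e'.commutes x
  rw [h3] at h
  exact h

/-- two embeddings of a number field into algebraically closed fields of the same uncountable
cardinality differ by an isomorphism -/
theorem exists_equiv {M Ω₁ Ω₂ : Type} [Field M] [NumberField M] [Field Ω₁] [Field Ω₂]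
    [IsAlgClosed Ω₁] [IsAlgClosed Ω₂] (h1 : ℵ₀ < #Ω₁) (h2 : #Ω₁ = #Ω₂) (i : M →+* Ω₁)
    (j : M →+* Ω₂) : ∃ g : Ω₁ ≃+* Ω₂, (g : Ω₁ →+* Ω₂).comp i = j := by
  obtain ⟨g, hg⟩ := @exists_equiv0 M Ω₁ Ω₂ _ _ _ _ i.toAlgebra j.toAlgebra _ _ h1 h2
  exact ⟨g, RingHom.ext hg⟩

lemma mk_cp (p : ℕ) [Fact p.Prime] : #ℂ_[p] = #ℂ := by
  rw [Pool.Agent.W254.PA.mk_complex p, Cardinal.mk_complex]

lemma mk_cp_lt (p : ℕ) [Fact p.Prime] : ℵ₀ < #ℂ_[p] := by
  rw [Pool.Agent.W254.PA.mk_complex p]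
  exact aleph0_lt_continuum

/-- automorphisms of `ℂ_p` act transitively on the embeddings of a number field -/
theorem exists_cp {M : Type} [Field M] [NumberField M] {p : ℕ} [Fact p.Prime]
    (i j : M →+* ℂ_[p]) : ∃ g : ℂ_[p] ≃+* ℂ_[p], (g : ℂ_[p] →+* ℂ_[p]).comp i = j :=
  exists_equiv (mk_cp_lt p) rfl i j

end Pool.Agent.U332.LC
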