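import Mathlib
import Pool.Agent.U332.LC.Q3

/-!
# Quadratic extensions of totally real fields: separated embeddings
-/

set_option autoImplicit false

namespace Pool.Agent.U332.LC

open NumberField Module
open Pool.Agent.W332.SL7 (Separates)

/-- classes of the same size -/
lemma classes {X : Type} [Fintype X] (r : Setoid X) (b : ℕ)
    (hb : ∀ x, {y | r x y}.ncard = b) (P : Set X) (hP : ∀ x y, r x y → x ∈ P → y ∈ P) :
    b ∣ P.ncard ∧ Nat.card (Quotient r) * b = Fintype.card X := by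
  classical
  have key : ∀ P : Set X, (∀ x y, r x y → x ∈ P → y ∈ P) →
      P.ncard = (P.toFinset.image (Quotient.mk r)).card * b := by
    intro P hP
    rw [Set.ncard_eq_toFinset_card' P,
      Finset.card_eq_sum_card_fiberwise (f := Quotient.mk r) (s := P.toFinset)
        (t := P.toFinset.image (Quotient.mk r)) (fun x hx => Finset.mem_image_of_mem _ hx)]
    rw [Finset.sum_const_nat (m := b)]
    intro q hq
    obtain ⟨x, hx, rfl⟩ := Finset.mem_image.1 hq
    rw [← hb x, Set.ncard_eq_toFinset_card']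
    congr 1
    ext y
    simp only [Finset.mem_filter, Set.mem_toFinset, Set.mem_ofPred_eq]
    constructor
    · rintro ⟨-, h⟩
      exact r.symm (Quotient.exact h)
    · intro h
      exact ⟨hP x y h (Set.mem_toFinset.1 hx), Quotient.sound (r.symm h)⟩
  constructor
  · rw [key P hP]
    exact Dvd.intro_left _ rfl
  · have h1 := key Set.univ (fun _ _ _ _ => Set.mem_univ _)
    rw [Set.ncard_univ, Nat.card_eq_fintype_card] at h1
    rw [h1]
    congr 1
    rw [Nat.card_eq_fintype_card, ← Finset.card_univ]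
    congr 1
    ext q
    simp only [Finset.mem_univ, Set.toFinset_univ, Finset.mem_image, true_and, true_iff]
    exact Quotient.exists_rep q

section

variable {Ω : Type} [Field Ω]

/-- automorphisms which fix all the conjugates of `K` -/
def FixAll (K : Type) [Field K] (g : Ω ≃+* Ω) : Prop :=
  ∀ ρ : K →+* Ω, (g : Ω →+* Ω).comp ρ = ρ

/-- the automorphism acts trivially on the conjugates of `E` over `σ` -/
def Triv {K : Type} (E : Type) [Field K] [Field E] [Algebra K E] (g : Ω ≃+* Ω) (σ : K →+* Ω) :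
    Prop :=
  ∀ s : E →+* Ω, s.comp (algebraMap K E) = σ → (g : Ω →+* Ω).comp s = s

/-- conjugation -/
def cj (h g : Ω ≃+* Ω) : Ω ≃+* Ω := h.trans (g.trans h.symm)

lemma cj_apply (h g : Ω ≃+* Ω) (x : Ω) : cj h g x = h.symm (g (h x)) := rfl

variable {K E : Type} [Field K] [Field E] [Algebra K E]

lemma fixAll_cj {g : Ω ≃+* Ω} (hg : FixAll K g) (h : Ω ≃+* Ω) : FixAll K (cj h g) := by
  intro ρ
  ext x
  have h1 := RingHom.congr_fun (hg ((h : Ω →+* Ω).comp ρ)) x
  change g (h (ρ x)) = h (ρ x) at h1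
  change h.symm (g (h (ρ x))) = ρ x
  rw [h1, h.symm_apply_apply]

lemma triv_cj (g h : Ω ≃+* Ω) (σ : K →+* Ω) :
    Triv E g ((h : Ω →+* Ω).comp σ) ↔ Triv E (cj h g) σ := by
  constructor
  · intro H s hs
    ext x
    have h1 := RingHom.congr_fun (H ((h : Ω →+* Ω).comp s) (by rw [RingHom.comp_assoc, hs])) x
    change g (h (s x)) = h (s x) at h1
    change h.symm (g (h (s x))) = s x
    rw [h1, h.symm_apply_apply]
  · intro H s hs
    ext x
    have h1 := RingHom.congr_fun (H ((h.symm : Ω →+* Ω).comp s) (by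
      rw [RingHom.comp_assoc, hs]
      ext y
      exact h.symm_apply_apply _)) x
    change h.symm (g (h (h.symm (s x)))) = h.symm (s x) at h1
    rw [h.apply_symm_apply] at h1
    exact h.symm.injective h1

/-- the same characters -/
def rl (Ω K E : Type) [Field Ω] [Field K] [Field E] [Algebra K E] : Setoid (K →+* Ω) where
  r σ σ' := ∀ g : Ω ≃+* Ω, FixAll K g → (Triv E g σ ↔ Triv E g σ')
  iseqv := ⟨fun _ _ _ => Iff.rfl, fun h g hg => (h g hg).symm,
    fun h h' g hg => (h g hg).trans (h' g hg)⟩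

lemma rl_comp {σ σ' : K →+* Ω} (H : rl Ω K E σ σ') (h : Ω ≃+* Ω) :
    rl Ω K E ((h : Ω →+* Ω).comp σ) ((h : Ω →+* Ω).comp σ') := by
  intro g hg
  rw [triv_cj, triv_cj]
  exact H _ (fixAll_cj hg h)

lemma comp_inj (h : Ω ≃+* Ω) {σ σ' : K →+* Ω} (H : (h : Ω →+* Ω).comp σ = (h : Ω →+* Ω).comp σ') :
    σ = σ' := by
  ext x
  exact h.injective (RingHom.congr_fun H x)

lemma triv_of [NumberField K] [NumberField E] [IsGalois K E] {g : Ω ≃+* Ω} {s : E →+* Ω}
    (h : (g : Ω →+* Ω).comp s = s) : Triv E g (s.comp (algebraMap K E)) := by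
  intro s' hs'
  obtain ⟨τ, hτ⟩ := Pool.Agent.W332.SL6.exists_aut s' s hs'
  rw [hτ, ← RingHom.comp_assoc, h]

end

variable {p : ℕ} [Fact p.Prime]
variable {K E : Type} [Field K] [NumberField K] [Field E] [NumberField E] [Algebra K E]

/-- representatives of the classes are separated -/
theorem exists_sep [IsGalois K E] (τ : E ≃ₐ[K] E) (hτ : ∀ g : E ≃ₐ[K] E, g = 1 ∨ g = τ)
    (χ : (E ≃ₐ[K] E) →* ℂ_[p]ˣ) (hχ : χ τ = -1) (c : ℂ_[p] ≃+* ℂ_[p]) (hc : FixAll K c) :
    ∃ (S : Set (K →+* ℂ_[p])) (b : ℕ), Separates p K E S χ ∧ S.ncard * b = finrank ℚ K ∧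
      b ∣ {σ : K →+* ℂ_[p] | Triv E c σ}.ncard := by
  classical
  have hX : Fintype.card (K →+* ℂ_[p]) = finrank ℚ K := NumberField.Embeddings.card K ℂ_[p]
  obtain ⟨σ0⟩ := exists_emb p K
  have hb : ∀ σ : K →+* ℂ_[p], {σ' | rl ℂ_[p] K E σ σ'}.ncard =
      {σ' | rl ℂ_[p] K E σ0 σ'}.ncard := by
    have key : ∀ σ1 σ2 : K →+* ℂ_[p], {σ' | rl ℂ_[p] K E σ1 σ'}.ncard ≤
        {σ' | rl ℂ_[p] K E σ2 σ'}.ncard := by
      intro σ1 σ2
      obtain ⟨h, hh⟩ := exists_cp σ1 σ2
      refine Set.ncard_le_ncard_of_injOn (fun σ => (h : ℂ_[p] →+* ℂ_[p]).comp σ) ?_ ?_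
        (Set.toFinite _)
      · intro σ hσ
        have h1 := rl_comp (show rl ℂ_[p] K E σ1 σ from hσ) h
        rw [hh] at h1
        exact h1
      · intro σ _ σ' _ H
        exact comp_inj h H
    intro σ
    exact le_antisymm (key _ _) (key _ _)
  set b := {σ' | rl ℂ_[p] K E σ0 σ'}.ncard with hbdef
  obtain ⟨h1, h2⟩ := classes (rl ℂ_[p] K E) b hb {σ | Triv E c σ}
    (fun σ σ' H hσ => (H c hc).1 hσ)
  refine ⟨Set.range (Quotient.out : Quotient (rl ℂ_[p] K E) → _), b, ?_, ?_, h1⟩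
  · rintro s s' ⟨q, hq⟩ ⟨q', hq'⟩ hne
    have h3 : ¬ rl ℂ_[p] K E (s.comp (algebraMap K E)) (s'.comp (algebraMap K E)) := by
      intro H
      apply hne
      rw [← hq, ← hq'] at H ⊢
      have h4 := Quotient.sound H
      rw [Quotient.out_eq, Quotient.out_eq] at h4
      rw [h4]
    have h3' : ∃ g : ℂ_[p] ≃+* ℂ_[p], FixAll K g ∧ ¬ (Triv E g (s.comp (algebraMap K E)) ↔
        Triv E g (s'.comp (algebraMap K E))) := by
      by_contra hcon
      push Not at hcon
      exact h3 fun g hg => by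
        have := hcon g hg
        tauto
    obtain ⟨g, hg, hg2⟩ := h3'
    have key : ∀ s : E →+* ℂ_[p], ∃ h : E ≃ₐ[K] E,
        (g : ℂ_[p] →+* ℂ_[p]).comp s = s.comp (h : E →+* E) ∧
        (h = 1 ↔ Triv E g (s.comp (algebraMap K E))) := by
      intro s
      obtain ⟨h, hh⟩ := Pool.Agent.W332.SL6.exists_aut (K := K) ((g : ℂ_[p] →+* ℂ_[p]).comp s) s
        (by rw [RingHom.comp_assoc]; exact hg _)
      refine ⟨h, hh, ?_, ?_⟩
      · rintro rfl
        apply triv_of
        rw [hh]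
        ext x
        rfl
      · intro H
        have h5 := H s rfl
        rw [hh] at h5
        ext x
        exact s.injective (RingHom.congr_fun h5 x)
    obtain ⟨h, hh, hh2⟩ := key s
    obtain ⟨h', hh', hh2'⟩ := key s'
    refine ⟨g, h, h', hh, hh', ?_⟩
    intro H
    apply hg2
    rw [← hh2, ← hh2']
    have hχ1 : χ 1 ≠ χ τ := by
      rw [map_one, hχ]
      intro h5
      have h6 := congrArg (fun u : ℂ_[p]ˣ => (u : ℂ_[p])) h5
      simp only [Units.val_one, Units.val_neg] at h6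
      have h7 : (2 : ℂ_[p]) = 0 := by linear_combination h6
      exact two_ne_zero h7
    rcases hτ h with rfl | rfl <;> rcases hτ h' with rfl | rfl
    · exact Iff.rfl
    · exact absurd H hχ1
    · exact absurd H.symm hχ1
    · exact Iff.rfl
  · rw [← hX, ← h2, ← Set.image_univ, Set.ncard_image_of_injective _ Quotient.out_injective,
      Set.ncard_univ]

end Pool.Agent.U332.LC
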