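import Mathlib
import Pool.Agent.U332.LC.Q4

/-!
# Quadratic extensions of totally real fields
-/

set_option autoImplicit false

namespace Pool.Agent.U332.LC

open NumberField Module
open Pool.Agent.W332.SL7 (Separates)
open Pool.Agent.W289.SL (IsIwasawaLog)
open Pool.Agent.Y419.LC.LcpP Pool.Agent.Y419.LC.SigP
open Pool.Agent.H637R2.Leo (Leopoldt)

variable {p : ℕ} [Fact p.Prime]
variable {K E : Type} [Field K] [NumberField K] [Field E] [NumberField E] [Algebra K E]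

lemma card_triv [IsGalois K E] (τ : E ≃ₐ[K] E) (hτ1 : τ ≠ 1) (hτ : ∀ g : E ≃ₐ[K] E, g = 1 ∨ g = τ)
    (c : ℂ_[p] ≃+* ℂ_[p]) :
    {s : E →+* ℂ_[p] | (c : ℂ_[p] →+* ℂ_[p]).comp s = s}.ncard =
      {σ : K →+* ℂ_[p] | Triv E c σ}.ncard * 2 := by
  classical
  rw [Set.ncard_eq_toFinset_card', Set.ncard_eq_toFinset_card',
    Finset.card_eq_sum_card_fiberwise (f := fun s : E →+* ℂ_[p] => s.comp (algebraMap K E))
      (t := {σ : K →+* ℂ_[p] | Triv E c σ}.toFinset) (fun s hs => by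
        simp only [Set.coe_toFinset, Set.mem_ofPred_eq] at hs ⊢
        exact triv_of hs)]
  rw [Finset.sum_const_nat (m := 2)]
  intro σ hσ
  have hσ' : Triv E c σ := by simpa using hσ
  obtain ⟨s0, hs0⟩ := Pool.Agent.W332.SL6.exists_ext (H := E) σ
  have hfib : {s ∈ {s : E →+* ℂ_[p] | (c : ℂ_[p] →+* ℂ_[p]).comp s = s}.toFinset |
      s.comp (algebraMap K E) = σ} = {s0, s0.comp (τ : E →+* E)} := by
    ext s
    simp only [Finset.mem_filter, Set.mem_toFinset, Set.mem_ofPred_eq, Finset.mem_insert,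
      Finset.mem_singleton]
    constructor
    · rintro ⟨-, h⟩
      obtain ⟨g, hg⟩ := Pool.Agent.W332.SL6.exists_aut (K := K) s s0 (h.trans hs0.symm)
      rcases hτ g with rfl | rfl
      · left
        rw [hg]
        rfl
      · right
        exact hg
    · rintro (rfl | rfl)
      · exact ⟨hσ' _ hs0, hs0⟩
      · have h1 : (s0.comp (τ : E →+* E)).comp (algebraMap K E) = σ := by
          rw [← hs0]
          ext x
          exact congrArg s0 (τ.commutes x)
        exact ⟨hσ' _ h1, h1⟩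
  have hne : s0 ≠ s0.comp (τ : E →+* E) := by
    intro h
    apply hτ1
    ext x
    exact (s0.injective (RingHom.congr_fun h x)).symm
  rw [hfib, Finset.card_pair hne]

/-- complex conjugation as an automorphism of `ℂ_p` -/
noncomputable def cc (θ : ℂ_[p] ≃+* ℂ) : ℂ_[p] ≃+* ℂ_[p] :=
  θ.trans ((starRingAut : ℂ ≃+* ℂ).trans θ.symm)

lemma cc_apply (θ : ℂ_[p] ≃+* ℂ) (x : ℂ_[p]) : cc θ x = θ.symm (starRingEnd ℂ (θ x)) := rfl

lemma cc_comp_iff (θ : ℂ_[p] ≃+* ℂ) {M : Type} [Field M] (s : M →+* ℂ_[p]) :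
    (cc θ : ℂ_[p] →+* ℂ_[p]).comp s = s ↔
      ComplexEmbedding.IsReal ((θ : ℂ_[p] →+* ℂ).comp s) := by
  rw [ComplexEmbedding.isReal_iff]
  constructor
  · intro h
    ext x
    have h1 := RingHom.congr_fun h x
    change cc θ (s x) = s x at h1
    rw [cc_apply, RingEquiv.symm_apply_eq] at h1
    rw [ComplexEmbedding.conjugate_coe_eq]
    exact h1
  · intro h
    ext x
    have h1 := RingHom.congr_fun h x
    rw [ComplexEmbedding.conjugate_coe_eq] at h1
    change cc θ (s x) = s x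
    rw [cc_apply, RingEquiv.symm_apply_eq]
    exact h1

lemma cc_fix [IsTotallyReal K] (θ : ℂ_[p] ≃+* ℂ) : FixAll K (cc θ) := by
  intro ρ
  rw [cc_comp_iff]
  exact InfinitePlace.isReal_of_mk_isReal (IsTotallyReal.isReal _)

lemma card_cc (θ : ℂ_[p] ≃+* ℂ) (M : Type) [Field M] [NumberField M] :
    {s : M →+* ℂ_[p] | (cc θ : ℂ_[p] →+* ℂ_[p]).comp s = s}.ncard =
      InfinitePlace.nrRealPlaces M := by
  classical
  rw [← InfinitePlace.card_real_embeddings, ← Nat.card_eq_fintype_card, ← Nat.card_coe_set_eq]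
  refine Nat.card_congr ⟨fun s => ⟨(θ : ℂ_[p] →+* ℂ).comp s.1, (cc_comp_iff θ _).1 s.2⟩,
    fun φ => ⟨(θ.symm : ℂ →+* ℂ_[p]).comp φ.1, ?_⟩, ?_, ?_⟩
  · have h1 : (θ : ℂ_[p] →+* ℂ).comp ((θ.symm : ℂ →+* ℂ_[p]).comp φ.1) = φ.1 := by
      ext x
      exact θ.apply_symm_apply _
    rw [Set.mem_ofPred_eq, cc_comp_iff, h1]
    exact φ.2
  · intro s
    apply Subtype.ext
    ext x
    exact θ.symm_apply_apply _
  · intro φ
    apply Subtype.ext
    ext x
    exact θ.apply_symm_apply _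

/-- the nontrivial automorphism of a quadratic extension -/
lemma exists_tau [Algebra.IsQuadraticExtension K E] : ∃ τ : E ≃ₐ[K] E, τ ≠ 1 ∧
    (∀ g : E ≃ₐ[K] E, g = 1 ∨ g = τ) ∧ τ * τ = 1 := by
  have : FiniteDimensional K E := FiniteDimensional.right ℚ K E
  have hcard : Nat.card (E ≃ₐ[K] E) = 2 := by
    rw [IsGalois.card_aut_eq_finrank, Algebra.IsQuadraticExtension.finrank_eq_two]
  obtain ⟨τ, h1, hu⟩ := (Nat.card_eq_two_iff' (1 : E ≃ₐ[K] E)).1 hcard
  have hu' : ∀ g : E ≃ₐ[K] E, g ≠ 1 → g = τ := hu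
  refine ⟨τ, h1, fun g => ?_, ?_⟩
  · by_cases h : g = 1
    · exact Or.inl h
    · exact Or.inr (hu' g h)
  · by_contra h
    have h2 := hu' _ h
    exact h1 (mul_eq_left.1 h2)

/-- the nontrivial character of a quadratic extension -/
lemma exists_chi [Algebra.IsQuadraticExtension K E] (p : ℕ) [Fact p.Prime] (τ : E ≃ₐ[K] E)
    (hτ1 : τ ≠ 1) (hτ : ∀ g : E ≃ₐ[K] E, g = 1 ∨ g = τ) (hττ : τ * τ = 1) :
    ∃ χ : (E ≃ₐ[K] E) →* ℂ_[p]ˣ, χ τ = -1 :=
  ⟨quadChar p fun a b ha hb => by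
    rw [(hτ a).resolve_left ha, (hτ b).resolve_left hb, hττ], if_neg hτ1⟩

/-- **Quadratic extensions of totally real fields.** -/
theorem real_quad [IsTotallyReal K] [Algebra.IsQuadraticExtension K E] (m : ℕ)
    (hm : InfinitePlace.nrRealPlaces E = 2 * m)
    (h : m * (m - 1) * Nat.gcd m (finrank ℚ K) < finrank ℚ K) (p : ℕ) [Fact p.Prime] :
    Leopoldt E p ↔ Leopoldt K p := by
  obtain ⟨L, hL⟩ := Pool.Agent.W289.SL.exists_iwasawaLog p
  constructor
  · intro hE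
    exact leopoldt_of_inj hL (inj_sub hL (algebraMap K E) (inj_of_leopoldt hL hE))
  intro hK
  apply leopoldt_of_inj hL
  obtain ⟨τ, hτ1, hτ, hττ⟩ := exists_tau (K := K) (E := E)
  obtain ⟨χ, hχ⟩ := exists_chi p τ hτ1 hτ hττ
  obtain ⟨θ⟩ := Pool.Agent.W254.PA.exists_theta p
  obtain ⟨S, b, hS, hSb, hb⟩ := exists_sep τ hτ χ hχ (cc θ) (cc_fix (K := K) θ)
  have h1 := card_triv τ hτ1 hτ (cc θ)
  rw [card_cc, hm, mul_comm] at h1
  have h2 : m = {σ : K →+* ℂ_[p] | Triv E (cc θ) σ}.ncard := Nat.eq_of_mul_eq_mul_right two_pos h1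
  rw [← h2] at hb
  have hn : 0 < finrank ℚ K := finrank_pos
  have hbn : b ∣ finrank ℚ K := ⟨S.ncard, by rw [mul_comm, hSb]⟩
  have hbg : b ≤ Nat.gcd m (finrank ℚ K) :=
    Nat.le_of_dvd (Nat.gcd_pos_of_pos_right _ hn) (Nat.dvd_gcd hb hbn)
  refine inj_quad hL τ hτ1 hτ χ hχ S hS (m := m) ?_ ?_ (inj_of_leopoldt hL hK)
  · -- the ranks
    have e1 := InfinitePlace.card_add_two_mul_card_eq_rank K
    have e2 := InfinitePlace.card_add_two_mul_card_eq_rank E
    have e3 : InfinitePlace.nrComplexPlaces K = 0 :=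
      nrComplexPlaces_eq_zero_iff.2 inferInstance
    have e4 : finrank ℚ E = finrank ℚ K * 2 := by
      rw [← Algebra.IsQuadraticExtension.finrank_eq_two K E, Module.finrank_mul_finrank]
    have e5 := InfinitePlace.card_eq_nrRealPlaces_add_nrComplexPlaces K
    have e6 := InfinitePlace.card_eq_nrRealPlaces_add_nrComplexPlaces E
    unfold Units.rank
    omega
  · by_contra hcon
    have h3 : finrank ℚ K ≤ m * (m - 1) * Nat.gcd m (finrank ℚ K) := by
      rw [← hSb]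
      exact (Nat.mul_le_mul (not_lt.1 hcon) hbg).trans (by rw [hSb])
    omega

end Pool.Agent.U332.LC
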