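import Mathlib
import Pool.Agent.U332.LC.Q5

/-!
# Elementary abelian `2`-extensions
-/

set_option autoImplicit false

namespace Pool.Agent.U332.LC

open NumberField Module TensorProduct
open Pool.Agent.W289.SL Pool.Agent.W332.SL7
open Pool.Agent.Y419.LC.LcpP Pool.Agent.Y419.LC.SigP
open Pool.Agent.H637R2.Leo (Leopoldt)

section group

/-- groups of exponent two have enough signs -/
lemma exists_sign {G : Type} [Group G] (h : ∀ g : G, g * g = 1) (g : G) (hg : g ≠ 1) :
    ∃ χ : G →* ℤˣ, χ g = -1 := by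
  have hcomm : ∀ a b : G, a * b = b * a := by
    intro a b
    have h1 := h (a * b)
    have ha : a⁻¹ = a := inv_eq_of_mul_eq_one_right (h a)
    have hb : b⁻¹ = b := inv_eq_of_mul_eq_one_right (h b)
    have h2 : (a * b)⁻¹ = a * b := inv_eq_of_mul_eq_one_right h1
    rw [← h2, mul_inv_rev, ha, hb]
  let i0 : CommGroup G := { (inferInstance : Group G) with mul_comm := hcomm }
  let i1 : Module (ZMod 2) (Additive G) := AddCommGroup.zmodModule (n := 2) fun x => by
    rw [two_nsmul]
    exact h x.toMul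
  have h1 : ¬ ∀ φ : Module.Dual (ZMod 2) (Additive G), φ (Additive.ofMul g) = 0 := by
    rw [Module.forall_dual_apply_eq_zero_iff (ZMod 2) (Additive.ofMul g)]
    intro h2
    exact hg (Additive.ofMul.injective h2)
  push Not at h1
  obtain ⟨φ, hφ⟩ := h1
  let s : ZMod 2 → ℤˣ := fun u => if u = 0 then 1 else -1
  have hs : ∀ u v : ZMod 2, s (u + v) = s u * s v := by decide
  refine ⟨⟨⟨fun a => s (φ (Additive.ofMul a)), ?_⟩, ?_⟩, ?_⟩
  · rw [ofMul_one, map_zero]
    rfl
  · intro a b
    change s (φ (Additive.ofMul (a * b))) = s (φ (Additive.ofMul a)) * s (φ (Additive.ofMul b))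
    rw [← hs, ← map_add]
    rfl
  · exact if_neg hφ

open Classical in
lemma sum_sign {G : Type} [Group G] [Finite G] [Fintype (G →* ℤˣ)] (h : ∀ g : G, g * g = 1) (g : G)
    (hg : g ≠ 1) : ∑ χ : G →* ℤˣ, ((χ g : ℤˣ) : ℤ) = 0 := by
  obtain ⟨χ0, h0⟩ := exists_sign h g hg
  have h1 : ∑ χ : G →* ℤˣ, ((χ g : ℤˣ) : ℤ) = ∑ χ : G →* ℤˣ, (((χ0 * χ) g : ℤˣ) : ℤ) :=
    (Equiv.sum_comp (Equiv.mulLeft χ0) (fun χ : G →* ℤˣ => ((χ g : ℤˣ) : ℤ))).symm
  have h2 : ∑ χ : G →* ℤˣ, (((χ0 * χ) g : ℤˣ) : ℤ) = -∑ χ : G →* ℤˣ, ((χ g : ℤˣ) : ℤ) := by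
    rw [← Finset.sum_neg_distrib]
    refine Finset.sum_congr rfl fun χ _ => ?_
    rw [MonoidHom.mul_apply, h0]
    simp
  omega

/-- a vector with vanishing norms is zero -/
lemma zero_of_signs (k : Type) {G V : Type} [Group G] [Fintype G] [Field k] [CharZero k]
    [AddCommGroup V] [Module k V] (h : ∀ g : G, g * g = 1) (y : G → V) (h1 : ∑ g, y g = 0)
    (h2 : ∀ χ : G →* ℤˣ, χ ≠ 1 → ∑ g ∈ Finset.univ.filter (fun g => χ g = 1), y g = 0) :
    y 1 = 0 := by
  classical
  have i0 : Fintype (G →* ℤˣ) := Fintype.ofFinite _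
  have hχ : ∀ χ : G →* ℤˣ, ∑ g, ((χ g : ℤˣ) : ℤ) • y g = 0 := by
    intro χ
    by_cases hχ1 : χ = 1
    · rw [hχ1, ← h1]
      refine Finset.sum_congr rfl fun g _ => ?_
      simp
    · have h3 : ∀ g, ((χ g : ℤˣ) : ℤ) • y g = (2 : ℤ) • (if χ g = 1 then y g else 0) - y g := by
        intro g
        rcases Int.units_eq_one_or (χ g) with h4 | h4
        · rw [h4, if_pos rfl, Units.val_one, two_smul, one_smul, add_sub_cancel_right]
        · rw [h4, if_neg (by decide), Units.val_neg, Units.val_one, neg_smul, one_smul,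
            smul_zero, zero_sub]
      rw [Finset.sum_congr rfl fun g _ => h3 g, Finset.sum_sub_distrib, h1, ← Finset.smul_sum,
        ← Finset.sum_filter, h2 χ hχ1, smul_zero, sub_zero]
  have h4 : ∑ χ : G →* ℤˣ, ∑ g, ((χ g : ℤˣ) : ℤ) • y g = 0 :=
    Finset.sum_eq_zero fun χ _ => hχ χ
  rw [Finset.sum_comm] at h4
  have h5 : ∀ g, ∑ χ : G →* ℤˣ, ((χ g : ℤˣ) : ℤ) • y g =
      if g = 1 then (Fintype.card (G →* ℤˣ) : ℤ) • y g else 0 := by
    intro g
    rw [← Finset.sum_smul]
    by_cases hg : g = 1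
    · rw [if_pos hg, hg]
      simp
    · rw [if_neg hg, sum_sign h g hg, zero_smul]
  rw [Finset.sum_congr rfl fun g _ => h5 g, Finset.sum_ite_eq' Finset.univ (1 : G),
    if_pos (Finset.mem_univ _)] at h4
  have h6 : ((Fintype.card (G →* ℤˣ) : ℤ) : k) • y 1 = 0 := by
    rw [Int.cast_smul_eq_zsmul]
    exact h4
  rcases smul_eq_zero.1 h6 with h7 | h7
  · exfalso
    have h8 : (Fintype.card (G →* ℤˣ) : ℤ) = 0 := by exact_mod_cast h7
    have h9 : 0 < Fintype.card (G →* ℤˣ) := Fintype.card_pos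
    omega
  · exact h7

end group

variable {p : ℕ} [hp : Fact p.Prime]
variable {L : ℂ_[p] → ℂ_[p]} (hL : IsIwasawaLog p L)
variable {K E : Type} [Field K] [NumberField K] [Field E] [NumberField E] [Algebra K E]

open Classical in
/-- norms to intermediate fields -/
lemma sum_unitHom2 [IsGalois K E] (F : IntermediateField K E) (u : Additive (𝓞 E)ˣ) :
    ∑ g ∈ (Finset.univ : Finset (E ≃ₐ[K] E)).filter (fun g => ∀ k : F, g (k : E) = (k : E)),
      unitHom (g : E →+* E) u = unitInc F E (normU F E u) := by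
  rw [← sum_unitHom' (K := F) u]
  refine Finset.sum_bij' (fun g hg => AlgEquiv.ofRingEquiv (f := g.toRingEquiv)
      (by simpa using hg)) (fun g _ => g.restrictScalars K) ?_ ?_ ?_ ?_ ?_
  · intro g hg
    exact Finset.mem_univ _
  · intro g hg
    rw [Finset.mem_filter]
    refine ⟨Finset.mem_univ _, fun k => ?_⟩
    exact g.commutes k
  · intro g hg
    ext x
    rfl
  · intro g hg
    ext x
    rfl
  · intro g hg
    rfl

open Classical in
include hL in
/-- the norm of a relation to an intermediate field with injective logarithms is zero -/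
theorem norm_zero2 [IsGalois K E] (F : IntermediateField K E) (hF : Inj hL F) {x : UM p E}
    (hx : IsRel hL x) :
    ∑ g ∈ (Finset.univ : Finset (E ≃ₐ[K] E)).filter (fun g => ∀ k : F, g (k : E) = (k : E)),
      actLin p (g : E →+* E) x = 0 := by
  set N : UM p E →ₗ[ℂ_[p]] UM p F := (normU F E).toIntLinearMap.baseChange ℂ_[p] with hN
  have key : ∀ y : UM p E, ∑ g ∈ (Finset.univ : Finset (E ≃ₐ[K] E)).filter
      (fun g => ∀ k : F, g (k : E) = (k : E)), actLin p (g : E →+* E) y = incLin p F E (N y) := by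
    intro y
    induction y using TensorProduct.induction_on with
    | zero => simp
    | add y z hy hz => simp only [map_add, Finset.sum_add_distrib, hy, hz]
    | tmul c u =>
      have h1 : N (c ⊗ₜ u) = c ⊗ₜ normU F E u := rfl
      rw [h1, incLin_tmul, ← sum_unitHom2 F u, TensorProduct.tmul_sum]
      rfl
  rw [key]
  have h0 : N x = 0 := by
    apply hF
    intro σ
    obtain ⟨τ, hτ⟩ := exists_ext (H := E) σ
    rw [← hτ, ← logLin_inc, ← key, map_sum]
    refine Finset.sum_eq_zero fun g _ => ?_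
    exact hx.act hL _ τ
  rw [h0, map_zero]

lemma act_one' (x : UM p E) : actLin p (((1 : E ≃ₐ[K] E) : E ≃ₐ[K] E) : E →+* E) x = x := by
  induction x using TensorProduct.induction_on with
  | zero => simp
  | add x y hx hy => rw [map_add, hx, hy]
  | tmul c u =>
    rw [actLin_tmul]
    exact congrArg (fun v => c ⊗ₜ[ℤ] v) (unitHom_id u)

include hL in
/-- **Elementary abelian `2`-extensions.** -/
theorem inj_multi [IsGalois K E] (hexp : ∀ g : E ≃ₐ[K] E, g * g = 1) (hK : Inj hL K)
    (hF : ∀ F : IntermediateField K E, finrank K F = 2 → Inj hL F) : Inj hL E := by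
  classical
  have : FiniteDimensional K E := FiniteDimensional.right ℚ K E
  intro x hx
  have h1 := zero_of_signs ℂ_[p] hexp (fun g => actLin p (g : E →+* E) x)
    (norm_zero' hL hK hx) ?_
  · rw [act_one'] at h1
    exact h1
  · intro χ hχ
    set F : IntermediateField K E := IntermediateField.fixedField χ.ker with hFdef
    have h2 : finrank K F = 2 := by
      rw [IntermediateField.finrank_eq_fixingSubgroup_index,
        IntermediateField.fixingSubgroup_fixedField, Subgroup.index_ker]
      have h3 : χ.range = ⊤ := by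
        obtain ⟨g, hg⟩ : ∃ g, χ g ≠ 1 := by
          by_contra hcon
          push Not at hcon
          exact hχ (MonoidHom.ext hcon)
        have h4 : χ g = -1 := (Int.units_eq_one_or (χ g)).resolve_left hg
        rw [eq_top_iff]
        intro u _
        rcases Int.units_eq_one_or u with h5 | h5
        · rw [h5]
          exact one_mem _
        · exact ⟨g, by rw [h4, h5]⟩
      rw [h3]
      simp
    rw [← norm_zero2 hL F (hF F h2) hx]
    refine Finset.sum_congr (Finset.filter_congr fun g _ => ?_) fun _ _ => rfl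
    have h6 : χ g = 1 ↔ g ∈ χ.ker := Iff.rfl
    rw [h6]
    conv_lhs => rw [← IntermediateField.fixingSubgroup_fixedField χ.ker]
    rw [IntermediateField.mem_fixingSubgroup_iff]
    constructor
    · intro h k
      exact h _ k.2
    · intro h y hy
      exact h ⟨y, hy⟩

end Pool.Agent.U332.LC
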