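import Mathlib
import Pool.Agent.U332.LC.Q6

/-!
# Leopoldt's conjecture for quadratic and elementary abelian `2`-extensions
-/

set_option autoImplicit false

namespace Pool.Agent.U332.LC

open NumberField Module
open Pool.Agent.W332.SL7 (Separates)
open Pool.Agent.W289.SL (IsIwasawaLog)
open Pool.Agent.Y419.LC.LcpP Pool.Agent.Y419.LC.SigP
open Pool.Agent.H637R2.Leo (Leopoldt)

/-- The extension `F/K` has few real places: its relative unit rank is at most one, or `K` is totally
real of degree `n`, exactly `m` real places of `K` are unramified in the quadratic extension `F` (so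
that `F` has `2 m` real places), and `m (m - 1) gcd(m, n) < n`. -/
def Few (K F : Type) [Field K] [NumberField K] [Field F] [NumberField F] : Prop :=
  Units.rank F ≤ Units.rank K + 1 ∨ IsTotallyReal K ∧ ∃ m : ℕ,
    InfinitePlace.nrRealPlaces F = 2 * m ∧ m * (m - 1) * Nat.gcd m (finrank ℚ K) < finrank ℚ K

variable {p : ℕ} [Fact p.Prime] {L : ℂ_[p] → ℂ_[p]} (hL : IsIwasawaLog p L)
variable {K E : Type} [Field K] [NumberField K] [Field E] [NumberField E] [Algebra K E]

include hL in
theorem inj_few [Algebra.IsQuadraticExtension K E] (h : Few K E) (hK : Inj hL K) : Inj hL E := by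
  rcases h with h | ⟨hreal, m, hm, h⟩
  · obtain ⟨τ, hτ1, hτ, hττ⟩ := exists_tau (K := K) (E := E)
    obtain ⟨χ, hχ⟩ := exists_chi p τ hτ1 hτ hττ
    obtain ⟨σ⟩ := exists_emb p K
    refine inj_quad hL τ hτ1 hτ χ hχ {σ} ?_ (m := 1) h (by simp) hK
    intro s s' hs hs' hne
    exact absurd (hs.trans hs'.symm) hne
  · exact inj_of_leopoldt hL ((real_quad m hm h p).2 (leopoldt_of_inj hL hK))

/-- **The reduction theorem.** -/
theorem leopoldt_multi [IsGalois K E] (hexp : ∀ g : E ≃ₐ[K] E, g * g = 1)
    (hF : ∀ F : IntermediateField K E, finrank K F = 2 → Few K F) (p : ℕ) [Fact p.Prime] :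
    Leopoldt E p ↔ Leopoldt K p := by
  obtain ⟨L, hL⟩ := Pool.Agent.W289.SL.exists_iwasawaLog p
  constructor
  · intro hE
    exact leopoldt_of_inj hL (inj_sub hL (algebraMap K E) (inj_of_leopoldt hL hE))
  intro hK
  apply leopoldt_of_inj hL
  refine inj_multi hL hexp (inj_of_leopoldt hL hK) fun F h2 => ?_
  have : Algebra.IsQuadraticExtension K F := ⟨h2⟩
  exact inj_few hL (hF F h2) (inj_of_leopoldt hL hK)

/-- **Quadratic extensions.** -/
theorem leopoldt_quad [Algebra.IsQuadraticExtension K E] (h : Few K E) (p : ℕ) [Fact p.Prime] :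
    Leopoldt E p ↔ Leopoldt K p := by
  obtain ⟨L, hL⟩ := Pool.Agent.W289.SL.exists_iwasawaLog p
  constructor
  · intro hE
    exact leopoldt_of_inj hL (inj_sub hL (algebraMap K E) (inj_of_leopoldt hL hE))
  · intro hK
    exact leopoldt_of_inj hL (inj_few hL h (inj_of_leopoldt hL hK))

/-- the number of real places of a quadratic extension of a totally real field -/
lemma real_even [IsTotallyReal K] [Algebra.IsQuadraticExtension K E] :
    ∃ m : ℕ, InfinitePlace.nrRealPlaces E = 2 * m := by
  have : Fact (Nat.Prime 2) := ⟨Nat.prime_two⟩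
  obtain ⟨τ, hτ1, hτ, hττ⟩ := exists_tau (K := K) (E := E)
  obtain ⟨θ⟩ := Pool.Agent.W254.PA.exists_theta 2
  have h1 := card_triv τ hτ1 hτ (cc θ)
  rw [card_cc] at h1
  exact ⟨_, h1.trans (mul_comm _ _)⟩

/-- quadratic extensions of totally real fields of degree at most three -/
theorem few_three [IsTotallyReal K] [Algebra.IsQuadraticExtension K E] (h3 : finrank ℚ K ≤ 3)
    (hE : ¬ IsTotallyReal E) : Few K E := by
  refine Or.inr ⟨inferInstance, ?_⟩
  obtain ⟨m, hm⟩ := real_even (K := K) (E := E)
  refine ⟨m, hm, ?_⟩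
  have e2 := InfinitePlace.card_add_two_mul_card_eq_rank E
  have e4 : finrank ℚ E = finrank ℚ K * 2 := by
    rw [← Algebra.IsQuadraticExtension.finrank_eq_two K E, Module.finrank_mul_finrank]
  have e5 : InfinitePlace.nrComplexPlaces E ≠ 0 := fun h => hE (nrComplexPlaces_eq_zero_iff.1 h)
  have hn : 0 < finrank ℚ K := finrank_pos
  have hmn : m < finrank ℚ K := by omega
  generalize finrank ℚ K = n at *
  interval_cases n <;> interval_cases m <;> decide

end Pool.Agent.U332.LC
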